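import Mathlib

/-! The infinite braid group, its finite stages, and the induction principle used for
link invariants given by braid closures. -/

namespace Pool.Agent.Lib.Pe17fed

/-- The relators of Artin's presentation of the braid group on infinitely many strands. -/
inductive BRel : FreeGroup ℕ → Prop
  | comm (i j : ℕ) (h : i + 2 ≤ j) :
      BRel (FreeGroup.of i * FreeGroup.of j * (FreeGroup.of i)⁻¹ * (FreeGroup.of j)⁻¹)
  | braid (i : ℕ) :
      BRel (FreeGroup.of i * FreeGroup.of (i + 1) * FreeGroup.of i *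
        (FreeGroup.of (i + 1))⁻¹ * (FreeGroup.of i)⁻¹ * (FreeGroup.of (i + 1))⁻¹)

/-- The braid group on infinitely many strands. -/
abbrev Br : Type := PresentedGroup {r : FreeGroup ℕ | BRel r}

/-- The Artin generator `σ i`, a positive crossing of the strands `i` and `i + 1`. -/
def sg (i : ℕ) : Br := PresentedGroup.of i

/-- Braids on the first `n` strands: the subgroup generated by `σ i`, `i + 1 < n`. -/
def BB (n : ℕ) : Subgroup Br := Subgroup.closure {g | ∃ i, i + 1 < n ∧ g = sg i}

theorem sg_mem {i n : ℕ} (h : i + 1 < n) : sg i ∈ BB n :=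
  Subgroup.subset_closure ⟨i, h, rfl⟩

theorem BB_mono {m n : ℕ} (h : m ≤ n) : BB m ≤ BB n :=
  Subgroup.closure_mono (by rintro g ⟨i, hi, rfl⟩; exact ⟨i, by omega, rfl⟩)

theorem sg_comm {i j : ℕ} (h : i + 2 ≤ j) : sg i * sg j = sg j * sg i := by
  have h1 : (PresentedGroup.mk {r : FreeGroup ℕ | BRel r})
      (FreeGroup.of i * FreeGroup.of j * (FreeGroup.of i)⁻¹ * (FreeGroup.of j)⁻¹) = 1 :=
    PresentedGroup.one_of_mem (BRel.comm i j h)
  simp only [map_mul, map_inv] at h1
  have h2 : sg i * sg j * (sg i)⁻¹ * (sg j)⁻¹ = 1 := h1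
  rw [mul_inv_eq_one, mul_inv_eq_iff_eq_mul] at h2
  exact h2

theorem sg_braid (i : ℕ) : sg i * sg (i + 1) * sg i = sg (i + 1) * sg i * sg (i + 1) := by
  have h1 : (PresentedGroup.mk {r : FreeGroup ℕ | BRel r})
      (FreeGroup.of i * FreeGroup.of (i + 1) * FreeGroup.of i *
        (FreeGroup.of (i + 1))⁻¹ * (FreeGroup.of i)⁻¹ * (FreeGroup.of (i + 1))⁻¹) = 1 :=
    PresentedGroup.one_of_mem (BRel.braid i)
  simp only [map_mul, map_inv] at h1
  have h2 : sg i * sg (i + 1) * sg i * (sg (i + 1))⁻¹ * (sg i)⁻¹ * (sg (i + 1))⁻¹ = 1 := h1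
  rw [mul_inv_eq_one, mul_inv_eq_iff_eq_mul, mul_inv_eq_iff_eq_mul] at h2
  exact h2

/-- Homomorphisms out of the braid group. -/
def lift {G : Type*} [Group G] (f : ℕ → G) (hc : ∀ i j, i + 2 ≤ j → f i * f j = f j * f i)
    (hb : ∀ i, f i * f (i + 1) * f i = f (i + 1) * f i * f (i + 1)) : Br →* G :=
  PresentedGroup.toGroup (f := f) (by
    rintro r (⟨i, j, h⟩ | ⟨i⟩)
    · simp only [map_mul, map_inv, FreeGroup.lift_apply_of]
      rw [mul_inv_eq_one, mul_inv_eq_iff_eq_mul]
      exact hc i j h
    · simp only [map_mul, map_inv, FreeGroup.lift_apply_of]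
      rw [mul_inv_eq_one, mul_inv_eq_iff_eq_mul, mul_inv_eq_iff_eq_mul]
      exact hb i)

@[simp] theorem lift_sg {G : Type*} [Group G] (f : ℕ → G)
    (hc : ∀ i j, i + 2 ≤ j → f i * f j = f j * f i)
    (hb : ∀ i, f i * f (i + 1) * f i = f (i + 1) * f i * f (i + 1)) (i : ℕ) :
    lift f hc hb (sg i) = f i :=
  PresentedGroup.toGroup.of _

theorem BB_zero : BB 0 = ⊥ := by
  rw [BB, Subgroup.closure_eq_bot_iff]
  rintro g ⟨i, hi, _⟩
  omega

theorem BB_one : BB 1 = ⊥ := by
  rw [BB, Subgroup.closure_eq_bot_iff]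
  rintro g ⟨i, hi, _⟩
  omega

/-- Braids on the first `m` strands commute with `σ m`. -/
theorem commute_sg {m : ℕ} {t : Br} (ht : t ∈ BB m) : t * sg m = sg m * t := by
  have h : BB m ≤ Subgroup.centralizer {sg m} := by
    rw [BB, Subgroup.closure_le]
    rintro g ⟨i, hi, rfl⟩
    rw [SetLike.mem_coe, Subgroup.mem_centralizer_iff]
    rintro x hx
    rw [Set.mem_singleton_iff.1 hx]
    exact (sg_comm (by omega)).symm
  exact (Subgroup.mem_centralizer_iff.1 (h ht) (sg m) rfl).symm

theorem commute_sg_inv {m : ℕ} {t : Br} (ht : t ∈ BB m) : t * (sg m)⁻¹ = (sg m)⁻¹ * t := by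
  have := commute_sg ht
  exact (Commute.inv_right (show Commute t (sg m) from this))

/-- `W m k x`: `x` is a product of elements of `BB (m + 1)` and `k` letters `σ_m^{±1}`. -/
def W (m : ℕ) : ℕ → Br → Prop
  | 0, x => x ∈ BB (m + 1)
  | k + 1, x => ∃ a ∈ BB (m + 1), ∃ s, (s = sg m ∨ s = (sg m)⁻¹) ∧ ∃ y, W m k y ∧ x = a * s * y

theorem W_mul {m k : ℕ} {x g : Br} (hg : g ∈ BB (m + 1)) (h : W m k x) : W m k (g * x) := by
  cases k with
  | zero => exact (BB (m + 1)).mul_mem hg h
  | succ k =>
    obtain ⟨a, ha, s, hs, y, hy, rfl⟩ := h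
    exact ⟨g * a, (BB (m + 1)).mul_mem hg ha, s, hs, y, hy, by simp only [mul_assoc]⟩

theorem sgm_mem {m : ℕ} {s : Br} (hs : s = sg m ∨ s = (sg m)⁻¹) : s ∈ BB (m + 2) := by
  rcases hs with rfl | rfl
  · exact sg_mem (by omega)
  · exact (BB (m + 2)).inv_mem (sg_mem (by omega))

theorem W_mem {m k : ℕ} {x : Br} (h : W m k x) : x ∈ BB (m + 2) := by
  induction k generalizing x with
  | zero => exact BB_mono (by omega) h
  | succ k ih =>
    obtain ⟨a, ha, s, hs, y, hy, rfl⟩ := h
    exact (BB (m + 2)).mul_mem ((BB (m + 2)).mul_mem (BB_mono (by omega) ha) (sgm_mem hs)) (ih hy)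

theorem W_trans {m k l : ℕ} {x y : Br} (h : W m k x) (h' : W m l y) : W m (k + l) (x * y) := by
  induction k generalizing x with
  | zero => rw [Nat.zero_add]; exact W_mul h h'
  | succ k ih =>
    obtain ⟨a, ha, s, hs, z, hz, rfl⟩ := h
    have := ih hz
    rw [show k + 1 + l = (k + l) + 1 by omega]
    exact ⟨a, ha, s, hs, z * y, this, by simp only [mul_assoc]⟩

theorem exists_W {m : ℕ} {x : Br} (hx : x ∈ BB (m + 2)) : ∃ k, W m k x := by
  induction hx using Subgroup.closure_induction with
  | mem x hx =>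
    obtain ⟨i, hi, rfl⟩ := hx
    rcases Nat.lt_or_ge (i + 1) (m + 1) with h | h
    · exact ⟨0, sg_mem h⟩
    · have : i = m := by omega
      subst this
      exact ⟨1, 1, Subgroup.one_mem _, _, Or.inl rfl, 1, Subgroup.one_mem _, by simp⟩
  | one => exact ⟨0, Subgroup.one_mem _⟩
  | mul x y _ _ hx hy =>
    obtain ⟨k, hk⟩ := hx
    obtain ⟨l, hl⟩ := hy
    exact ⟨k + l, W_trans hk hl⟩
  | inv x _ hx =>
    obtain ⟨k, hk⟩ := hx
    refine ⟨k, ?_⟩
    clear * - hk
    induction k generalizing x with
    | zero => exact Subgroup.inv_mem _ hk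
    | succ k ih =>
      obtain ⟨a, ha, s, hs, y, hy, rfl⟩ := hk
      have h1 := ih y hy
      have h2 : W m 1 (s⁻¹ * a⁻¹) := by
        refine ⟨1, Subgroup.one_mem _, s⁻¹, ?_, a⁻¹, Subgroup.inv_mem _ ha, by simp⟩
        rcases hs with rfl | rfl
        · right; rfl
        · left; simp
      have := W_trans h1 h2
      have e : (a * s * y)⁻¹ = y⁻¹ * (s⁻¹ * a⁻¹) := by group
      rw [e]; exact this

/-- A predicate is skein-closed on `BB n`. -/
def SC (n : ℕ) (R : Br → Prop) : Prop :=
  ∀ i, i + 1 < n → ∀ a ∈ BB n, ∀ b ∈ BB n, R (a * b) → (R (a * sg i * b) ↔ R (a * (sg i)⁻¹ * b))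

theorem SC_context {m : ℕ} {R : Br → Prop} (h : SC (m + 1) R) {u v : Br} (hu : u ∈ BB (m + 1))
    (hv : v ∈ BB (m + 1)) : SC m (fun x => R (u * x * v)) := by
  intro i hi a ha b hb hab
  have := h i (by omega) (u * a) ((BB (m + 1)).mul_mem hu (BB_mono (by omega) ha)) (b * v)
    ((BB (m + 1)).mul_mem (BB_mono (by omega) hb) hv)
    (by simpa only [mul_assoc] using hab)
  simpa only [mul_assoc] using this

theorem claim (m : ℕ) : ∀ R : Br → Prop, SC (m + 2) R → (∀ b ∈ BB (m + 1), R b) →
    (∀ a ∈ BB (m + 1), ∀ b ∈ BB (m + 1), R (a * sg m * b)) → ∀ b ∈ BB (m + 2), R b := by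
  induction m with
  | zero =>
    intro R hSC h0 h1 b hb
    obtain ⟨k, hk⟩ := exists_W hb
    clear hb
    induction k using Nat.strong_induction_on generalizing b with
    | _ k ih =>
      match k, hk with
      | 0, hk => exact h0 b hk
      | 1, hk =>
        obtain ⟨a, ha, s, hs, y, hy, rfl⟩ := hk
        rcases hs with rfl | rfl
        · exact h1 a ha y hy
        · exact (hSC 0 (by omega) a (BB_mono (by omega) ha) y (BB_mono (by omega) hy)
            (h0 _ ((BB 1).mul_mem ha hy))).1 (h1 a ha y hy)
      | k + 2, hk =>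
        obtain ⟨a, ha, s, hs, y, ⟨a', ha', s', hs', z, hz, rfl⟩, rfl⟩ := hk
        have ha1 : a' = 1 := by
          rw [BB_one] at ha'; exact Subgroup.mem_bot.1 ha'
        subst ha1
        have hz' := W_mem hz
        have key : R (a * s * z) → (R (a * s * sg 0 * z) ↔ R (a * s * (sg 0)⁻¹ * z)) :=
          hSC 0 (by omega) (a * s) ((BB 2).mul_mem (BB_mono (by omega) ha) (sgm_mem hs)) z hz'
        have h3 : R (a * s * z) := ih (k + 1) (by omega) _ ⟨a, ha, s, hs, z, hz, rfl⟩
        have h4 : R (a * z) := ih k (by omega) _ (W_mul ha hz)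
        have key := key h3
        have e : ∀ t : Br, a * s * (1 * t * z) = a * s * t * z := by
          intro t; simp only [mul_assoc, one_mul]
        rw [e]
        rcases hs with rfl | rfl <;> rcases hs' with rfl | rfl
        · rw [key, mul_assoc a]; simpa using h4
        · rw [mul_assoc a]; simpa using h4
        · rw [mul_assoc a]; simpa using h4
        · rw [← key, mul_assoc a]; simpa using h4
  | succ m IH =>
    intro R hSC h0 h1 b hb
    obtain ⟨k, hk⟩ := exists_W hb
    clear hb
    induction k using Nat.strong_induction_on generalizing b with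
    | _ k ih =>
      match k, hk with
      | 0, hk => exact h0 b hk
      | 1, hk =>
        obtain ⟨a, ha, s, hs, y, hy, rfl⟩ := hk
        rcases hs with rfl | rfl
        · exact h1 a ha y hy
        · exact (hSC (m + 1) (by omega) a (BB_mono (by omega) ha) y (BB_mono (by omega) hy)
            (h0 _ ((BB (m + 2)).mul_mem ha hy))).1 (h1 a ha y hy)
      | k + 2, hk =>
        obtain ⟨a, ha, s, hs, y, ⟨a', ha', s', hs', z, hz, rfl⟩, rfl⟩ := hk
        have hz' := W_mem hz
        have e : a * s * (a' * s' * z) = (a * s) * a' * (s' * z) := by simp only [mul_assoc]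
        rw [e]
        have hsz : s' * z ∈ BB (m + 3) := (BB (m + 3)).mul_mem (sgm_mem hs') hz'
        refine IH (fun x => R ((a * s) * x * (s' * z)))
          (SC_context hSC ((BB (m + 3)).mul_mem (BB_mono (by omega) ha) (sgm_mem hs)) hsz)
          ?_ ?_ a' ha'
        · -- middle element in `BB (m + 1)`
          intro t ht
          have hat : a * t ∈ BB (m + 2) := (BB (m + 2)).mul_mem ha (BB_mono (by omega) ht)
          have hts : t * s = s * t := by
            rcases hs with rfl | rfl
            · exact commute_sg ht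
            · exact commute_sg_inv ht
          have h3 : R (a * t * s * z) := ih (k + 1) (by omega) _ ⟨a * t, hat, s, hs, z, hz, rfl⟩
          have h4 : R (a * t * z) := ih k (by omega) _ (W_mul hat hz)
          have key := hSC (m + 1) (by omega) (a * t * s) ((BB (m + 3)).mul_mem
            (BB_mono (by omega) hat) (sgm_mem hs)) z hz' h3
          have e2 : (a * s) * t * (s' * z) = a * t * s * s' * z := by
            rw [mul_assoc a s t, ← hts]; simp only [mul_assoc]
          show R ((a * s) * t * (s' * z))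
          rw [e2]
          rcases hs with rfl | rfl <;> rcases hs' with rfl | rfl
          · rw [key, mul_assoc (a * t)]; simpa using h4
          · rw [mul_assoc (a * t)]; simpa using h4
          · rw [mul_assoc (a * t)]; simpa using h4
          · rw [← key, mul_assoc (a * t)]; simpa using h4
        · -- middle element `t σ_m t'`
          intro t ht t' ht'
          have hat : a * t ∈ BB (m + 2) := (BB (m + 2)).mul_mem ha (BB_mono (by omega) ht)
          have hts : t * s = s * t := by
            rcases hs with rfl | rfl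
            · exact commute_sg ht
            · exact commute_sg_inv ht
          have hts' : t' * s' = s' * t' := by
            rcases hs' with rfl | rfl
            · exact commute_sg ht'
            · exact commute_sg_inv ht'
          have hY : W (m + 1) k (t' * z) := W_mul (BB_mono (by omega) ht') hz
          have hY' := W_mem hY
          have hsm : sg m ∈ BB (m + 2) := sg_mem (by omega)
          have e2 : (a * s) * (t * sg m * t') * (s' * z) = a * t * s * sg m * s' * (t' * z) := by
            have : (a * s) * (t * sg m * t') * (s' * z) = a * (s * t) * sg m * (t' * s') * z := by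
              simp only [mul_assoc]
            rw [this, ← hts, hts']; simp only [mul_assoc]
          show R ((a * s) * (t * sg m * t') * (s' * z))
          rw [e2]
          generalize t' * z = Y at hY hY'
          generalize a * t = A at hat
          have hA' : A ∈ BB (m + 3) := BB_mono (by omega) hat
          have hsm' : sg m ∈ BB (m + 3) := sg_mem (by omega)
          have hsm1 : sg (m + 1) ∈ BB (m + 3) := sg_mem (by omega)
          -- one-letter cases
          have one_l : ∀ r, (r = sg (m + 1) ∨ r = (sg (m + 1))⁻¹) → R (A * r * sg m * Y) := by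
            intro r hr
            refine ih (k + 1) (by omega) _ ⟨A, hat, r, hr, sg m * Y, W_mul hsm hY, ?_⟩
            simp only [mul_assoc]
          have one_r : ∀ r, (r = sg (m + 1) ∨ r = (sg (m + 1))⁻¹) → R (A * sg m * r * Y) := by
            intro r hr
            exact ih (k + 1) (by omega) _ ⟨A * sg m, (BB (m + 2)).mul_mem hat hsm, r, hr, Y, hY, rfl⟩
          have pp : R (A * sg (m + 1) * sg m * sg (m + 1) * Y) := by
            have e3 : A * sg (m + 1) * sg m * sg (m + 1) * Y
                = A * sg m * sg (m + 1) * (sg m * Y) := by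
              have : A * sg (m + 1) * sg m * sg (m + 1) * Y
                = A * (sg (m + 1) * sg m * sg (m + 1)) * Y := by simp only [mul_assoc]
              rw [this, ← sg_braid]; simp only [mul_assoc]
            rw [e3]
            exact ih (k + 1) (by omega) _ ⟨A * sg m, (BB (m + 2)).mul_mem hat hsm, _, Or.inl rfl,
              _, W_mul hsm hY, rfl⟩
          have last : ∀ r, (r = sg (m + 1) ∨ r = (sg (m + 1))⁻¹) →
              (R (A * r * sg m * sg (m + 1) * Y) ↔ R (A * r * sg m * (sg (m + 1))⁻¹ * Y)) := by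
            intro r hr
            exact hSC (m + 1) (by omega) (A * r * sg m) ((BB (m + 3)).mul_mem
              ((BB (m + 3)).mul_mem hA' (sgm_mem hr)) hsm') Y hY' (one_l r hr)
          have first : ∀ r, (r = sg (m + 1) ∨ r = (sg (m + 1))⁻¹) →
              (R (A * sg (m + 1) * sg m * r * Y) ↔ R (A * (sg (m + 1))⁻¹ * sg m * r * Y)) := by
            intro r hr
            have := hSC (m + 1) (by omega) A hA' (sg m * r * Y) ((BB (m + 3)).mul_mem
              ((BB (m + 3)).mul_mem hsm' (sgm_mem hr)) hY')
              (by simpa only [mul_assoc] using one_r r hr)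
            simpa only [mul_assoc] using this
          rcases hs with rfl | rfl <;> rcases hs' with rfl | rfl
          · exact pp
          · exact (last _ (Or.inl rfl)).1 pp
          · exact (first _ (Or.inl rfl)).1 pp
          · exact (last _ (Or.inr rfl)).1 ((first _ (Or.inl rfl)).1 pp)

/-- **Induction principle** for properties of closed braids. -/
theorem braid_induction {P : ℕ → Br → Prop} (h0 : P 0 1)
    (hconj : ∀ n, ∀ g ∈ BB n, ∀ b ∈ BB n, P n b → P n (g * b * g⁻¹))
    (hskein : ∀ n i, i + 1 < n → ∀ b ∈ BB n, P n b → (P n (b * sg i) ↔ P n (b * (sg i)⁻¹)))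
    (hs0 : ∀ n, ∀ b ∈ BB n, P n b → P (n + 1) b)
    (hs1 : ∀ n, ∀ b ∈ BB (n + 1), P (n + 1) b → P (n + 2) (b * sg n)) :
    ∀ n, ∀ b ∈ BB n, P n b := by
  have conj_iff : ∀ n, ∀ a ∈ BB n, ∀ b ∈ BB n, P n (a * b) ↔ P n (b * a) := by
    intro n a ha b hb
    constructor
    · intro h
      have := hconj n b hb _ ((BB n).mul_mem ha hb) h
      have e : b * (a * b) * b⁻¹ = b * a := by group
      rwa [e] at this
    · intro h
      have := hconj n a ha _ ((BB n).mul_mem hb ha) h
      have e : a * (b * a) * a⁻¹ = a * b := by group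
      rwa [e] at this
  have hSC : ∀ n, SC n (P n) := by
    intro n i hi a ha b hb hab
    have hs : sg i ∈ BB n := sg_mem hi
    have h1 := hskein n i hi (b * a) ((BB n).mul_mem hb ha) ((conj_iff n a ha b hb).1 hab)
    have e1 : P n (a * sg i * b) ↔ P n (b * a * sg i) := by
      rw [conj_iff n (a * sg i) ((BB n).mul_mem ha hs) b hb, mul_assoc]
    have e2 : P n (a * (sg i)⁻¹ * b) ↔ P n (b * a * (sg i)⁻¹) := by
      rw [conj_iff n (a * (sg i)⁻¹) ((BB n).mul_mem ha ((BB n).inv_mem hs)) b hb, mul_assoc]
    rw [e1, e2]; exact h1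
  intro n
  induction n with
  | zero =>
    intro b hb
    rw [BB_zero, Subgroup.mem_bot] at hb
    rw [hb]; exact h0
  | succ n ih =>
    cases n with
    | zero =>
      intro b hb
      rw [BB_one, Subgroup.mem_bot] at hb
      rw [hb]; exact hs0 0 1 (Subgroup.one_mem _) h0
    | succ n =>
      intro b hb
      refine claim n (P (n + 2)) (hSC (n + 2)) (fun b hb => hs0 _ b hb (ih b hb)) ?_ b hb
      intro a ha b hb
      rw [conj_iff (n + 2) (a * sg n) ((BB (n + 2)).mul_mem (BB_mono (by omega) ha)
        (sg_mem (by omega))) b (BB_mono (by omega) hb), ← mul_assoc]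
      exact hs1 n (b * a) ((BB (n + 1)).mul_mem hb ha) (ih _ ((BB (n + 1)).mul_mem hb ha))

end Pool.Agent.Lib.Pe17fed
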