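import Mathlib

/-! Cycles of permutations: merging and splitting under multiplication by a transposition,
transversals of the set of cycles. -/

namespace Pool.Agent.Lib.Pe17fed

open Equiv Equiv.Perm

section general

variable {α : Type*}

/-- All orbits are finite. -/
def Per (π : Perm α) : Prop := ∀ x, ∃ m, 0 < m ∧ (π ^ m) x = x

theorem Per.exists_pow {π : Perm α} (h : Per π) {x y : α} (hxy : π.SameCycle x y) :
    ∃ k : ℕ, (π ^ k) x = y := by
  obtain ⟨k, hk⟩ := hxy
  obtain ⟨m, hm, hmx⟩ := h x
  refine ⟨(k % m).toNat, ?_⟩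
  have h1 : (0 : ℤ) ≤ k % m := Int.emod_nonneg _ (by omega)
  have h2 : (π ^ ((k % m).toNat)) x = (π ^ (k % m)) x := by
    conv_rhs => rw [← Int.toNat_of_nonneg h1]
    rw [zpow_natCast]
  rw [h2]
  have h3 : (π ^ k) x = (π ^ (k % m)) ((π ^ (m * (k / m) : ℤ)) x) := by
    rw [← mul_apply, ← zpow_add, Int.emod_add_mul_ediv]
  have h4 : (π ^ (m * (k / m) : ℤ)) x = x := by
    rw [zpow_mul, zpow_natCast]
    exact zpow_apply_eq_self_of_apply_eq_self hmx _
  rw [h4] at h3
  rw [← h3, hk]

theorem rel_of_sameCycle {π : Perm α} {r : α → α → Prop} (hr : Equivalence r)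
    (h : ∀ x, r x (π x)) {x y : α} (hxy : π.SameCycle x y) : r x y := by
  obtain ⟨k, rfl⟩ := hxy
  induction k using Int.induction_on with
  | zero => exact hr.refl x
  | succ k ih =>
    rw [add_comm, zpow_add, mul_apply, zpow_one]
    exact hr.trans ih (h _)
  | pred k ih =>
    have : (π ^ (-(k : ℤ))) x = π ((π ^ (-(k : ℤ) - 1)) x) := by
      rw [← mul_apply, ← zpow_one_add]; congr 2; ring
    rw [this] at ih
    exact hr.trans ih (hr.symm (h _))

variable [DecidableEq α]

theorem sameCycle_of_not {π : Perm α} (hπ : Per π) {i j : α}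
    (hn : ¬ π.SameCycle i j) : (π * swap i j).SameCycle i j := by
  classical
  have hex : ∃ m, 0 < m ∧ (π ^ m) j = j := hπ j
  obtain ⟨hm, hmj⟩ := Nat.find_spec hex
  have hmin := fun k (hk : k < Nat.find hex) => Nat.find_min hex hk
  set m := Nat.find hex with hmdef
  have key : ∀ k, 1 ≤ k → k ≤ m → ((π * swap i j) ^ k) i = (π ^ k) j := by
    intro k hk
    induction k, hk using Nat.le_induction with
    | base => intro _; simp
    | succ k hk ih =>
      intro hkm
      rw [pow_succ', mul_apply, ih (by omega), mul_apply, pow_succ', mul_apply]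
      congr 1
      apply swap_apply_of_ne_of_ne
      · intro h
        exact hn ⟨-(k : ℤ), by rw [← h, zpow_neg, zpow_natCast, ← mul_apply, inv_mul_cancel, one_apply]⟩
      · intro h
        exact hmin k (by omega) ⟨by omega, h⟩
  exact ⟨(m : ℤ), by rw [zpow_natCast, key m hm le_rfl, hmj]⟩

theorem sameCycle_mul_swap_of {π : Perm α} (hπ : Per π) {i j x y : α}
    (hn : ¬ π.SameCycle i j) (hxy : π.SameCycle x y) : (π * swap i j).SameCycle x y := by
  have h := sameCycle_of_not hπ hn
  refine rel_of_sameCycle (SameCycle.equivalence _) (fun x => ?_) hxy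
  by_cases hxi : x = i
  · subst hxi
    have h1 : (π * swap x j) j = π x := by simp
    exact h.trans ⟨1, by rw [zpow_one, h1]⟩
  · by_cases hxj : x = j
    · subst hxj
      have h1 : (π * swap i x) i = π x := by simp
      exact h.symm.trans ⟨1, by rw [zpow_one, h1]⟩
    · have h1 : (π * swap i j) x = π x := by
        rw [mul_apply, swap_apply_of_ne_of_ne hxi hxj]
      exact ⟨1, by rw [zpow_one, h1]⟩

theorem merge_iff {π : Perm α} (hπ : Per π) {i j : α}
    (hn : ¬ π.SameCycle i j) (x y : α) : (π * swap i j).SameCycle x y ↔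
      π.SameCycle x y ∨ ((π.SameCycle x i ∨ π.SameCycle x j) ∧
        (π.SameCycle y i ∨ π.SameCycle y j)) := by
  constructor
  · intro h
    refine rel_of_sameCycle (r := fun x y => π.SameCycle x y ∨
      ((π.SameCycle x i ∨ π.SameCycle x j) ∧ (π.SameCycle y i ∨ π.SameCycle y j)))
      ⟨fun x => Or.inl (SameCycle.refl _ _), ?_, ?_⟩ (fun x => ?_) h
    · rintro x y (h | h)
      · exact Or.inl h.symm
      · exact Or.inr ⟨h.2, h.1⟩
    · rintro x y z (h | h) (h' | h')
      · exact Or.inl (h.trans h')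
      · exact Or.inr ⟨h'.1.imp h.trans h.trans, h'.2⟩
      · exact Or.inr ⟨h.1, h.2.imp h'.symm.trans h'.symm.trans⟩
      · exact Or.inr ⟨h.1, h'.2⟩
    · by_cases hxi : x = i
      · subst hxi
        right
        exact ⟨Or.inl (SameCycle.refl _ _), Or.inr ⟨-1, by simp⟩⟩
      · by_cases hxj : x = j
        · subst hxj
          right
          exact ⟨Or.inr (SameCycle.refl _ _), Or.inl ⟨-1, by simp⟩⟩
        · left
          exact ⟨1, by rw [zpow_one, mul_apply, swap_apply_of_ne_of_ne hxi hxj]⟩
  · have h0 := sameCycle_of_not hπ hn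
    rintro (h | ⟨h1, h2⟩)
    · exact sameCycle_mul_swap_of hπ hn h
    · have a1 : (π * swap i j).SameCycle x i := by
        rcases h1 with h | h
        · exact sameCycle_mul_swap_of hπ hn h
        · exact (sameCycle_mul_swap_of hπ hn h).trans h0.symm
      have a2 : (π * swap i j).SameCycle y i := by
        rcases h2 with h | h
        · exact sameCycle_mul_swap_of hπ hn h
        · exact (sameCycle_mul_swap_of hπ hn h).trans h0.symm
      exact a1.trans a2.symm

theorem not_sameCycle_of {π : Perm α} (hπ : Per π) {i j : α} (hij : i ≠ j)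
    (hs : π.SameCycle i j) : ¬ (π * swap i j).SameCycle i j := by
  classical
  have hex : ∃ a, (π ^ a) i = j := hπ.exists_pow hs
  have haj := Nat.find_spec hex
  have hmin := fun k (hk : k < Nat.find hex) => Nat.find_min hex hk
  set a := Nat.find hex with hadef
  have ha : 0 < a := by
    rcases Nat.eq_zero_or_pos a with h | h
    · rw [h] at haj; exact absurd haj hij
    · exact h
  have hni : ∀ k, 1 ≤ k → k ≤ a → (π ^ k) i ≠ i := by
    intro k hk hka h
    have : (π ^ (a - k)) i = j := by
      conv_lhs => rw [← h]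
      rw [← mul_apply, ← pow_add, Nat.sub_add_cancel hka, haj]
    exact hmin (a - k) (by omega) this
  set C : Finset α := (Finset.Icc 1 a).image (fun k => (π ^ k) i) with hC
  have memC : ∀ x, x ∈ C ↔ ∃ k, (1 ≤ k ∧ k ≤ a) ∧ (π ^ k) i = x := by
    intro x; simp [hC]
  have hmap : ∀ x ∈ C, (π * swap i j) x ∈ C := by
    intro x hx
    obtain ⟨k, ⟨hk1, hk2⟩, rfl⟩ := (memC x).1 hx
    rcases Nat.lt_or_ge k a with h | h
    · have : (π * swap i j) ((π ^ k) i) = (π ^ (k + 1)) i := by
        rw [mul_apply, swap_apply_of_ne_of_ne (hni k hk1 hk2) (hmin k h), pow_succ', mul_apply]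
      rw [this]
      exact (memC _).2 ⟨k + 1, ⟨by omega, by omega⟩, rfl⟩
    · have hka : k = a := le_antisymm hk2 h
      rw [hka, haj]
      have : (π * swap i j) j = (π ^ 1) i := by simp
      rw [this]
      exact (memC _).2 ⟨1, ⟨le_rfl, ha⟩, rfl⟩
  have himg : C.image (π * swap i j) = C := by
    apply Finset.eq_of_subset_of_card_le
    · intro x hx
      obtain ⟨y, hy, rfl⟩ := Finset.mem_image.1 hx
      exact hmap y hy
    · rw [Finset.card_image_of_injective _ (Equiv.injective _)]
  intro h
  have hr : (i ∈ C) ↔ (j ∈ C) := by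
    refine rel_of_sameCycle (r := fun x y => x ∈ C ↔ y ∈ C)
      ⟨fun x => Iff.rfl, fun h => h.symm, fun h h' => h.trans h'⟩ (fun x => ?_) h
    constructor
    · exact hmap x
    · intro hx
      rw [← himg] at hx
      obtain ⟨y, hy, hxy⟩ := Finset.mem_image.1 hx
      rwa [Equiv.injective _ hxy] at hy
  have hj : j ∈ C := (memC j).2 ⟨a, ⟨ha, le_rfl⟩, haj⟩
  obtain ⟨k, ⟨hk1, hk2⟩, hk⟩ := (memC i).1 (hr.2 hj)
  exact hni k hk1 hk2 hk

end general

/-- `R` contains exactly one element of each cycle of `π` meeting `{0, …, n - 1}`. -/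
structure Tr (n : ℕ) (π : Perm ℕ) (R : Finset ℕ) : Prop where
  lt : ∀ r ∈ R, r < n
  ex : ∀ j, j < n → ∃ r ∈ R, π.SameCycle j r
  un : ∀ r ∈ R, ∀ s ∈ R, π.SameCycle r s → r = s

theorem exists_Tr (n : ℕ) (π : Perm ℕ) : ∃ R, Tr n π R := by
  classical
  refine ⟨(Finset.range n).filter (fun j => ∀ i, i < j → ¬ π.SameCycle i j), ?_, ?_, ?_⟩
  · intro r hr
    exact Finset.mem_range.1 (Finset.mem_filter.1 hr).1
  · intro j hj
    have hex : ∃ i, π.SameCycle i j := ⟨j, SameCycle.refl _ _⟩
    refine ⟨Nat.find hex, ?_, (Nat.find_spec hex).symm⟩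
    have hle : Nat.find hex ≤ j := Nat.find_min' hex (SameCycle.refl _ _)
    rw [Finset.mem_filter, Finset.mem_range]
    refine ⟨by omega, fun i hi h => Nat.find_min hex hi (h.trans (Nat.find_spec hex))⟩
  · intro r hr s hs h
    have h1 := (Finset.mem_filter.1 hr).2
    have h2 := (Finset.mem_filter.1 hs).2
    rcases lt_trichotomy r s with h' | h' | h'
    · exact absurd h (h2 r h')
    · exact h'
    · exact absurd h.symm (h1 s h')

theorem Tr.card_le {n : ℕ} {π : Perm ℕ} {R S : Finset ℕ} (hR : Tr n π R) (hS : Tr n π S) :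
    R.card ≤ S.card := by
  classical
  choose f hf hf' using fun j : {j // j < n} => hS.ex j.1 j.2
  refine Finset.card_le_card_of_injOn (fun r => if h : r < n then f ⟨r, h⟩ else 0) ?_ ?_
  · intro r hr
    have h := hR.lt r hr
    simp only [h, dif_pos]
    exact hf _
  · intro r hr s hs h
    have h1 := hR.lt r hr
    have h2 := hR.lt s hs
    simp only [h1, h2, dif_pos] at h
    apply hR.un r hr s hs
    have a := hf' ⟨r, h1⟩
    have b := hf' ⟨s, h2⟩
    rw [h] at a
    exact a.trans b.symm

theorem Tr.card_eq {n : ℕ} {π : Perm ℕ} {R S : Finset ℕ} (hR : Tr n π R) (hS : Tr n π S) :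
    R.card = S.card := le_antisymm (hR.card_le hS) (hS.card_le hR)

theorem Tr.exchange {n : ℕ} {π : Perm ℕ} {R : Finset ℕ} (hR : Tr n π R) {r i : ℕ} (hr : r ∈ R)
    (hi : i < n) (hri : π.SameCycle r i) : Tr n π (insert i (R.erase r)) := by
  classical
  refine ⟨?_, ?_, ?_⟩
  · intro s hs
    rcases Finset.mem_insert.1 hs with rfl | hs
    · exact hi
    · exact hR.lt s (Finset.mem_of_mem_erase hs)
  · intro j hj
    obtain ⟨s, hs, hjs⟩ := hR.ex j hj
    by_cases h : s = r
    · subst h
      exact ⟨i, Finset.mem_insert_self _ _, hjs.trans hri⟩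
    · exact ⟨s, Finset.mem_insert_of_mem (Finset.mem_erase.2 ⟨h, hs⟩), hjs⟩
  · intro s hs t ht hst
    rcases Finset.mem_insert.1 hs with h1 | h1 <;> rcases Finset.mem_insert.1 ht with h2 | h2
    · rw [h1, h2]
    · rw [h1] at hst
      have := hR.un r hr t (Finset.mem_of_mem_erase h2) (hri.trans hst)
      exact absurd this.symm (Finset.ne_of_mem_erase h2)
    · rw [h2] at hst
      have := hR.un r hr s (Finset.mem_of_mem_erase h1) (hri.trans hst.symm)
      exact absurd this.symm (Finset.ne_of_mem_erase h1)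
    · exact hR.un s (Finset.mem_of_mem_erase h1) t (Finset.mem_of_mem_erase h2) hst

theorem Tr.merge {n : ℕ} {π : Perm ℕ} (hπ : Per π) {R : Finset ℕ} (hR : Tr n π R) {i j : ℕ}
    (hij : i ≠ j) (hi : i ∈ R) (hj : j ∈ R) : Tr n (π * swap i j) (R.erase j) := by
  have hn : ¬ π.SameCycle i j := fun h => hij (hR.un i hi j hj h)
  refine ⟨?_, ?_, ?_⟩
  · intro s hs
    exact hR.lt s (Finset.mem_of_mem_erase hs)
  · intro k hk
    obtain ⟨s, hs, hks⟩ := hR.ex k hk
    by_cases h : s = j
    · subst h
      refine ⟨i, Finset.mem_erase.2 ⟨hij, hi⟩, ?_⟩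
      rw [merge_iff hπ hn]
      right
      exact ⟨Or.inr hks, Or.inl (SameCycle.refl _ _)⟩
    · refine ⟨s, Finset.mem_erase.2 ⟨h, hs⟩, ?_⟩
      rw [merge_iff hπ hn]
      exact Or.inl hks
  · intro s hs t ht hst
    rw [merge_iff hπ hn] at hst
    obtain ⟨hsj, hs⟩ := Finset.mem_erase.1 hs
    obtain ⟨htj, ht⟩ := Finset.mem_erase.1 ht
    rcases hst with h | ⟨h1, h2⟩
    · exact hR.un s hs t ht h
    · have a : s = i := by
        rcases h1 with h | h
        · exact hR.un s hs i hi h
        · exact absurd (hR.un s hs j hj h) hsj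
      have b : t = i := by
        rcases h2 with h | h
        · exact hR.un t ht i hi h
        · exact absurd (hR.un t ht j hj h) htj
      rw [a, b]

theorem Per.mul_swap {α : Type*} [DecidableEq α] {π : Perm α} (hπ : Per π) (i j : α) :
    Per (π * swap i j) := by
  classical
  -- orbits of `π * swap i j` are contained in the union of an orbit and the orbits of `i`, `j`
  intro x
  have hfin : ∀ y, (Set.range (fun k : ℕ => (π ^ k) y)).Finite := by
    intro y
    obtain ⟨m, hm, hmy⟩ := hπ y
    refine (Set.finite_lt_nat m).image (fun k => (π ^ k) y) |>.subset ?_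
    rintro _ ⟨k, rfl⟩
    refine ⟨k % m, Nat.mod_lt _ hm, ?_⟩
    have : (π ^ k) y = (π ^ (k % m)) ((π ^ (m * (k / m))) y) := by
      rw [← mul_apply, ← pow_add, Nat.mod_add_div]
    have h2 : (π ^ (m * (k / m))) y = y := by
      rw [pow_mul]; exact pow_apply_eq_self_of_apply_eq_self hmy _
    rw [h2] at this
    exact this.symm
  set S : Set α := (Set.range (fun k : ℕ => (π ^ k) x)) ∪ (Set.range (fun k : ℕ => (π ^ k) i)) ∪
    (Set.range (fun k : ℕ => (π ^ k) j)) with hS
  have hSfin : S.Finite := ((hfin x).union (hfin i)).union (hfin j)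
  have hclosed : ∀ y ∈ S, π y ∈ S := by
    rintro y ((⟨k, rfl⟩ | ⟨k, rfl⟩) | ⟨k, rfl⟩)
    · left; left; exact ⟨k + 1, by simp only [pow_succ', mul_apply]⟩
    · left; right; exact ⟨k + 1, by simp only [pow_succ', mul_apply]⟩
    · right; exact ⟨k + 1, by simp only [pow_succ', mul_apply]⟩
  have hi : i ∈ S := by left; right; exact ⟨0, rfl⟩
  have hj : j ∈ S := by right; exact ⟨0, rfl⟩
  have hclosed' : ∀ y ∈ S, (π * swap i j) y ∈ S := by
    intro y hy
    rw [mul_apply]
    apply hclosed
    by_cases h1 : y = i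
    · rw [h1, swap_apply_left]; exact hj
    · by_cases h2 : y = j
      · rw [h2, swap_apply_right]; exact hi
      · rwa [swap_apply_of_ne_of_ne h1 h2]
  have hx : x ∈ S := by left; left; exact ⟨0, rfl⟩
  have hmem : ∀ k : ℕ, ((π * swap i j) ^ k) x ∈ S := by
    intro k
    induction k with
    | zero => exact hx
    | succ k ih => rw [pow_succ', mul_apply]; exact hclosed' _ ih
  have hninj : ¬ Function.Injective (fun k : ℕ => (⟨((π * swap i j) ^ k) x, hmem k⟩ : S)) := by
    have : Finite S := hSfin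
    intro hinj
    exact not_injective_infinite_finite _ hinj
  rw [Function.not_injective_iff] at hninj
  obtain ⟨a, b, hab, hne⟩ := hninj
  have hab' : ((π * swap i j) ^ a) x = ((π * swap i j) ^ b) x := congrArg Subtype.val hab
  wlog hlt : a < b generalizing a b
  · exact this b a hab.symm (Ne.symm hne) hab'.symm (by omega)
  refine ⟨b - a, by omega, ?_⟩
  have : b = a + (b - a) := by omega
  rw [this, pow_add, mul_apply] at hab'
  exact (Equiv.injective _ hab').symm

theorem Tr.split {n : ℕ} {π : Perm ℕ} (hπ : Per π) {R : Finset ℕ} (hR : Tr n π R) {i j : ℕ}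
    (hij : i ≠ j) (hi : i ∈ R) (hj : j < n) (hs : π.SameCycle i j) :
    Tr n (π * swap i j) (insert j R) := by
  have hn : ¬ (π * swap i j).SameCycle i j := not_sameCycle_of hπ hij hs
  have key : ∀ x y, π.SameCycle x y ↔ (π * swap i j).SameCycle x y ∨
      (((π * swap i j).SameCycle x i ∨ (π * swap i j).SameCycle x j) ∧
        ((π * swap i j).SameCycle y i ∨ (π * swap i j).SameCycle y j)) := fun x y => by
    have := merge_iff (hπ.mul_swap i j) hn x y
    rw [mul_assoc, swap_mul_self, mul_one] at this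
    exact this
  refine ⟨?_, ?_, ?_⟩
  · intro s hs'
    rcases Finset.mem_insert.1 hs' with rfl | hs'
    · exact hj
    · exact hR.lt s hs'
  · intro k hk
    obtain ⟨s, hs', hks⟩ := hR.ex k hk
    rcases (key k s).1 hks with h | ⟨h1, h2⟩
    · exact ⟨s, Finset.mem_insert_of_mem hs', h⟩
    · rcases h1 with h | h
      · exact ⟨i, Finset.mem_insert_of_mem hi, h⟩
      · exact ⟨j, Finset.mem_insert_self _ _, h⟩
  · have aux : ∀ t ∈ R, (π * swap i j).SameCycle j t → j = t := by
      intro t ht h
      have h1 : π.SameCycle j t := (key j t).2 (Or.inl h)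
      have h2 : i = t := hR.un i hi t ht (hs.trans h1)
      subst h2
      exact absurd h.symm hn
    intro s hs' t ht hst
    rcases Finset.mem_insert.1 hs' with h1 | h1 <;> rcases Finset.mem_insert.1 ht with h2 | h2
    · rw [h1, h2]
    · rw [h1] at hst ⊢
      exact aux t h2 hst
    · rw [h2] at hst ⊢
      exact (aux s h1 hst.symm).symm
    · exact hR.un s h1 t h2 ((key s t).2 (Or.inl hst))

end Pool.Agent.Lib.Pe17fed
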