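import Mathlib
import Pool.Agent.Lib.Pe17fed.Braid
import Pool.Agent.Lib.Pe17fed.Cycles

/-! Underlying permutation, shifts, block crossings and cables of braids. -/

namespace Pool.Agent.Lib.Pe17fed

open Equiv Equiv.Perm

/-! ### Generalities -/

theorem Br_closure : Subgroup.closure (Set.range sg) = ⊤ :=
  PresentedGroup.closure_range_of _

theorem Br_induction {P : Br → Prop} (h1 : P 1) (hg : ∀ i, P (sg i))
    (hm : ∀ a b, P a → P b → P (a * b)) (hi : ∀ a, P a → P a⁻¹) (b : Br) : P b := by
  have hb : b ∈ Subgroup.closure (Set.range sg) := by rw [Br_closure]; trivial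
  induction hb using Subgroup.closure_induction with
  | mem x hx => obtain ⟨i, rfl⟩ := hx; exact hg i
  | one => exact h1
  | mul x y _ _ hx hy => exact hm x y hx hy
  | inv x _ hx => exact hi x hx

theorem BB_induction {n : ℕ} {P : Br → Prop} (h1 : P 1) (hg : ∀ i, i + 1 < n → P (sg i))
    (hm : ∀ a b, P a → P b → P (a * b)) (hi : ∀ a, P a → P a⁻¹) {b : Br} (hb : b ∈ BB n) :
    P b := by
  induction hb using Subgroup.closure_induction with
  | mem x hx => obtain ⟨i, hin, rfl⟩ := hx; exact hg i hin
  | one => exact h1
  | mul x y _ _ hx hy => exact hm x y hx hy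
  | inv x _ hx => exact hi x hx

/-! ### Shifts -/

/-- The shift `σ i ↦ σ (i + k)`. -/
def sh (k : ℕ) : Br →* Br :=
  lift (fun i => sg (i + k)) (fun i j h => sg_comm (by omega))
    (fun i => by rw [show i + 1 + k = i + k + 1 by omega]; exact sg_braid _)

@[simp] theorem sh_sg (k i : ℕ) : sh k (sg i) = sg (i + k) := lift_sg _ _ _ _

theorem sh_sh (k l : ℕ) (x : Br) : sh k (sh l x) = sh (l + k) x := by
  refine Br_induction (P := fun x => sh k (sh l x) = sh (l + k) x) (by simp) ?_ ?_ ?_ x
  · intro i
    simp only [sh_sg, add_assoc]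
  · intro a b ha hb
    simp only [map_mul, ha, hb]
  · intro a ha
    simp only [map_inv, ha]

theorem sh_zero (x : Br) : sh 0 x = x := by
  refine Br_induction (P := fun x => sh 0 x = x) (by simp) ?_ ?_ ?_ x
  · intro i
    simp
  · intro a b ha hb
    simp only [map_mul, ha, hb]
  · intro a ha
    simp only [map_inv, ha]

theorem sh_mem {n k : ℕ} {x : Br} (hx : x ∈ BB n) : sh k x ∈ BB (n + k) := by
  refine BB_induction (P := fun x => sh k x ∈ BB (n + k)) ?_ ?_ ?_ ?_ hx
  · rw [map_one]; exact Subgroup.one_mem _
  · intro i hi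
    rw [sh_sg]; exact sg_mem (by omega)
  · intro a b ha hb
    rw [map_mul]; exact Subgroup.mul_mem _ ha hb
  · intro a ha
    rw [map_inv]; exact Subgroup.inv_mem _ ha

/-- Braids on disjoint sets of strands commute. -/
theorem comm_sh {m : ℕ} {x : Br} (hx : x ∈ BB m) (y : Br) : x * sh m y = sh m y * x := by
  have key : ∀ y, Commute x (sh m y) := by
    refine BB_induction (P := fun x => ∀ y, Commute x (sh m y)) ?_ ?_ ?_ ?_ hx
    · intro y; exact Commute.one_left _
    · intro i hi y
      refine Br_induction (P := fun y => Commute (sg i) (sh m y)) ?_ ?_ ?_ ?_ y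
      · rw [map_one]; exact Commute.one_right _
      · intro j
        rw [sh_sg]
        exact sg_comm (by omega)
      · intro a b ha hb
        rw [map_mul]; exact ha.mul_right hb
      · intro a ha
        rw [map_inv]; exact ha.inv_right
    · intro a b ha hb y
      exact (ha y).mul_left (hb y)
    · intro a ha y
      exact (ha y).inv_left
  exact key y

theorem comm_sh' {m k : ℕ} (h : m ≤ k) {x : Br} (hx : x ∈ BB m) (y : Br) :
    x * sh k y = sh k y * x := by
  have : sh k y = sh m (sh (k - m) y) := by rw [sh_sh]; congr 2; omega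
  rw [this]; exact comm_sh hx _

/-! ### Block crossings -/

/-- `c m = σ 0 σ 1 ⋯ σ (m - 1)`. -/
def c : ℕ → Br
  | 0 => 1
  | m + 1 => c m * sg m

theorem c_mem (m : ℕ) : c m ∈ BB (m + 1) := by
  induction m with
  | zero => exact Subgroup.one_mem _
  | succ m ih => exact Subgroup.mul_mem _ (BB_mono (by omega) ih) (sg_mem (by omega))

theorem c_mul_sg {m i : ℕ} (h : i + 1 < m) : c m * sg i = sg (i + 1) * c m := by
  induction m with
  | zero => omega
  | succ m ih =>
    rcases Nat.lt_or_ge (i + 1) m with h1 | h1
    · have e : c (m + 1) * sg i = c m * sg i * sg m := by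
        show c m * sg m * sg i = _
        rw [mul_assoc, ← sg_comm (show i + 2 ≤ m by omega), mul_assoc]
      rw [e, ih h1]
      show sg (i + 1) * c m * sg m = sg (i + 1) * (c m * sg m)
      rw [mul_assoc]
    · have hm : m = i + 1 := by omega
      subst hm
      show c i * sg i * sg (i + 1) * sg i = sg (i + 1) * (c i * sg i * sg (i + 1))
      have h2 : c i * sg (i + 1) = sg (i + 1) * c i := by
        have := comm_sh (c_mem i) (sg 0)
        simpa using this
      calc c i * sg i * sg (i + 1) * sg i = c i * (sg i * sg (i + 1) * sg i) := by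
            simp only [mul_assoc]
        _ = c i * (sg (i + 1) * sg i * sg (i + 1)) := by rw [sg_braid]
        _ = (c i * sg (i + 1)) * sg i * sg (i + 1) := by simp only [mul_assoc]
        _ = sg (i + 1) * (c i * sg i * sg (i + 1)) := by rw [h2]; simp only [mul_assoc]

theorem c_mul {m : ℕ} {u : Br} (hu : u ∈ BB m) : c m * u = sh 1 u * c m := by
  refine BB_induction (P := fun u => c m * u = sh 1 u * c m) ?_ ?_ ?_ ?_ hu
  · simp
  · intro i hi
    rw [sh_sg]; exact c_mul_sg hi
  · intro a b ha hb
    rw [map_mul, ← mul_assoc, ha, mul_assoc, hb, mul_assoc]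
  · intro a ha
    rw [map_inv, eq_inv_mul_iff_mul_eq, ← mul_assoc, ← ha]; group

theorem c_add (m k : ℕ) : c (m + k) = c m * sh m (c k) := by
  induction k with
  | zero => simp [c]
  | succ k ih =>
    show c (m + k) * sg (m + k) = c m * sh m (c k * sg k)
    rw [ih, map_mul, sh_sg, mul_assoc, show k + m = m + k by omega]

theorem cc (m : ℕ) : sh 1 (c m) * c m * sg m = sg 0 * sh 1 (c m) * c m := by
  induction m with
  | zero => simp [c]
  | succ m ih =>
    have h2 : c m * sg (m + 1) = sg (m + 1) * c m := by
      have := comm_sh (c_mem m) (sg 0)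
      simpa using this
    show sh 1 (c m * sg m) * (c m * sg m) * sg (m + 1) =
      sg 0 * sh 1 (c m * sg m) * (c m * sg m)
    rw [map_mul, sh_sg]
    calc sh 1 (c m) * sg (m + 1) * (c m * sg m) * sg (m + 1)
        = sh 1 (c m) * (sg (m + 1) * c m) * sg m * sg (m + 1) := by simp only [mul_assoc]
      _ = sh 1 (c m) * c m * (sg (m + 1) * sg m * sg (m + 1)) := by
          rw [← h2]; simp only [mul_assoc]
      _ = (sh 1 (c m) * c m * sg m) * sg (m + 1) * sg m := by
          rw [← sg_braid]; simp only [mul_assoc]
      _ = sg 0 * sh 1 (c m) * (c m * sg (m + 1)) * sg m := by rw [ih]; simp only [mul_assoc]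
      _ = sg 0 * (sh 1 (c m) * sg (m + 1)) * (c m * sg m) := by rw [h2]; simp only [mul_assoc]

/-- The positive crossing of a block of `m` strands with a block of `n` strands. -/
def X (m : ℕ) : ℕ → Br
  | 0 => 1
  | n + 1 => sh n (c m) * X m n

theorem X_mem (m n : ℕ) : X m n ∈ BB (m + n) := by
  induction n with
  | zero => exact Subgroup.one_mem _
  | succ n ih =>
    exact Subgroup.mul_mem _ (BB_mono (by omega) (sh_mem (c_mem m))) (BB_mono (by omega) ih)

theorem X_mul {m n : ℕ} {u : Br} (hu : u ∈ BB m) : X m n * u = sh n u * X m n := by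
  induction n with
  | zero => simp [X, sh_zero]
  | succ n ih =>
    show sh n (c m) * X m n * u = sh (n + 1) u * (sh n (c m) * X m n)
    rw [mul_assoc, ih, ← mul_assoc, ← map_mul, c_mul hu, map_mul, sh_sh, mul_assoc,
      show 1 + n = n + 1 by omega]

theorem X_mul_sh_sg {m n j : ℕ} (hj : j + 1 < n) : X m n * sg (j + m) = sg j * X m n := by
  induction n with
  | zero => omega
  | succ n ih =>
    rcases Nat.lt_or_ge (j + 1) n with h | h
    · show sh n (c m) * X m n * sg (j + m) = sg j * (sh n (c m) * X m n)
      rw [mul_assoc, ih h, ← mul_assoc, ← comm_sh' le_rfl (sg_mem h), mul_assoc]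
    · have hn : n = j + 1 := by omega
      subst hn
      show sh (j + 1) (c m) * (sh j (c m) * X m j) * sg (j + m) =
        sg j * (sh (j + 1) (c m) * (sh j (c m) * X m j))
      have h1 : X m j * sg (j + m) = sg (j + m) * X m j := by
        have := comm_sh (X_mem m j) (sg 0)
        simpa [add_comm] using this
      have h2 := congrArg (sh j) (cc m)
      simp only [map_mul, sh_sh, sh_sg, Nat.zero_add] at h2
      rw [show 1 + j = j + 1 by omega, show m + j = j + m by omega] at h2
      calc sh (j + 1) (c m) * (sh j (c m) * X m j) * sg (j + m)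
          = sh (j + 1) (c m) * sh j (c m) * (X m j * sg (j + m)) := by simp only [mul_assoc]
        _ = (sh (j + 1) (c m) * sh j (c m) * sg (j + m)) * X m j := by
            rw [h1]; simp only [mul_assoc]
        _ = _ := by rw [h2]; simp only [mul_assoc]

theorem X_mul_sh {m n : ℕ} {v : Br} (hv : v ∈ BB n) : X m n * sh m v = v * X m n := by
  refine BB_induction (P := fun v => X m n * sh m v = v * X m n) ?_ ?_ ?_ ?_ hv
  · simp
  · intro i hi
    rw [sh_sg]; exact X_mul_sh_sg hi
  · intro a b ha hb
    rw [map_mul, ← mul_assoc, ha, mul_assoc, hb, mul_assoc]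
  · intro a ha
    rw [map_inv, eq_inv_mul_iff_mul_eq, ← mul_assoc, ← ha]; group

theorem X_add (m k n : ℕ) : X (m + k) n = X m n * sh m (X k n) := by
  induction n with
  | zero => simp [X]
  | succ n ih =>
    show sh n (c (m + k)) * X (m + k) n = sh n (c m) * X m n * sh m (sh n (c k) * X k n)
    rw [ih, c_add, map_mul, sh_sh, map_mul, sh_sh]
    have h := comm_sh (X_mem m n) (c k)
    calc sh n (c m) * sh (m + n) (c k) * (X m n * sh m (X k n))
        = sh n (c m) * (sh (m + n) (c k) * X m n) * sh m (X k n) := by simp only [mul_assoc]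
      _ = sh n (c m) * X m n * (sh (m + n) (c k) * sh m (X k n)) := by
          rw [← h]; simp only [mul_assoc]
      _ = _ := by rw [show m + n = n + m by omega]

/-! ### The cable -/

/-- The blackboard parallel: every strand is replaced by `p` parallel strands. -/
def cab (p : ℕ) : Br →* Br :=
  lift (fun i => sh (i * p) (X p p))
    (by
      intro i j h
      refine comm_sh' (m := p + p + i * p) ?_ (sh_mem (X_mem p p)) _
      calc p + p + i * p = (i + 2) * p := by ring
        _ ≤ j * p := Nat.mul_le_mul_right _ h)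
    (by
      intro i
      have h1 : X p p * sh p (X p p) * X p p = sh p (X p p) * (X p p * sh p (X p p)) := by
        have h := X_mul (m := p + p) (n := p) (X_mem p p)
        rwa [X_add] at h
      have h2 := congrArg (sh (i * p)) h1
      simp only [map_mul, sh_sh] at h2
      rw [show p + i * p = (i + 1) * p by ring, ← mul_assoc] at h2
      exact h2)

theorem cab_sg (p i : ℕ) : cab p (sg i) = sh (i * p) (X p p) := lift_sg _ _ _ _

theorem cab_mem {p n : ℕ} {b : Br} (hb : b ∈ BB n) : cab p b ∈ BB (n * p) := by
  refine BB_induction (P := fun b => cab p b ∈ BB (n * p)) ?_ ?_ ?_ ?_ hb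
  · rw [map_one]; exact Subgroup.one_mem _
  · intro i hi
    rw [cab_sg]
    refine BB_mono ?_ (sh_mem (X_mem p p))
    calc p + p + i * p = (i + 2) * p := by ring
      _ ≤ n * p := Nat.mul_le_mul_right _ (by omega)
  · intro a b ha hb
    rw [map_mul]; exact Subgroup.mul_mem _ ha hb
  · intro a ha
    rw [map_inv]; exact Subgroup.inv_mem _ ha

/-- The underlying permutation. -/
def perm : Br →* Perm ℕ :=
  lift (fun i => swap i (i + 1))
    (by
      intro i j h
      ext x
      simp only [Perm.coe_mul, Function.comp_apply, swap_apply_def]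
      split_ifs <;> omega)
    (by
      intro i
      ext x
      simp only [Perm.coe_mul, Function.comp_apply, swap_apply_def]
      split_ifs <;> omega)

@[simp] theorem perm_sg (i : ℕ) : perm (sg i) = swap i (i + 1) := lift_sg _ _ _ _

theorem perm_fix {n : ℕ} {b : Br} (hb : b ∈ BB n) : ∀ {x : ℕ}, n ≤ x → perm b x = x := by
  refine BB_induction (P := fun b => ∀ {x : ℕ}, n ≤ x → perm b x = x) ?_ ?_ ?_ ?_ hb
  · intro x _; simp
  · intro i hi x hx
    rw [perm_sg, swap_apply_of_ne_of_ne (by omega) (by omega)]
  · intro a b ha hb x hx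
    rw [map_mul, Perm.mul_apply, hb hx, ha hx]
  · intro a ha x hx
    rw [map_inv, Perm.inv_eq_iff_eq, ha hx]

theorem perm_lt {n : ℕ} {b : Br} (hb : b ∈ BB n) {x : ℕ} (hx : x < n) : perm b x < n := by
  by_contra h
  have h1 := perm_fix hb (not_lt.1 h)
  have := (perm b).injective h1
  omega

theorem perm_sh_add (k : ℕ) (b : Br) (x : ℕ) : perm (sh k b) (x + k) = perm b x + k := by
  refine Br_induction (P := fun b => ∀ x, perm (sh k b) (x + k) = perm b x + k)
    ?_ ?_ ?_ ?_ b x
  · intro x; simp
  · intro i x
    rw [sh_sg, perm_sg, perm_sg]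
    simp only [swap_apply_def]
    split_ifs <;> omega
  · intro a b ha hb x
    rw [map_mul, map_mul, Perm.mul_apply, hb, ha, map_mul, Perm.mul_apply]
  · intro a ha x
    rw [map_inv, map_inv, Perm.inv_eq_iff_eq, ha, ← Perm.mul_apply, map_inv, mul_inv_cancel,
      Perm.one_apply]

theorem perm_sh_lt {k : ℕ} (b : Br) {x : ℕ} (hx : x < k) : perm (sh k b) x = x := by
  refine Br_induction (P := fun b => perm (sh k b) x = x) ?_ ?_ ?_ ?_ b
  · simp
  · intro i
    rw [sh_sg, perm_sg, swap_apply_of_ne_of_ne (by omega) (by omega)]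
  · intro a b ha hb
    rw [map_mul, map_mul, Perm.mul_apply, hb, ha]
  · intro a ha
    rw [map_inv, map_inv, Perm.inv_eq_iff_eq, ha]

theorem perm_c_lt {m x : ℕ} (hx : x < m) : perm (c m) x = x + 1 := by
  induction m with
  | zero => omega
  | succ m ih =>
    show perm (c m * sg m) x = x + 1
    rw [map_mul, Perm.mul_apply, perm_sg]
    rcases Nat.lt_or_ge x m with h | h
    · rw [swap_apply_of_ne_of_ne (by omega) (by omega), ih h]
    · have : x = m := by omega
      subst this
      rw [swap_apply_left, perm_fix (c_mem x) (by omega)]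

theorem perm_c_self (m : ℕ) : perm (c m) m = 0 := by
  induction m with
  | zero => simp [c]
  | succ m ih =>
    show perm (c m * sg m) (m + 1) = 0
    rw [map_mul, Perm.mul_apply, perm_sg, swap_apply_right, ih]

theorem perm_X_lt {m n x : ℕ} (hx : x < m) : perm (X m n) x = x + n := by
  induction n with
  | zero => simp [X]
  | succ n ih =>
    show perm (sh n (c m) * X m n) x = x + (n + 1)
    rw [map_mul, Perm.mul_apply, ih, perm_sh_add, perm_c_lt hx]
    omega

theorem perm_X_add {m n x : ℕ} (hx : x < n) : perm (X m n) (m + x) = x := by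
  induction n with
  | zero => omega
  | succ n ih =>
    show perm (sh n (c m) * X m n) (m + x) = x
    rw [map_mul, Perm.mul_apply]
    rcases Nat.lt_or_ge x n with h | h
    · rw [ih h, perm_sh_lt _ h]
    · have : x = n := by omega
      subst this
      rw [perm_fix (X_mem m x) le_rfl, perm_sh_add, perm_c_self]
      omega

theorem perm_cab {p : ℕ} (b : Br) (j : ℕ) {k : ℕ} (hk : k < p) :
    perm (cab p b) (j * p + k) = perm b j * p + k := by
  refine Br_induction (P := fun b => ∀ j, perm (cab p b) (j * p + k) = perm b j * p + k)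
    ?_ ?_ ?_ ?_ b j
  · intro j; simp
  · intro i j
    rw [cab_sg, perm_sg]
    rcases lt_trichotomy j i with h | h | h
    · rw [perm_sh_lt, swap_apply_of_ne_of_ne (by omega) (by omega)]
      calc j * p + k < j * p + p := by omega
        _ = (j + 1) * p := by ring
        _ ≤ i * p := Nat.mul_le_mul_right _ h
    · subst h
      rw [add_comm, perm_sh_add, perm_X_lt hk, swap_apply_left]; ring
    · rcases Nat.lt_or_ge (i + 1) j with h' | h'
      · obtain ⟨d, rfl⟩ : ∃ d, j = i + 2 + d := ⟨j - (i + 2), by omega⟩
        rw [swap_apply_of_ne_of_ne (by omega) (by omega)]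
        have e : (i + 2 + d) * p + k = (p + p + (d * p + k)) + i * p := by ring
        rw [e, perm_sh_add, perm_fix (X_mem p p) (by omega)]
      · have : j = i + 1 := by omega
        subst this
        have e : (i + 1) * p + k = (p + k) + i * p := by ring
        rw [e, perm_sh_add, perm_X_add hk, swap_apply_right]; ring
  · intro a b ha hb j
    rw [map_mul, map_mul, Perm.mul_apply, hb, ha, map_mul, Perm.mul_apply]
  · intro a ha j
    rw [map_inv, map_inv, Perm.inv_eq_iff_eq, ha, ← Perm.mul_apply, map_inv, mul_inv_cancel,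
      Perm.one_apply]

/-- Sliding a braid in a block through a cable. -/
theorem cab_slide {p : ℕ} (b : Br) (j : ℕ) {u : Br} (hu : u ∈ BB p) :
    cab p b * sh (j * p) u = sh (perm b j * p) u * cab p b := by
  refine Br_induction (P := fun b => ∀ j, cab p b * sh (j * p) u = sh (perm b j * p) u * cab p b)
    ?_ ?_ ?_ ?_ b j
  · intro j; simp
  · intro i j
    rw [cab_sg, perm_sg]
    rcases lt_trichotomy j i with h | h | h
    · rw [swap_apply_of_ne_of_ne (by omega) (by omega)]
      refine (comm_sh' (m := p + j * p) ?_ (sh_mem hu) _).symm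
      calc p + j * p = (j + 1) * p := by ring
        _ ≤ i * p := Nat.mul_le_mul_right _ h
    · subst h
      rw [← map_mul, X_mul hu, map_mul, sh_sh, swap_apply_left, show p + j * p = (j + 1) * p by ring]
    · rcases Nat.lt_or_ge (i + 1) j with h' | h'
      · rw [swap_apply_of_ne_of_ne (by omega) (by omega)]
        refine comm_sh' (m := p + p + i * p) ?_ (sh_mem (X_mem p p)) _
        calc p + p + i * p = (i + 2) * p := by ring
          _ ≤ j * p := Nat.mul_le_mul_right _ (by omega)
      · have : j = i + 1 := by omega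
        subst this
        rw [swap_apply_right]
        have e : sh ((i + 1) * p) u = sh (i * p) (sh p u) := by
          rw [sh_sh]; congr 2; ring
        rw [e, ← map_mul, X_mul_sh hu, map_mul]
  · intro a b ha hb j
    rw [map_mul, mul_assoc, hb, ← mul_assoc, ha, map_mul, Perm.mul_apply, mul_assoc]
  · intro a ha j
    have h := ha ((perm a)⁻¹ j)
    rw [← Perm.mul_apply, mul_inv_cancel, Perm.one_apply] at h
    rw [map_inv, map_inv, inv_mul_eq_iff_eq_mul, ← mul_assoc, h, mul_assoc, mul_inv_cancel, mul_one]

theorem per_perm {n : ℕ} {b : Br} (hb : b ∈ BB n) : Per (perm b) := by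
  intro x
  rcases Nat.lt_or_ge x n with h | h
  · have hmem : ∀ k : ℕ, ((perm b) ^ k) x < n := by
      intro k
      induction k with
      | zero => exact h
      | succ k ih => rw [pow_succ', Perm.mul_apply]; exact perm_lt hb ih
    have hninj : ¬ Function.Injective (fun k : ℕ => (⟨((perm b) ^ k) x, hmem k⟩ : Fin n)) :=
      not_injective_infinite_finite _
    rw [Function.not_injective_iff] at hninj
    obtain ⟨i, j, hij, hne⟩ := hninj
    have hij' : ((perm b) ^ i) x = ((perm b) ^ j) x := congrArg Fin.val hij
    wlog hlt : i < j generalizing i j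
    · exact this j i hij.symm (Ne.symm hne) hij'.symm (by omega)
    refine ⟨j - i, by omega, ?_⟩
    have : j = i + (j - i) := by omega
    rw [this, pow_add, Perm.mul_apply] at hij'
    exact (Equiv.injective _ hij').symm
  · exact ⟨1, one_pos, by rw [pow_one, perm_fix hb h]⟩

end Pool.Agent.Lib.Pe17fed
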