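import Mathlib
import Pool.Agent.Lib.Pe17fed.Cable

/-! The group algebra of the braid group: shifts, elements supported on the first strands,
insertions into blocks, linear extensions of functions on braids. -/

namespace Pool.Agent.Lib.Pe17fed

open Equiv Equiv.Perm

/-- The group algebra of the infinite braid group. -/
abbrev A (k : Type*) [CommRing k] : Type _ := MonoidAlgebra k Br

section

variable {k : Type*} [CommRing k]

/-- A braid, as an element of the group algebra. -/
noncomputable def ob : Br →* A k := MonoidAlgebra.of k Br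

/-- The shift on the group algebra. -/
noncomputable def shA (j : ℕ) : A k →ₐ[k] A k := MonoidAlgebra.mapDomainAlgHom k k (sh j)

@[simp] theorem shA_ob (j : ℕ) (b : Br) : shA (k := k) j (ob b) = ob (sh j b) := by
  simp [shA, ob]

theorem A_induction {P : A k → Prop} (hb : ∀ b, P (ob b))
    (ha : ∀ x y, P x → P y → P (x + y)) (hs : ∀ (r : k) x, P x → P (r • x)) (x : A k) : P x :=
  MonoidAlgebra.induction_on (motive := P) x hb ha hs

theorem shA_shA (i j : ℕ) (x : A k) : shA i (shA j x) = shA (j + i) x := by
  refine A_induction (P := fun x => shA i (shA j x) = shA (j + i) x) ?_ ?_ ?_ x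
  · intro b; simp [sh_sh]
  · intro x y hx hy; simp only [map_add, hx, hy]
  · intro r x hx; simp only [map_smul, hx]

/-- Combinations of braids on the first `n` strands. -/
noncomputable def AB (k : Type*) [CommRing k] (n : ℕ) : Submodule k (A k) :=
  Submodule.span k (ob '' (BB n : Set Br))

theorem ob_mem {n : ℕ} {b : Br} (hb : b ∈ BB n) : ob b ∈ AB k n :=
  Submodule.subset_span ⟨b, hb, rfl⟩

theorem AB_induction {n : ℕ} {P : A k → Prop} (h0 : P 0) (hb : ∀ b ∈ BB n, P (ob b))
    (ha : ∀ x y, P x → P y → P (x + y)) (hs : ∀ (r : k) x, P x → P (r • x)) {x : A k}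
    (hx : x ∈ AB k n) : P x := by
  induction hx using Submodule.span_induction with
  | mem x hx => obtain ⟨b, hb', rfl⟩ := hx; exact hb b hb'
  | zero => exact h0
  | add x y _ _ hx hy => exact ha x y hx hy
  | smul r x _ hx => exact hs r x hx

theorem AB_one (n : ℕ) : (1 : A k) ∈ AB k n := by
  have := ob_mem (k := k) (Subgroup.one_mem (BB n))
  rwa [map_one] at this

theorem AB_mono {m n : ℕ} (h : m ≤ n) : AB k m ≤ AB k n :=
  Submodule.span_mono (Set.image_mono (BB_mono h))

theorem AB_mul {n : ℕ} {x y : A k} (hx : x ∈ AB k n) (hy : y ∈ AB k n) : x * y ∈ AB k n := by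
  refine AB_induction (P := fun x => x * y ∈ AB k n) ?_ ?_ ?_ ?_ hx
  · rw [zero_mul]; exact Submodule.zero_mem _
  · intro b hb
    refine AB_induction (P := fun y => ob b * y ∈ AB k n) ?_ ?_ ?_ ?_ hy
    · rw [mul_zero]; exact Submodule.zero_mem _
    · intro c hc
      rw [← map_mul]; exact ob_mem (Subgroup.mul_mem _ hb hc)
    · intro x y hx hy
      rw [mul_add]; exact Submodule.add_mem _ hx hy
    · intro r x hx
      rw [mul_smul_comm]; exact Submodule.smul_mem _ _ hx
  · intro x z hx hz
    rw [add_mul]; exact Submodule.add_mem _ hx hz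
  · intro r x hx
    rw [smul_mul_assoc]; exact Submodule.smul_mem _ _ hx

theorem shA_mem {n j : ℕ} {x : A k} (hx : x ∈ AB k n) : shA j x ∈ AB k (n + j) := by
  refine AB_induction (P := fun x => shA j x ∈ AB k (n + j)) ?_ ?_ ?_ ?_ hx
  · rw [map_zero]; exact Submodule.zero_mem _
  · intro b hb
    rw [shA_ob]; exact ob_mem (sh_mem hb)
  · intro x y hx hy
    rw [map_add]; exact Submodule.add_mem _ hx hy
  · intro r x hx
    rw [map_smul]; exact Submodule.smul_mem _ _ hx

theorem comm_shA {m j : ℕ} (h : m ≤ j) {x : A k} (hx : x ∈ AB k m) (y : A k) :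
    Commute x (shA j y) := by
  refine AB_induction (P := fun x => Commute x (shA j y)) ?_ ?_ ?_ ?_ hx
  · exact Commute.zero_left _
  · intro b hb
    refine A_induction (P := fun y => Commute (ob b) (shA j y)) ?_ ?_ ?_ y
    · intro c
      rw [shA_ob, Commute, SemiconjBy, ← map_mul, ← map_mul, comm_sh' h hb]
    · intro x y hx hy
      rw [map_add]; exact hx.add_right hy
    · intro r x hx
      rw [map_smul]; exact hx.smul_right r
  · intro x z hx hz; exact hx.add_left hz
  · intro r x hx; exact hx.smul_left r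

theorem comm_blocks {p i j : ℕ} (h : i ≠ j) {x y : A k} (hx : x ∈ AB k p) (hy : y ∈ AB k p) :
    Commute (shA (i * p) x) (shA (j * p) y) := by
  rcases Nat.lt_or_gt_of_ne h with h | h
  · refine comm_shA (m := p + i * p) ?_ (shA_mem hx) y
    calc p + i * p = (i + 1) * p := by ring
      _ ≤ j * p := Nat.mul_le_mul_right _ h
  · refine (comm_shA (m := p + j * p) ?_ (shA_mem hy) x).symm
    calc p + j * p = (j + 1) * p := by ring
      _ ≤ i * p := Nat.mul_le_mul_right _ h

/-- Sliding an element of a block through a cable. -/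
theorem cab_slideA {p : ℕ} (b : Br) (j : ℕ) {x : A k} (hx : x ∈ AB k p) :
    ob (cab p b) * shA (j * p) x = shA (perm b j * p) x * ob (cab p b) := by
  refine AB_induction (P := fun x => ob (cab p b) * shA (j * p) x =
    shA (perm b j * p) x * ob (cab p b)) ?_ ?_ ?_ ?_ hx
  · simp
  · intro c hc
    rw [shA_ob, shA_ob, ← map_mul, ← map_mul, cab_slide b j hc]
  · intro x y hx hy
    rw [map_add, map_add, mul_add, add_mul, hx, hy]
  · intro r x hx
    rw [map_smul, map_smul, mul_smul_comm, smul_mul_assoc, hx]

/-! ### Linear extension of functions on braids -/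

/-- The linear extension of a function on braids. -/
noncomputable def ext {S : Type*} [CommRing S] [Algebra k S] (t : Br → S) : A k →ₗ[k] S :=
  (Finsupp.linearCombination k t) ∘ₗ (MonoidAlgebra.coeffLinearEquiv k).toLinearMap

@[simp] theorem ext_ob {S : Type*} [CommRing S] [Algebra k S] (t : Br → S) (b : Br) :
    ext t (ob b : A k) = t b := by
  simp [ext, ob]

theorem ext_comm {S : Type*} [CommRing S] [Algebra k S] {t : Br → S} {m : ℕ}
    (ht : ∀ g ∈ BB m, ∀ b ∈ BB m, t (g * b) = t (b * g)) {x y : A k} (hx : x ∈ AB k m)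
    (hy : y ∈ AB k m) : ext t (x * y) = ext t (y * x) := by
  refine AB_induction (P := fun x => ext t (x * y) = ext t (y * x)) ?_ ?_ ?_ ?_ hx
  · simp
  · intro b hb
    refine AB_induction (P := fun y => ext t (ob b * y) = ext t (y * ob b)) ?_ ?_ ?_ ?_ hy
    · simp
    · intro c hc
      rw [← map_mul, ← map_mul, ext_ob, ext_ob, ht b hb c hc]
    · intro x y hx hy
      rw [mul_add, add_mul, map_add, map_add, hx, hy]
    · intro r x hx
      rw [mul_smul_comm, smul_mul_assoc, map_smul, map_smul, hx]
  · intro x z hx hz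
    rw [mul_add, add_mul, map_add, map_add, hx, hz]
  · intro r x hx
    rw [mul_smul_comm, smul_mul_assoc, map_smul, map_smul, hx]

end

/-! ### The power sum element -/

/-- `V j m = σ 0 ⋯ σ (j - 1) (σ j)⁻¹ ⋯ (σ (m - 1))⁻¹`. -/
def V (j : ℕ) : ℕ → Br
  | 0 => 1
  | m + 1 => V j m * (if m < j then sg m else (sg m)⁻¹)

theorem V_mem (j m : ℕ) : V j m ∈ BB (m + 1) := by
  induction m with
  | zero => exact Subgroup.one_mem _
  | succ m ih =>
    refine Subgroup.mul_mem _ (BB_mono (by omega) ih) ?_
    split_ifs
    · exact sg_mem (by omega)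
    · exact Subgroup.inv_mem _ (sg_mem (by omega))

theorem perm_V (j m : ℕ) : perm (V j m) = perm (c m) := by
  induction m with
  | zero => rfl
  | succ m ih =>
    show perm (V j m * (if m < j then sg m else (sg m)⁻¹)) = perm (c m * sg m)
    rw [map_mul, map_mul, ih]
    split_ifs
    · rfl
    · rw [map_inv, perm_sg, swap_inv]

section

variable {k : Type*} [CommRing k]

/-- `[p]` times the power sum: the sum of the `p` braids `V j (p - 1)`. -/
noncomputable def xp (k : Type*) [CommRing k] (p : ℕ) : A k :=
  ∑ j ∈ Finset.range p, ob (V j (p - 1))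

theorem xp_mem {p : ℕ} (hp : 0 < p) : xp k p ∈ AB k p := by
  refine Submodule.sum_mem _ (fun j _ => ob_mem ?_)
  have := V_mem j (p - 1)
  rwa [Nat.sub_add_cancel hp] at this

/-! ### Insertions into blocks -/

/-- The product over the blocks `r < n` of `w r`, placed in the block `r`. -/
noncomputable def DG (p : ℕ) (w : ℕ → A k) : ℕ → A k
  | 0 => 1
  | n + 1 => DG p w n * shA (n * p) (w n)

theorem DG_mem {p : ℕ} {w : ℕ → A k} (hw : ∀ r, w r ∈ AB k p) (n : ℕ) :
    DG p w n ∈ AB k (n * p) := by
  induction n with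
  | zero => exact AB_one _
  | succ n ih =>
    refine AB_mul (AB_mono (Nat.mul_le_mul_right _ (Nat.le_succ n)) ih) ?_
    exact AB_mono (by rw [Nat.succ_mul]; omega) (shA_mem (hw n))

theorem DG_congr {p : ℕ} {w w' : ℕ → A k} {n : ℕ} (h : ∀ r < n, w r = w' r) :
    DG p w n = DG p w' n := by
  induction n with
  | zero => rfl
  | succ n ih =>
    show DG p w n * shA (n * p) (w n) = DG p w' n * shA (n * p) (w' n)
    rw [ih (fun r hr => h r (by omega)), h n (by omega)]

theorem DG_comm {p : ℕ} {w : ℕ → A k} (hw : ∀ r, w r ∈ AB k p) {j n : ℕ} (hj : w j = 1)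
    {u : A k} (hu : u ∈ AB k p) : Commute (DG p w n) (shA (j * p) u) := by
  induction n with
  | zero => exact Commute.one_left _
  | succ n ih =>
    refine ih.mul_left ?_
    by_cases h : n = j
    · subst h; rw [hj, map_one]; exact Commute.one_left _
    · exact comm_blocks h (hw n) hu

theorem DG_update {p : ℕ} {w : ℕ → A k} (hw : ∀ r, w r ∈ AB k p) {j n : ℕ} (hjn : j < n)
    (hj : w j = 1) {u : A k} (hu : u ∈ AB k p) :
    DG p (Function.update w j u) n = DG p w n * shA (j * p) u := by
  induction n with
  | zero => omega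
  | succ n ih =>
    show DG p (Function.update w j u) n * shA (n * p) (Function.update w j u n) =
      DG p w n * shA (n * p) (w n) * shA (j * p) u
    rcases Nat.lt_or_ge j n with h | h
    · rw [ih h, Function.update_of_ne (by omega), mul_assoc,
        (comm_blocks (show j ≠ n by omega) hu (hw n)).eq, mul_assoc]
    · have : j = n := by omega
      subst this
      rw [DG_congr (w := Function.update w j u) (w' := w)
        (fun r hr => Function.update_of_ne (by omega) _ _), Function.update_self, hj, map_one,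
        mul_one]

/-- The element `x` inserted in each block of `R`. -/
noncomputable def D (p n : ℕ) (x : A k) (R : Finset ℕ) : A k :=
  DG p (fun r => if r ∈ R then x else 1) n

theorem ite_mem_AB {p : ℕ} {x : A k} (hx : x ∈ AB k p) (R : Finset ℕ) (r : ℕ) :
    (if r ∈ R then x else 1) ∈ AB k p := by
  split_ifs
  · exact hx
  · exact AB_one _

theorem D_mem {p n : ℕ} {x : A k} (hx : x ∈ AB k p) (R : Finset ℕ) :
    D p n x R ∈ AB k (n * p) :=
  DG_mem (ite_mem_AB hx R) n

theorem D_empty (p n : ℕ) (x : A k) : D p n x ∅ = 1 := by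
  induction n with
  | zero => rfl
  | succ n ih =>
    show D p n x ∅ * shA (n * p) (if n ∈ (∅ : Finset ℕ) then x else 1) = 1
    rw [ih]; simp

theorem D_comm {p n : ℕ} {x : A k} (hx : x ∈ AB k p) {R : Finset ℕ} {j : ℕ} (hj : j ∉ R)
    {u : A k} (hu : u ∈ AB k p) : Commute (D p n x R) (shA (j * p) u) :=
  DG_comm (ite_mem_AB hx R) (by simp [hj]) hu

theorem D_insert {p n : ℕ} {x : A k} (hx : x ∈ AB k p) {R : Finset ℕ} {j : ℕ} (hj : j ∉ R)
    (hjn : j < n) : D p n x (insert j R) = D p n x R * shA (j * p) x := by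
  have h := DG_update (w := fun r => if r ∈ R then x else 1) (ite_mem_AB hx R) hjn
    (by simp [hj]) hx
  unfold D
  rw [← h]
  apply DG_congr
  intro r _
  by_cases hr : r = j
  · subst hr; simp
  · simp [hr]

theorem D_succ {p n : ℕ} {x : A k} {R : Finset ℕ} (hn : n ∉ R) :
    D p (n + 1) x R = D p n x R := by
  show D p n x R * shA (n * p) (if n ∈ R then x else 1) = D p n x R
  simp [hn]

/-- Sliding a family of insertions through a cable. -/
theorem D_slide {p n : ℕ} {x : A k} (hx : x ∈ AB k p) {g : Br} (hg : g ∈ BB n)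
    {R : Finset ℕ} (hR : ∀ r ∈ R, r < n) :
    ob (cab p g) * D p n x R = D p n x (R.image (perm g)) * ob (cab p g) := by
  induction R using Finset.induction_on with
  | empty => simp [D_empty]
  | insert j R hj ih =>
    have hjn : j < n := hR j (Finset.mem_insert_self _ _)
    have h2 : perm g j ∉ R.image (perm g) := by
      intro h
      obtain ⟨k, hk, hkj⟩ := Finset.mem_image.1 h
      exact hj ((Equiv.injective _ hkj) ▸ hk)
    rw [D_insert hx hj hjn, Finset.image_insert, D_insert hx h2 (perm_lt hg hjn), ← mul_assoc,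
      ih (fun r hr => hR r (Finset.mem_insert_of_mem hr)), mul_assoc, cab_slideA g j hx, mul_assoc]

end

end Pool.Agent.Lib.Pe17fed
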