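import Mathlib
import Pool.Agent.Lib.Pe17fed.Alg

/-! The cycles of a cabled braid with cyclic braids inserted in one block of each cycle. -/

namespace Pool.Agent.Lib.Pe17fed

open Equiv Equiv.Perm

/-- Product of the braids `g r`, each placed in the block `r`, for `r < n`. -/
def dg (p : ℕ) (g : ℕ → Br) : ℕ → Br
  | 0 => 1
  | n + 1 => dg p g n * sh (n * p) (g n)

theorem dg_mem {p : ℕ} {g : ℕ → Br} (hg : ∀ r, g r ∈ BB p) (n : ℕ) : dg p g n ∈ BB (n * p) := by
  induction n with
  | zero => exact Subgroup.one_mem _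
  | succ n ih =>
    refine Subgroup.mul_mem _ (BB_mono (Nat.mul_le_mul_right _ (Nat.le_succ n)) ih) ?_
    exact BB_mono (by rw [Nat.succ_mul]; omega) (sh_mem (hg n))

theorem perm_dg {p : ℕ} {g : ℕ → Br} (hg : ∀ r, g r ∈ BB p) {n j k : ℕ} (hj : j < n)
    (hk : k < p) : perm (dg p g n) (j * p + k) = j * p + perm (g j) k := by
  induction n with
  | zero => omega
  | succ n ih =>
    show perm (dg p g n * sh (n * p) (g n)) (j * p + k) = j * p + perm (g j) k
    rw [map_mul, Perm.mul_apply]
    rcases Nat.lt_or_ge j n with h | h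
    · rw [perm_sh_lt, ih h]
      calc j * p + k < j * p + p := by omega
        _ = (j + 1) * p := by ring
        _ ≤ n * p := Nat.mul_le_mul_right _ h
    · have : j = n := by omega
      subst this
      rw [add_comm (j * p) k, perm_sh_add, perm_fix (dg_mem hg j) (by omega), add_comm]

/-- The choices of one braid in each block. -/
def Ch (p : ℕ) (R : Finset ℕ) (g : ℕ → Br) : Prop :=
  ∀ r, ∃ j, g r = if r ∈ R then V j (p - 1) else 1

theorem Ch.mem {p : ℕ} (hp : 0 < p) {R : Finset ℕ} {g : ℕ → Br} (h : Ch p R g) (r : ℕ) :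
    g r ∈ BB p := by
  obtain ⟨j, hj⟩ := h r
  rw [hj]
  split_ifs
  · have := V_mem j (p - 1)
    rwa [Nat.sub_add_cancel hp] at this
  · exact Subgroup.one_mem _

theorem Ch.perm_mem {p : ℕ} {R : Finset ℕ} {g : ℕ → Br} (h : Ch p R g) {r : ℕ} (hr : r ∈ R) :
    perm (g r) = perm (c (p - 1)) := by
  obtain ⟨j, hj⟩ := h r
  rw [hj, if_pos hr, perm_V]

theorem Ch.perm_not_mem {p : ℕ} {R : Finset ℕ} {g : ℕ → Br} (h : Ch p R g) {r : ℕ} (hr : r ∉ R) :
    g r = 1 := by
  obtain ⟨j, hj⟩ := h r
  rw [hj, if_neg hr]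

theorem Tr.insert_cab {p n : ℕ} (hp : 0 < p) {b : Br} (hb : b ∈ BB n) {R : Finset ℕ}
    (hR : Tr n (perm b) R) {g : ℕ → Br} (hg : Ch p R g) :
    Tr (n * p) (perm (dg p g n * cab p b)) (R.image (· * p)) := by
  have hgm := hg.mem hp
  set π := perm b with hπ
  set π' := perm (dg p g n * cab p b) with hπ'
  have hb' : dg p g n * cab p b ∈ BB (n * p) :=
    Subgroup.mul_mem _ (dg_mem hgm n) (cab_mem hb)
  have step : ∀ j k, j < n → k < p → π' (j * p + k) = π j * p + perm (g (π j)) k := by
    intro j k hj hk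
    rw [hπ', map_mul, Perm.mul_apply, perm_cab b j hk, perm_dg hgm (perm_lt hb hj) hk]
  have hglt : ∀ r k, k < p → perm (g r) k < p := fun r k hk => perm_lt (hgm r) hk
  -- claim 1
  have claim1 : ∀ x y, π'.SameCycle x y → π.SameCycle (x / p) (y / p) := by
    intro x y h
    refine rel_of_sameCycle (r := fun x y => π.SameCycle (x / p) (y / p))
      ⟨fun x => SameCycle.refl _ _, fun h => h.symm, fun h h' => h.trans h'⟩ (fun x => ?_) h
    rcases Nat.lt_or_ge x (n * p) with hx | hx
    · have hj : x / p < n := (Nat.div_lt_iff_lt_mul hp).2 hx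
      have hk : x % p < p := Nat.mod_lt _ hp
      have e : x = x / p * p + x % p := by rw [mul_comm]; exact (Nat.div_add_mod x p).symm
      have h1 : π' x = π (x / p) * p + perm (g (π (x / p))) (x % p) := by
        conv_lhs => rw [e]
        exact step _ _ hj hk
      have h2 : π' x / p = π (x / p) := by
        rw [h1, mul_comm, Nat.mul_add_div hp, Nat.div_eq_of_lt (hglt _ _ hk), add_zero]
      rw [h2]
      exact ⟨1, by rw [zpow_one]⟩
    · rw [hπ', perm_fix hb' hx]
  -- following the cycle
  have follow : ∀ (j : ℕ), j < n → ∀ k, k < p → ∀ l : ℕ, ∃ k', k' < p ∧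
      π'.SameCycle (j * p + k) ((π ^ l) j * p + k') ∧ (π ^ l) j < n := by
    intro j hj k hk l
    induction l with
    | zero => exact ⟨k, hk, by simp [SameCycle.refl], by simpa using hj⟩
    | succ l ih =>
      obtain ⟨k', hk', h1, h2⟩ := ih
      refine ⟨perm (g (π ((π ^ l) j))) k', hglt _ _ hk', ?_, ?_⟩
      · have := step _ _ h2 hk'
        rw [pow_succ', Perm.mul_apply, ← this]
        exact h1.trans ⟨1, by rw [zpow_one]⟩
      · rw [pow_succ', Perm.mul_apply]; exact perm_lt hb h2
  -- first return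
  have ret : ∀ r ∈ R, ∀ k, k < p → π'.SameCycle (r * p + k) (r * p + perm (g r) k) := by
    classical
    intro r hr k hk
    have hex : ∃ m, 0 < m ∧ (π ^ m) r = r := per_perm hb r
    obtain ⟨hm, hmr⟩ := Nat.find_spec hex
    have hmin := fun k (hk : k < Nat.find hex) => Nat.find_min hex hk
    set m := Nat.find hex with hmdef
    have hrn := hR.lt r hr
    have hlt : ∀ l : ℕ, (π ^ l) r < n := by
      intro l
      induction l with
      | zero => simpa using hrn
      | succ l ih => rw [pow_succ', Perm.mul_apply]; exact perm_lt hb ih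
    have key : ∀ l, l < m → π'.SameCycle (r * p + k) ((π ^ l) r * p + k) := by
      intro l
      induction l with
      | zero => intro _; simp [SameCycle.refl]
      | succ l ih =>
        intro hl
        have h1 := ih (by omega)
        have h2 := step _ _ (hlt l) hk
        have h3 : π ((π ^ l) r) = (π ^ (l + 1)) r := by rw [pow_succ', Perm.mul_apply]
        have h4 : (π ^ (l + 1)) r ∉ R := by
          intro h
          have h5 : π.SameCycle r ((π ^ (l + 1)) r) := ⟨((l + 1 : ℕ) : ℤ), by rw [zpow_natCast]⟩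
          have := hR.un r hr _ h h5
          exact hmin (l + 1) hl ⟨by omega, this.symm⟩
        rw [h3, hg.perm_not_mem h4, map_one, Perm.one_apply] at h2
        rw [← h2]
        exact h1.trans ⟨1, by rw [zpow_one]⟩
    have h1 := key (m - 1) (by omega)
    have h2 := step _ _ (hlt (m - 1)) hk
    have h3 : π ((π ^ (m - 1)) r) = r := by
      rw [← Perm.mul_apply, ← pow_succ', Nat.sub_add_cancel hm, hmr]
    rw [h3] at h2
    rw [← h2]
    exact h1.trans ⟨1, by rw [zpow_one]⟩
  have toZero : ∀ r ∈ R, ∀ k, k < p → π'.SameCycle (r * p + k) (r * p) := by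
    intro r hr k
    induction k with
    | zero => intro _; rw [add_zero]
    | succ k ih =>
      intro hk
      have h1 := ret r hr k (by omega)
      rw [hg.perm_mem hr, perm_c_lt (by omega)] at h1
      exact h1.symm.trans (ih (by omega))
  refine ⟨?_, ?_, ?_⟩
  · intro x hx
    obtain ⟨r, hr, rfl⟩ := Finset.mem_image.1 hx
    exact Nat.mul_lt_mul_of_pos_right (hR.lt r hr) hp
  · intro x hx
    have hj : x / p < n := (Nat.div_lt_iff_lt_mul hp).2 hx
    have hk : x % p < p := Nat.mod_lt _ hp
    have e : x = x / p * p + x % p := by rw [mul_comm]; exact (Nat.div_add_mod x p).symm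
    obtain ⟨r, hr, hjr⟩ := hR.ex _ hj
    obtain ⟨l, hl⟩ := (per_perm hb).exists_pow hjr
    obtain ⟨k', hk', h1, -⟩ := follow _ hj _ hk l
    refine ⟨r * p, Finset.mem_image_of_mem _ hr, ?_⟩
    rw [← hπ] at hl
    rw [hl, ← e] at h1
    exact h1.trans (toZero r hr k' hk')
  · intro x hx y hy hxy
    obtain ⟨r, hr, rfl⟩ := Finset.mem_image.1 hx
    obtain ⟨s, hs, rfl⟩ := Finset.mem_image.1 hy
    have := claim1 _ _ hxy
    simp only [Nat.mul_div_cancel _ hp] at this
    rw [hR.un r hr s hs this]

theorem card_image_mul {p : ℕ} (hp : 0 < p) (R : Finset ℕ) :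
    (R.image (· * p)).card = R.card :=
  Finset.card_image_of_injective _ (fun _ _ h => Nat.eq_of_mul_eq_mul_right hp h)

theorem dg_congr {p : ℕ} {g g' : ℕ → Br} {n : ℕ} (h : ∀ r < n, g r = g' r) :
    dg p g n = dg p g' n := by
  induction n with
  | zero => rfl
  | succ n ih =>
    show dg p g n * sh (n * p) (g n) = dg p g' n * sh (n * p) (g' n)
    rw [ih (fun r hr => h r (by omega)), h n (by omega)]

/-- The element with insertions is a combination of braids with insertions. -/
theorem D_mem_closure (p : ℕ) (R : Finset ℕ) (n : ℕ) :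
    D p n (xp ℤ p) R ∈ AddSubgroup.closure {y : A ℤ | ∃ g, Ch p R g ∧ y = ob (dg p g n)} := by
  induction n with
  | zero =>
    refine AddSubgroup.subset_closure ⟨fun r => if r ∈ R then V 0 (p - 1) else 1,
      fun r => ⟨0, rfl⟩, ?_⟩
    show (1 : A ℤ) = ob 1
    rw [map_one]
  | succ n ih =>
    show D p n (xp ℤ p) R * shA (n * p) (if n ∈ R then xp ℤ p else 1) ∈ _
    generalize D p n (xp ℤ p) R = d at ih
    induction ih using AddSubgroup.closure_induction with
    | mem x hx =>
      obtain ⟨g, hg, rfl⟩ := hx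
      have key : ∀ v : Br, (∃ j, v = if n ∈ R then V j (p - 1) else 1) →
          ob (dg p g n) * shA (n * p) (ob v) ∈
            AddSubgroup.closure {y : A ℤ | ∃ g, Ch p R g ∧ y = ob (dg p g (n + 1))} := by
        rintro v ⟨j, hv⟩
        refine AddSubgroup.subset_closure ⟨Function.update g n v, ?_, ?_⟩
        · intro r
          by_cases hr : r = n
          · subst hr; exact ⟨j, by rw [Function.update_self, hv]⟩
          · obtain ⟨j', hj'⟩ := hg r
            exact ⟨j', by rw [Function.update_of_ne hr, hj']⟩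
        · show _ = ob (dg p (Function.update g n v) n * sh (n * p) (Function.update g n v n))
          rw [Function.update_self, dg_congr (g := Function.update g n v) (g' := g)
            (fun r hr => Function.update_of_ne (by omega) _ _), map_mul, shA_ob]
      by_cases hn : n ∈ R
      · rw [if_pos hn, xp, map_sum, Finset.mul_sum]
        exact AddSubgroup.sum_mem _ (fun j _ => key _ ⟨j, by rw [if_pos hn]⟩)
      · have := key 1 ⟨0, by rw [if_neg hn]⟩
        rwa [if_neg hn, ← map_one (ob (k := ℤ))]
    | zero => rw [zero_mul]; exact AddSubgroup.zero_mem _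
    | add x y _ _ hx hy => rw [add_mul]; exact AddSubgroup.add_mem _ hx hy
    | neg x _ hx => rw [neg_mul]; exact AddSubgroup.neg_mem _ hx

/-- The decorated braid is a combination of braids with the same number of components. -/
theorem D_cab_mem {p n : ℕ} (hp : 0 < p) {b : Br} (hb : b ∈ BB n) {R : Finset ℕ}
    (hR : Tr n (perm b) R) :
    D p n (xp ℤ p) R * ob (cab p b) ∈ AddSubgroup.closure {y : A ℤ | ∃ b' ∈ BB (n * p), ∃ R',
      Tr (n * p) (perm b') R' ∧ R'.card = R.card ∧ y = ob b'} := by
  have h := D_mem_closure p R n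
  generalize D p n (xp ℤ p) R = d at h
  induction h using AddSubgroup.closure_induction with
  | mem x hx =>
    obtain ⟨g, hg, rfl⟩ := hx
    refine AddSubgroup.subset_closure ⟨dg p g n * cab p b,
      Subgroup.mul_mem _ (dg_mem (hg.mem hp) n) (cab_mem hb), R.image (· * p),
      hR.insert_cab hp hb hg, card_image_mul hp R, by rw [map_mul]⟩
  | zero => rw [zero_mul]; exact AddSubgroup.zero_mem _
  | add x y _ _ hx hy => rw [add_mul]; exact AddSubgroup.add_mem _ hx hy
  | neg x _ hx => rw [neg_mul]; exact AddSubgroup.neg_mem _ hx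

end Pool.Agent.Lib.Pe17fed
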