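import Mathlib
import Pool.Agent.Lib.Pe17fed.Insert

/-! Markov functions on braids, their values on decorated cables, and the moves used in the
comparison of the two sides of the congruence. -/

namespace Pool.Agent.Lib.Pe17fed

open Equiv Equiv.Perm

/-- Values of a framed HOMFLY-PT type invariant on closed braids with blackboard framing:
`t n b` is the value on the closure of the braid `b` on `n` strands. -/
structure Markov {S : Type*} [CommRing S] (z a ai δ : S) (t : ℕ → Br → S) : Prop where
  empty : t 0 1 = 1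
  comm : ∀ n, ∀ g ∈ BB n, ∀ b ∈ BB n, t n (g * b) = t n (b * g)
  skein : ∀ n i, i + 1 < n → ∀ b ∈ BB n, t n (b * sg i) - t n (b * (sg i)⁻¹) = z * t n b
  stab : ∀ n, ∀ b ∈ BB n, t (n + 1) b = δ * t n b
  stabp : ∀ n, ∀ b ∈ BB (n + 1), t (n + 2) (b * sg n) = a * t (n + 1) b
  stabm : ∀ n, ∀ b ∈ BB (n + 1), t (n + 2) (b * (sg n)⁻¹) = ai * t (n + 1) b

variable {S : Type*} [CommRing S]

/-- Skein relation on the first `n` strands. -/
def Skein (n : ℕ) (z : S) (φ : Br → S) : Prop :=
  ∀ i, i + 1 < n → ∀ a ∈ BB n, ∀ b ∈ BB n,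
    φ (a * sg i * b) - φ (a * (sg i)⁻¹ * b) = z * φ (a * b)

section

variable {k : Type*} [CommRing k] [Algebra k S]
variable {z a ai δ : S} {t : ℕ → Br → S} (ht : Markov z a ai δ t)

include ht

theorem Markov.skein_gen (n : ℕ) : Skein n z (t n) := by
  intro i hi g hg b hb
  have hs := sg_mem hi
  have h := ht.skein n i hi (b * g) (Subgroup.mul_mem _ hb hg)
  rw [ht.comm n (g * sg i) (Subgroup.mul_mem _ hg hs) b hb, ← mul_assoc,
    ht.comm n (g * (sg i)⁻¹) (Subgroup.mul_mem _ hg (Subgroup.inv_mem _ hs)) b hb, ← mul_assoc,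
    h, ht.comm n g hg b hb]

theorem Markov.ext_comm {n : ℕ} {x y : A k} (hx : x ∈ AB k n) (hy : y ∈ AB k n) :
    ext (t n) (x * y) = ext (t n) (y * x) :=
  Pe17fed.ext_comm (ht.comm n) hx hy

theorem Markov.ext_skein {n i : ℕ} (hi : i + 1 < n) {x y : A k} (hx : x ∈ AB k n) (hy : y ∈ AB k n) :
    ext (t n) (x * ob (sg i) * y) - ext (t n) (x * ob (sg i)⁻¹ * y) = z * ext (t n) (x * y) := by
  refine AB_induction (P := fun x => ext (t n) (x * ob (sg i) * y) -
    ext (t n) (x * ob (sg i)⁻¹ * y) = z * ext (t n) (x * y)) ?_ ?_ ?_ ?_ hx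
  · simp
  · intro b hb
    refine AB_induction (P := fun y => ext (t n) (ob b * ob (sg i) * y) -
      ext (t n) (ob b * ob (sg i)⁻¹ * y) = z * ext (t n) (ob b * y)) ?_ ?_ ?_ ?_ hy
    · simp
    · intro c hc
      simp only [← map_mul, ext_ob]
      exact ht.skein_gen n i hi b hb c hc
    · intro x y hx hy
      simp only [mul_add, map_add]
      linear_combination hx + hy
    · intro r x hx
      simp only [mul_smul_comm, map_smul]
      rw [← smul_sub, hx]
  · intro x w hx hw
    simp only [add_mul, map_add]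
    linear_combination hx + hw
  · intro r x hx
    simp only [smul_mul_assoc, map_smul]
    rw [← smul_sub, hx, mul_smul_comm]

theorem Markov.ext_stab {n : ℕ} {x : A k} (hx : x ∈ AB k n) :
    ext (t (n + 1)) x = δ * ext (t n) x := by
  refine AB_induction (P := fun x => ext (t (n + 1)) x = δ * ext (t n) x) ?_ ?_ ?_ ?_ hx
  · simp
  · intro b hb; rw [ext_ob, ext_ob, ht.stab n b hb]
  · intro x y hx hy; rw [map_add, map_add, hx, hy, mul_add]
  · intro r x hx; rw [map_smul, map_smul, hx, mul_smul_comm]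

theorem Markov.ext_stabp {n : ℕ} {x : A k} (hx : x ∈ AB k (n + 1)) :
    ext (t (n + 2)) (x * ob (sg n)) = a * ext (t (n + 1)) x := by
  refine AB_induction (P := fun x => ext (t (n + 2)) (x * ob (sg n)) = a * ext (t (n + 1)) x)
    ?_ ?_ ?_ ?_ hx
  · simp
  · intro b hb; rw [← map_mul, ext_ob, ext_ob, ht.stabp n b hb]
  · intro x y hx hy; rw [add_mul, map_add, map_add, hx, hy, mul_add]
  · intro r x hx; rw [smul_mul_assoc, map_smul, map_smul, hx, mul_smul_comm]

theorem Markov.ext_stabm {n : ℕ} {x : A k} (hx : x ∈ AB k (n + 1)) :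
    ext (t (n + 2)) (x * ob (sg n)⁻¹) = ai * ext (t (n + 1)) x := by
  refine AB_induction (P := fun x => ext (t (n + 2)) (x * ob (sg n)⁻¹) = ai * ext (t (n + 1)) x)
    ?_ ?_ ?_ ?_ hx
  · simp
  · intro b hb; rw [← map_mul, ext_ob, ext_ob, ht.stabm n b hb]
  · intro x y hx hy; rw [add_mul, map_add, map_add, hx, hy, mul_add]
  · intro r x hx; rw [smul_mul_assoc, map_smul, map_smul, hx, mul_smul_comm]

/-- Closing the strands of one of the braids `V j l`. -/
theorem Markov.close_V (j l : ℕ) {m : ℕ} {y : A k} (hy : y ∈ AB k m) :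
    ext (t (m + l + 1)) (y * ob (sh m (V j l))) =
      (a ^ (min j l) * ai ^ (l - j)) * δ * ext (t m) y := by
  induction l with
  | zero =>
    simp only [V, map_one, mul_one, add_zero, Nat.min_zero, Nat.zero_sub, pow_zero, one_mul]
    exact ht.ext_stab hy
  | succ l ih =>
    have hmem : y * ob (sh m (V j l)) ∈ AB k (m + l + 1) := by
      refine AB_mul (AB_mono (by omega) hy) (AB_mono (by omega) (ob_mem (sh_mem (V_mem j l))))
    show ext (t (m + (l + 1) + 1)) (y * ob (sh m (V j l * (if l < j then sg l else (sg l)⁻¹)))) = _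
    split_ifs with h
    · rw [(sh m).map_mul, ob.map_mul, ← mul_assoc, sh_sg, show l + m = m + l by omega,
        show m + (l + 1) + 1 = (m + l) + 2 by omega, ht.ext_stabp hmem, ih,
        show min j (l + 1) = min j l + 1 by omega, show l + 1 - j = l - j by omega, pow_succ]
      ring
    · rw [(sh m).map_mul, (sh m).map_inv, ob.map_mul, ← mul_assoc, sh_sg,
        show l + m = m + l by omega,
        show m + (l + 1) + 1 = (m + l) + 2 by omega, ht.ext_stabm hmem, ih,
        show min j (l + 1) = min j l by omega, show l + 1 - j = (l - j) + 1 by omega, pow_succ]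
      ring

/-- A cable of an unknotted, unlinked component, decorated by `x`. -/
theorem Markov.close_xp (hz : z * δ = a - ai) {p : ℕ} (hp : 0 < p) {m : ℕ} {y : A k}
    (hy : y ∈ AB k m) :
    z * ext (t (m + p)) (y * shA m (xp k p)) = (a ^ p - ai ^ p) * ext (t m) y := by
  have h1 : ext (t (m + p)) (y * shA m (xp k p)) =
      ∑ j ∈ Finset.range p, (a ^ j * ai ^ (p - 1 - j)) * δ * ext (t m) y := by
    rw [show xp k p = ∑ j ∈ Finset.range p, ob (V j (p - 1)) from rfl, map_sum, Finset.mul_sum,
      map_sum]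
    refine Finset.sum_congr rfl (fun j hj => ?_)
    have hj' := Finset.mem_range.1 hj
    rw [shA_ob]
    have := ht.close_V j (p - 1) hy
    rw [show m + (p - 1) + 1 = m + p by omega, show min j (p - 1) = j by omega] at this
    exact this
  rw [h1, ← Finset.sum_mul, ← Finset.sum_mul]
  have h2 := (Commute.all a ai).geom_sum₂_mul p
  rw [← h2, ← hz]
  ring

/-- Closing the last `n` strands of a crossing of blocks. -/
theorem Markov.close_X {p : ℕ} (hp : 0 < p) {m : ℕ} {y : A k} (hy : y ∈ AB k (m + p)) (n : ℕ) :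
    ∀ w ∈ BB p, ext (t (m + p + n)) (y * ob (sh m (sh n w * X p n))) =
      a ^ n * ext (t (m + p)) (y * ob (sh m (c (p - 1) ^ n * w))) := by
  induction n with
  | zero => intro w _; simp [X, sh_zero]
  | succ n ih =>
    intro w hw
    obtain ⟨q, rfl⟩ : ∃ q, p = q + 1 := ⟨p - 1, by omega⟩
    simp only [Nat.add_sub_cancel] at ih ⊢
    have e1 : sh (n + 1) w * X (q + 1) (n + 1) =
        sh n (c q) * sg (q + n) * (sh n w * X (q + 1) n) := by
      show sh (n + 1) w * (sh n (c (q + 1)) * X (q + 1) n) = _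
      rw [← mul_assoc, show n + 1 = 1 + n by omega, ← sh_sh, ← map_mul, ← c_mul hw]
      show sh n (c q * sg q * w) * X (q + 1) n = _
      simp only [map_mul, sh_sg, mul_assoc]
    have hcq : sh (n + m) (c q) ∈ BB (m + (q + 1) + n) := BB_mono (by omega) (sh_mem (c_mem q))
    have hw' : sh m (sh n w * X (q + 1) n) ∈ BB (m + (q + 1) + n) := by
      rw [map_mul, sh_sh]
      refine Subgroup.mul_mem _ (BB_mono (by omega) (sh_mem hw)) ?_
      exact BB_mono (by omega) (sh_mem (X_mem (q + 1) n))
    have hy' : y ∈ AB k (m + (q + 1) + n) := AB_mono (by omega) hy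
    have e2 : y * ob (sh m (sh (n + 1) w * X (q + 1) (n + 1))) =
        (y * ob (sh (n + m) (c q))) * ob (sg (m + q + n)) * ob (sh m (sh n w * X (q + 1) n)) := by
      rw [e1]
      simp only [map_mul, sh_sh, sh_sg, mul_assoc]
      rw [show q + n + m = m + q + n by omega]
    rw [e2, show m + (q + 1) + (n + 1) = (m + q + n) + 2 by omega]
    rw [ht.ext_comm (AB_mul (AB_mul (AB_mono (by omega) hy) (ob_mem (BB_mono (by omega) hcq)))
      (ob_mem (sg_mem (by omega)))) (ob_mem (BB_mono (by omega) hw')), ← mul_assoc,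
      ht.ext_stabp (by
        refine AB_mul (ob_mem (BB_mono (by omega) hw')) (AB_mul (AB_mono (by omega) hy)
          (ob_mem (BB_mono (by omega) hcq)))), show m + q + n + 1 = m + (q + 1) + n by omega,
      ht.ext_comm (ob_mem hw') (AB_mul hy' (ob_mem hcq))]
    have e3 : y * ob (sh (n + m) (c q)) * ob (sh m (sh n w * X (q + 1) n)) =
        y * ob (sh m (sh n (c q * w) * X (q + 1) n)) := by
      rw [mul_assoc, ← map_mul]
      simp only [map_mul, sh_sh, mul_assoc]
    rw [e3, ih (c q * w) (Subgroup.mul_mem _ (c_mem q) hw), pow_succ a, pow_succ (c q)]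
    simp only [mul_assoc]
    ring

end

end Pool.Agent.Lib.Pe17fed
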