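import Mathlib
import Pool.Agent.Lib.Pe17fed.Markov

/-! Moving insertions along components, and the effect of crossing changes, granted the facts
on Hecke algebras collected in `HeckeFacts`. -/

namespace Pool.Agent.Lib.Pe17fed

open Equiv Equiv.Perm

variable {S : Type*} [CommRing S]

/-- Skein relation for linear functionals. -/
def SkeinA {k : Type*} [CommRing k] [Algebra k S] (z : S) (Φ : A k →ₗ[k] S) : Prop :=
  ∀ i x y, Φ (x * ob (sg i) * y) - Φ (x * ob (sg i)⁻¹ * y) = z * Φ (x * y)

/-- Skein relation for families of functions on braids, on all strands. -/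
def GSkein (z : S) (t : ℕ → Br → S) : Prop :=
  ∀ n i a b, t n (a * sg i * b) - t n (a * (sg i)⁻¹ * b) = z * t n (a * b)

theorem GSkein.ext_skein {k : Type*} [CommRing k] [Algebra k S] {z : S} {t : ℕ → Br → S}
    (hg : GSkein z t) (n : ℕ) : SkeinA z (ext (t n) : A k →ₗ[k] S) := by
  intro i x y
  refine A_induction (P := fun x => ext (t n) (x * ob (sg i) * y) -
    ext (t n) (x * ob (sg i)⁻¹ * y) = z * ext (t n) (x * y)) ?_ ?_ ?_ x
  · intro b
    refine A_induction (P := fun y => ext (t n) (ob b * ob (sg i) * y) -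
      ext (t n) (ob b * ob (sg i)⁻¹ * y) = z * ext (t n) (ob b * y)) ?_ ?_ ?_ y
    · intro c
      simp only [← map_mul, ext_ob]
      exact hg n i b c
    · intro x y hx hy
      simp only [mul_add, map_add]
      linear_combination hx + hy
    · intro r x hx
      simp only [mul_smul_comm, map_smul]
      rw [← smul_sub, hx]
  · intro x w hx hw
    simp only [add_mul, map_add]
    linear_combination hx + hw
  · intro r x hx
    simp only [smul_mul_assoc, map_smul]
    rw [← smul_sub, hx, mul_smul_comm]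

/-- The facts on Hecke algebras used in the proof of the congruence. -/
structure HeckeFacts (p : ℕ) (z κ : S) : Prop where
  self : ∀ Φ : A ℤ →ₗ[ℤ] S, SkeinA z Φ →
    (∀ u ∈ AB ℤ p, ∀ y ∈ AB ℤ (p + p), Φ (u * y) = Φ (y * u)) →
    (∀ u ∈ AB ℤ p, ∀ y ∈ AB ℤ (p + p), Φ (shA p u * y) = Φ (y * shA p u)) →
    Φ (xp ℤ p * ob (X p p)) - Φ (xp ℤ p * ob (X p p)⁻¹) =
      κ * z * Φ (xp ℤ p * shA p (xp ℤ p))
  linking : ∀ Φ : A ℤ →ₗ[ℤ] S, SkeinA z Φ →
    (∀ u ∈ AB ℤ p, ∀ y ∈ AB ℤ (p + p), Φ (u * y) = Φ (y * shA p u)) →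
    (∀ u ∈ AB ℤ p, ∀ y ∈ AB ℤ (p + p), Φ (shA p u * y) = Φ (y * u)) →
    Φ (xp ℤ p * shA p (xp ℤ p) * ob (X p p)) = Φ (xp ℤ p * shA p (xp ℤ p) * ob (X p p)⁻¹)
  twist : ∀ Φ : A ℤ →ₗ[ℤ] S, SkeinA z Φ →
    (∀ u ∈ AB ℤ p, ∀ v ∈ AB ℤ p, Φ (u * v) = Φ (v * u)) →
    Φ (xp ℤ p * ob (c (p - 1) ^ p)) = κ * Φ (xp ℤ p)

theorem first_hit {π : Perm ℕ} (hπ : Per π) (J : Finset ℕ) {j : ℕ} (hj : j ∈ J) :
    ∃ k, 1 ≤ k ∧ (π ^ k) j ∈ J ∧ ∀ l, 1 ≤ l → l < k → (π ^ l) j ∉ J := by
  classical
  have hex : ∃ k, 1 ≤ k ∧ (π ^ k) j ∈ J := by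
    obtain ⟨m, hm, h⟩ := hπ j
    exact ⟨m, hm, by rw [h]; exact hj⟩
  refine ⟨Nat.find hex, (Nat.find_spec hex).1, (Nat.find_spec hex).2, fun l hl hlk h => ?_⟩
  exact Nat.find_min hex hlk ⟨hl, h⟩

theorem pow_perm_lt {n : ℕ} {b : Br} (hb : b ∈ BB n) {j : ℕ} (hj : j < n) (l : ℕ) :
    ((perm b) ^ l) j < n := by
  induction l with
  | zero => simpa using hj
  | succ l ih => rw [pow_succ', Perm.mul_apply]; exact perm_lt hb ih

variable {k : Type*} [CommRing k]

theorem shA_block_mem {p n j : ℕ} (hj : j < n) {v : A k} (hv : v ∈ AB k p) :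
    shA (j * p) v ∈ AB k (n * p) := by
  refine AB_mono ?_ (shA_mem hv)
  calc p + j * p = (j + 1) * p := by ring
    _ ≤ n * p := Nat.mul_le_mul_right _ hj

theorem D_comm2 {p n : ℕ} {x : A k} (hx : x ∈ AB k p) {R : Finset ℕ} {i : ℕ} (hi : i ∉ R)
    (hi' : i + 1 ∉ R) {y : A k} (hy : y ∈ AB k (p + p)) :
    Commute (D p n x R) (shA (i * p) y) := by
  induction n with
  | zero => exact Commute.one_left _
  | succ n ih =>
    refine ih.mul_left ?_
    by_cases hn : n ∈ R
    · have h1 : n ≠ i := fun h => hi (h ▸ hn)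
      have h2 : n ≠ i + 1 := fun h => hi' (h ▸ hn)
      simp only [if_pos hn]
      rcases Nat.lt_or_ge n i with h | h
      · refine comm_shA (m := p + n * p) ?_ (shA_mem hx) y
        calc p + n * p = (n + 1) * p := by ring
          _ ≤ i * p := Nat.mul_le_mul_right _ h
      · refine (comm_shA (m := p + p + i * p) ?_ (shA_mem hy) x).symm
        calc p + p + i * p = (i + 2) * p := by ring
          _ ≤ n * p := Nat.mul_le_mul_right _ (by omega)
    · simp only [if_neg hn, map_one]; exact Commute.one_left _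

section

variable [Algebra k S] {z a ai δ : S} {t : ℕ → Br → S} (ht : Markov z a ai δ t)

include ht

theorem Markov.move {p n : ℕ} {b : Br} (hb : b ∈ BB n) {d y : A k} (hd : d ∈ AB k (n * p))
    (hy : y ∈ AB k (n * p)) {j : ℕ} (hj : j < n) {v : A k} (hv : v ∈ AB k p)
    (h1 : Commute d (shA (j * p) v)) (h2 : Commute y (shA (j * p) v)) :
    ext (t (n * p)) (d * shA (j * p) v * ob (cab p b) * y) =
      ext (t (n * p)) (d * shA (perm b j * p) v * ob (cab p b) * y) := by
  have hv' := shA_block_mem hj hv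
  have hc := ob_mem (k := k) (cab_mem (p := p) hb)
  calc ext (t (n * p)) (d * shA (j * p) v * ob (cab p b) * y)
      = ext (t (n * p)) (shA (j * p) v * (d * ob (cab p b) * y)) := by
        rw [h1.eq]; simp only [mul_assoc]
    _ = ext (t (n * p)) ((d * ob (cab p b) * y) * shA (j * p) v) :=
        ht.ext_comm hv' (AB_mul (AB_mul hd hc) hy)
    _ = ext (t (n * p)) (d * (ob (cab p b) * shA (j * p) v) * y) := by
        rw [mul_assoc (d * ob (cab p b)), h2.eq]; simp only [mul_assoc]
    _ = _ := by rw [cab_slideA b j hv]; simp only [mul_assoc]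

theorem Markov.around {p n : ℕ} {b : Br} (hb : b ∈ BB n) {d y : A k} (hd : d ∈ AB k (n * p))
    (hy : y ∈ AB k (n * p)) {j : ℕ} (hj : j < n) {v : A k} (hv : v ∈ AB k p) {m : ℕ} (hk : 1 ≤ m)
    (h : ∀ l, 1 ≤ l → l < m → Commute d (shA (((perm b) ^ l) j * p) v) ∧
      Commute y (shA (((perm b) ^ l) j * p) v))
    (h' : Commute d (shA (((perm b) ^ m) j * p) v)) :
    ext (t (n * p)) (d * ob (cab p b) * (shA (j * p) v * y)) =
      ext (t (n * p)) (d * ob (cab p b) * (y * shA (((perm b) ^ m) j * p) v)) := by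
  have hc := ob_mem (k := k) (cab_mem (p := p) hb)
  have key : ∀ l, 1 ≤ l → l ≤ m → ext (t (n * p)) (d * ob (cab p b) * (shA (j * p) v * y)) =
      ext (t (n * p)) (d * shA (((perm b) ^ l) j * p) v * ob (cab p b) * y) := by
    intro l hl
    induction l, hl using Nat.le_induction with
    | base =>
      intro _
      rw [pow_one]
      congr 1
      calc d * ob (cab p b) * (shA (j * p) v * y) = d * (ob (cab p b) * shA (j * p) v) * y := by
            simp only [mul_assoc]
        _ = _ := by rw [cab_slideA b j hv]; simp only [mul_assoc]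
    | succ l hl ih =>
      intro hlk
      rw [ih (by omega), ht.move hb hd hy (pow_perm_lt hb hj l) hv (h l hl (by omega)).1
        (h l hl (by omega)).2, pow_succ', Perm.mul_apply]
  rw [key m hk le_rfl, h'.eq]
  have hv' := shA_block_mem (pow_perm_lt hb hj m) hv
  rw [mul_assoc, mul_assoc, ht.ext_comm hv' (AB_mul hd (AB_mul hc hy))]
  simp only [mul_assoc]

/-- The value does not depend on the block of the component where `x` is inserted. -/
theorem Markov.exchange {p n : ℕ} {b : Br} (hb : b ∈ BB n) {x : A k} (hx : x ∈ AB k p)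
    {R : Finset ℕ} (hR : Tr n (perm b) R) {r i : ℕ} (hr : r ∈ R) (hi : i < n)
    (hri : (perm b).SameCycle r i) :
    ext (t (n * p)) (D p n x (insert i (R.erase r)) * ob (cab p b)) =
      ext (t (n * p)) (D p n x R * ob (cab p b)) := by
  by_cases hir : i = r
  · subst hir; rw [Finset.insert_erase hr]
  · have hrn := hR.lt r hr
    have hnot : ∀ j, (perm b).SameCycle r j → j ∉ R.erase r := by
      intro j hj hmem
      obtain ⟨h1, h2⟩ := Finset.mem_erase.1 hmem
      exact h1 (hR.un r hr j h2 hj).symm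
    have e1 : D p n x R = D p n x (R.erase r) * shA (r * p) x := by
      rw [← D_insert hx (Finset.notMem_erase r R) hrn, Finset.insert_erase hr]
    have e2 : D p n x (insert i (R.erase r)) = D p n x (R.erase r) * shA (i * p) x :=
      D_insert hx (hnot i hri) hi
    obtain ⟨m, hk⟩ := (per_perm hb).exists_pow hri
    have key : ∀ l : ℕ, ext (t (n * p)) (D p n x (R.erase r) * shA (r * p) x *
        ob (cab p b) * 1) = ext (t (n * p)) (D p n x (R.erase r) *
        shA (((perm b) ^ l) r * p) x * ob (cab p b) * 1) := by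
      intro l
      induction l with
      | zero => simp
      | succ l ih =>
        rw [ih, ht.move hb (D_mem hx _) (AB_one _) (pow_perm_lt hb hrn l) hx
          (D_comm hx (hnot _ ⟨(l : ℤ), by rw [zpow_natCast]⟩) hx) (Commute.one_left _),
          pow_succ', Perm.mul_apply]
    have := key m
    rw [hk, mul_one, mul_one] at this
    rw [e1, e2, this]

/-- The functional on two adjacent blocks given by the rest of a decorated cable. -/
noncomputable def Phi (t : ℕ → Br → S) (m : ℕ) (d : A k) (j : ℕ) : A k →ₗ[k] S :=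
  ((ext (t m)) ∘ₗ (LinearMap.mulLeft k d)) ∘ₗ (shA j).toLinearMap

omit ht in
theorem Phi_apply (m : ℕ) (d : A k) (j : ℕ) (y : A k) :
    Phi t m d j y = ext (t m) (d * shA j y) := rfl

omit ht in
theorem skein_Phi (hg : GSkein z t) (m : ℕ) (d : A k) (j : ℕ) :
    SkeinA z (Phi t m d j) := by
  intro i x y
  simp only [Phi_apply, map_mul, ← mul_assoc, map_inv, shA_ob, sh_sg]
  exact hg.ext_skein m _ _ _

/-- Crossing change of a component with itself. -/
theorem Markov.self_crossing (hg : GSkein z t) {p n : ℕ} {κ : S} (hp : 0 < p)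
    (HF : HeckeFacts p z κ) {b : Br}
    (hb : b ∈ BB n) {i : ℕ} (hin : i + 1 < n) {R : Finset ℕ} (hR : Tr n (perm b) R)
    (hi : i ∈ R) (hi' : i + 1 ∈ R) :
    ext (t (n * p)) (D p n (xp ℤ p) (R.erase (i + 1)) * ob (cab p (b * sg i))) -
      ext (t (n * p)) (D p n (xp ℤ p) (R.erase (i + 1)) * ob (cab p (b * (sg i)⁻¹))) =
      κ * z * ext (t (n * p)) (D p n (xp ℤ p) R * ob (cab p b)) := by
  have hx := xp_mem (k := ℤ) hp
  set x := xp ℤ p with hxdef
  set R0 := (R.erase (i + 1)).erase i with hR0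
  have hi0 : i ∉ R0 := Finset.notMem_erase _ _
  have hi1 : i + 1 ∉ R0 := fun h => Finset.notMem_erase (i + 1) R (Finset.mem_of_mem_erase h)
  have hR0R : ∀ j ∈ R0, j ∈ R := fun j hj => Finset.mem_of_mem_erase (Finset.mem_of_mem_erase hj)
  have e1 : D p n x (R.erase (i + 1)) = D p n x R0 * shA (i * p) x := by
    rw [← D_insert hx hi0 (by omega), hR0, Finset.insert_erase]
    exact Finset.mem_erase.2 ⟨by omega, hi⟩
  have e2 : D p n x R = D p n x R0 * shA (i * p) x * shA ((i + 1) * p) x := by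
    rw [← e1, ← D_insert hx (Finset.notMem_erase _ _) hin, Finset.insert_erase hi']
  have hd : D p n x R0 ∈ AB ℤ (n * p) := D_mem hx _
  have hc : ob (cab p b) ∈ AB ℤ (n * p) := ob_mem (cab_mem hb)
  have hxi : shA (i * p) x ∈ AB ℤ (n * p) := shA_block_mem (by omega) hx
  have hle : p + p + i * p ≤ n * p := by
    calc p + p + i * p = (i + 2) * p := by ring
      _ ≤ n * p := Nat.mul_le_mul_right _ (by omega)
  set Φ := Phi t (n * p) (D p n x R0 * ob (cab p b)) (i * p) with hΦ
  have hdis : ∀ j, j ∈ R → (perm b).SameCycle i j → j = i := fun j hj h => (hR.un i hi j hj h).symm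
  have hdis' : ∀ j, j ∈ R → (perm b).SameCycle (i + 1) j → j = i + 1 :=
    fun j hj h => (hR.un (i + 1) hi' j hj h).symm
  -- commutation of an element of the two blocks with other blocks
  have hcomm : ∀ y ∈ AB ℤ (p + p), ∀ v ∈ AB ℤ p, ∀ j, j ≠ i → j ≠ i + 1 →
      Commute (shA (i * p) y) (shA (j * p) v) := by
    intro y hy v hv j h1 h2
    rcases Nat.lt_or_ge j i with h | h
    · refine (comm_shA (m := p + j * p) ?_ (shA_mem hv) y).symm
      calc p + j * p = (j + 1) * p := by ring
        _ ≤ i * p := Nat.mul_le_mul_right _ h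
    · refine comm_shA (m := p + p + i * p) ?_ (shA_mem hy) v
      calc p + p + i * p = (i + 2) * p := by ring
        _ ≤ j * p := Nat.mul_le_mul_right _ (by omega)
  have hblk : ∀ y ∈ AB ℤ (p + p), shA (i * p) y ∈ AB ℤ (n * p) := fun y hy =>
    AB_mono hle (shA_mem hy)
  have sc : ∀ (j l : ℕ), (perm b).SameCycle j (((perm b) ^ l) j) := fun j l =>
    ⟨(l : ℤ), by rw [zpow_natCast]⟩
  -- the general rotation
  have rot : ∀ j, (j = i ∨ j = i + 1) → ∀ v ∈ AB ℤ p, ∀ y ∈ AB ℤ (p + p),
      ext (t (n * p)) (D p n x R0 * ob (cab p b) * (shA (j * p) v * shA (i * p) y)) =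
      ext (t (n * p)) (D p n x R0 * ob (cab p b) * (shA (i * p) y * shA (j * p) v)) := by
    intro j hj v hv y hy
    have hjn : j < n := by omega
    have hjR : j ∈ R := by rcases hj with rfl | rfl <;> assumption
    have hj0 : j ∉ R0 := by rcases hj with rfl | rfl <;> assumption
    have hun : ∀ l, ((perm b) ^ l) j ∉ R0 := by
      intro l h
      have := hR.un j hjR _ (hR0R _ h) (sc j l)
      rw [← this] at h
      exact hj0 h
    obtain ⟨k, hk, hkJ, hkl⟩ := first_hit (per_perm hb) {j} (Finset.mem_singleton_self j)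
    rw [Finset.mem_singleton] at hkJ
    have := ht.around hb hd (hblk y hy) hjn hv hk (fun l hl hlk => ⟨D_comm hx (hun l) hv, ?_⟩)
      (D_comm hx (hun k) hv)
    · rw [hkJ] at this; exact this
    · have h1 := hkl l hl hlk
      rw [Finset.mem_singleton] at h1
      refine hcomm y hy v hv _ ?_ ?_
      · intro h
        rcases hj with rfl | rfl
        · exact h1 h
        · have := hdis' i hi (by have h5 := sc (i + 1) l; rwa [h] at h5)
          omega
      · intro h
        rcases hj with rfl | rfl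
        · have := hdis (j + 1) hi' (by have h5 := sc j l; rwa [h] at h5)
          omega
        · exact h1 h
  have hself := HF.self Φ (skein_Phi hg _ _ _)
    (by
      intro u hu y hy
      simp only [hΦ, Phi_apply, map_mul]
      exact rot i (Or.inl rfl) u hu y hy)
    (by
      intro u hu y hy
      simp only [hΦ, Phi_apply, map_mul, shA_shA]
      rw [show p + i * p = (i + 1) * p by ring]
      exact rot (i + 1) (Or.inr rfl) u hu y hy)
  have hX : ob (X p p) ∈ AB ℤ (p + p) := ob_mem (X_mem p p)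
  have hXi : ob (X p p)⁻¹ ∈ AB ℤ (p + p) := ob_mem (Subgroup.inv_mem _ (X_mem p p))
  -- conversion of the decorated cables
  have conv : ∀ Y ∈ AB ℤ (p + p), ext (t (n * p)) (D p n x (R.erase (i + 1)) *
      (ob (cab p b) * shA (i * p) Y)) = Φ (x * Y) := by
    intro Y hY
    rw [e1, (D_comm hx hi0 hx).eq, mul_assoc, ht.ext_comm hxi (AB_mul hd (AB_mul hc (hblk Y hY)))]
    have := rot i (Or.inl rfl) x hx Y hY
    rw [hΦ, Phi_apply, map_mul (shA (i * p)), this]
    simp only [mul_assoc]
  have c1 := conv _ hX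
  have c2 := conv _ hXi
  rw [shA_ob, ← map_mul ob, ← cab_sg, ← map_mul] at c1
  rw [shA_ob, map_inv, ← map_mul ob, ← cab_sg, ← map_inv, ← map_mul] at c2
  rw [c1, c2, hself]
  congr 1
  rw [hΦ, Phi_apply, map_mul (shA (i * p)), shA_shA, show p + i * p = (i + 1) * p by ring, e2]
  have hx2 : shA ((i + 1) * p) x ∈ AB ℤ (n * p) := shA_block_mem (by omega) hx
  have e3 : D p n x R0 * shA (i * p) x * shA ((i + 1) * p) x =
      (shA (i * p) x * shA ((i + 1) * p) x) * D p n x R0 := by
    rw [mul_assoc]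
    exact ((D_comm hx hi0 hx).mul_right (D_comm hx hi1 hx)).eq
  rw [e3, mul_assoc (shA (i * p) x * shA ((i + 1) * p) x),
    ht.ext_comm (AB_mul hxi hx2) (AB_mul hd hc)]

end

end Pool.Agent.Lib.Pe17fed
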