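import Mathlib
import Pool.Agent.Lib.Pe17fed.Moves

/-! Crossing changes between two components and stabilisation, for decorated cables. -/

namespace Pool.Agent.Lib.Pe17fed

open Equiv Equiv.Perm

variable {S : Type*} [CommRing S]

variable {k : Type*} [CommRing k]

theorem X_mulA {p : ℕ} {u : A k} (hu : u ∈ AB k p) : ob (X p p) * u = shA p u * ob (X p p) := by
  refine AB_induction (P := fun u => ob (X p p) * u = shA p u * ob (X p p)) ?_ ?_ ?_ ?_ hu
  · simp
  · intro b hb
    rw [shA_ob, ← map_mul, X_mul hb, map_mul]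
  · intro x y hx hy
    rw [map_add, mul_add, hx, hy, add_mul]
  · intro r x hx
    rw [map_smul, mul_smul_comm, hx, smul_mul_assoc]

theorem X_mul_shA {p : ℕ} {u : A k} (hu : u ∈ AB k p) : ob (X p p) * shA p u = u * ob (X p p) := by
  refine AB_induction (P := fun u => ob (X p p) * shA p u = u * ob (X p p)) ?_ ?_ ?_ ?_ hu
  · simp
  · intro b hb
    rw [shA_ob, ← map_mul, X_mul_sh hb, map_mul]
  · intro x y hx hy
    rw [map_add, mul_add, hx, hy, add_mul]
  · intro r x hx
    rw [map_smul, mul_smul_comm, hx, smul_mul_assoc]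

theorem X_commute {p : ℕ} {x : A k} (hx : x ∈ AB k p) : Commute (x * shA p x) (ob (X p p)) := by
  show x * shA p x * ob (X p p) = ob (X p p) * (x * shA p x)
  have h := comm_shA (le_refl p) hx x
  rw [← mul_assoc, X_mulA hx, mul_assoc (shA p x), X_mul_shA hx, ← mul_assoc, h.eq]

theorem X_commute_inv {p : ℕ} {x : A k} (hx : x ∈ AB k p) :
    Commute (x * shA p x) (ob (X p p)⁻¹) := by
  have h := X_commute hx
  have e1 : (ob (X p p)⁻¹ * ob (X p p) : A k) = 1 := by rw [← map_mul]; simp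
  have e2 : (ob (X p p) * ob (X p p)⁻¹ : A k) = 1 := by rw [← map_mul]; simp
  show x * shA p x * ob (X p p)⁻¹ = ob (X p p)⁻¹ * (x * shA p x)
  calc x * shA p x * ob (X p p)⁻¹
      = (ob (X p p)⁻¹ * ob (X p p)) * (x * shA p x) * ob (X p p)⁻¹ := by rw [e1, one_mul]
    _ = ob (X p p)⁻¹ * (ob (X p p) * (x * shA p x)) * ob (X p p)⁻¹ := by simp only [mul_assoc]
    _ = ob (X p p)⁻¹ * (x * shA p x) * (ob (X p p) * ob (X p p)⁻¹) := by
        rw [← h.eq]; simp only [mul_assoc]
    _ = _ := by rw [e2, mul_one]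

theorem first_hit_other {π : Perm ℕ} (hπ : Per π) {i j : ℕ} (hij : i ≠ j) (h : π.SameCycle i j) :
    ∃ k, 1 ≤ k ∧ (π ^ k) i = j ∧ ∀ l, 1 ≤ l → l < k → (π ^ l) i ≠ i ∧ (π ^ l) i ≠ j := by
  obtain ⟨k, hk, hkJ, hkl⟩ := first_hit hπ {i, j} (Finset.mem_insert_self i {j})
  have hkl' : ∀ l, 1 ≤ l → l < k → (π ^ l) i ≠ i ∧ (π ^ l) i ≠ j := by
    intro l h1 h2
    have := hkl l h1 h2
    simp only [Finset.mem_insert, Finset.mem_singleton, not_or] at this
    exact this
  refine ⟨k, hk, ?_, hkl'⟩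
  simp only [Finset.mem_insert, Finset.mem_singleton] at hkJ
  rcases hkJ with h1 | h1
  · exfalso
    obtain ⟨m, hm⟩ := hπ.exists_pow h
    have h2 : (π ^ m) i = (π ^ (m % k)) i := by
      have e : (π ^ m) i = (π ^ (m % k)) ((π ^ (k * (m / k))) i) := by
        rw [← mul_apply, ← pow_add, Nat.mod_add_div]
      have e2 : (π ^ (k * (m / k))) i = i := by
        rw [pow_mul]; exact pow_apply_eq_self_of_apply_eq_self h1 _
      rw [e, e2]
    rw [h2] at hm
    rcases Nat.eq_zero_or_pos (m % k) with h3 | h3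
    · rw [h3] at hm; exact hij hm
    · exact (hkl' (m % k) h3 (Nat.mod_lt _ (by omega))).2 hm
  · exact h1

section

variable {z a ai δ : S} {t : ℕ → Br → S} (ht : Markov z a ai δ t)

include ht

/-- Crossing change between two components. -/
theorem Markov.linking_crossing (hg : GSkein z t) {p n : ℕ} {κ : S} (hp : 0 < p)
    (HF : HeckeFacts p z κ) {b : Br}
    (hb : b ∈ BB n) {i : ℕ} (hin : i + 1 < n) {R : Finset ℕ} (hR : Tr n (perm b) R)
    (hi : i ∈ R) (hs : (perm b).SameCycle i (i + 1)) :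
    ext (t (n * p)) (D p n (xp ℤ p) (insert (i + 1) R) * ob (cab p (b * sg i))) =
      ext (t (n * p)) (D p n (xp ℤ p) (insert (i + 1) R) * ob (cab p (b * (sg i)⁻¹))) := by
  have hx := xp_mem (k := ℤ) hp
  set x := xp ℤ p with hxdef
  set R0 := R.erase i with hR0
  have hi' : i + 1 ∉ R := fun h => by
    have := hR.un i hi (i + 1) h hs
    omega
  have hi0 : i ∉ R0 := Finset.notMem_erase _ _
  have hi1 : i + 1 ∉ R0 := fun h => hi' (Finset.mem_of_mem_erase h)
  have hR0R : ∀ j ∈ R0, j ∈ R := fun j hj => Finset.mem_of_mem_erase hj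
  have e1 : D p n x R = D p n x R0 * shA (i * p) x := by
    rw [← D_insert hx hi0 (by omega), hR0, Finset.insert_erase hi]
  have e2 : D p n x (insert (i + 1) R) = D p n x R0 * shA (i * p) x * shA ((i + 1) * p) x := by
    rw [← e1, D_insert hx hi' hin]
  have hd : D p n x R0 ∈ AB ℤ (n * p) := D_mem hx _
  have hc : ob (cab p b) ∈ AB ℤ (n * p) := ob_mem (cab_mem hb)
  have hxi : shA (i * p) x ∈ AB ℤ (n * p) := shA_block_mem (by omega) hx
  have hxi2 : shA ((i + 1) * p) x ∈ AB ℤ (n * p) := shA_block_mem (by omega) hx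
  have hle : p + p + i * p ≤ n * p := by
    calc p + p + i * p = (i + 2) * p := by ring
      _ ≤ n * p := Nat.mul_le_mul_right _ (by omega)
  set Φ := Phi t (n * p) (D p n x R0 * ob (cab p b)) (i * p) with hΦ
  have hcomm : ∀ y ∈ AB ℤ (p + p), ∀ v ∈ AB ℤ p, ∀ j, j ≠ i → j ≠ i + 1 →
      Commute (shA (i * p) y) (shA (j * p) v) := by
    intro y hy v hv j h1 h2
    rcases Nat.lt_or_ge j i with h | h
    · refine (comm_shA (m := p + j * p) ?_ (shA_mem hv) y).symm
      calc p + j * p = (j + 1) * p := by ring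
        _ ≤ i * p := Nat.mul_le_mul_right _ h
    · refine comm_shA (m := p + p + i * p) ?_ (shA_mem hy) v
      calc p + p + i * p = (i + 2) * p := by ring
        _ ≤ j * p := Nat.mul_le_mul_right _ (by omega)
  have hblk : ∀ y ∈ AB ℤ (p + p), shA (i * p) y ∈ AB ℤ (n * p) := fun y hy =>
    AB_mono hle (shA_mem hy)
  have sc : ∀ (j l : ℕ), (perm b).SameCycle j (((perm b) ^ l) j) := fun j l =>
    ⟨(l : ℤ), by rw [zpow_natCast]⟩
  -- the general rotation
  have rot : ∀ j j', (j = i ∧ j' = i + 1 ∨ j = i + 1 ∧ j' = i) → ∀ v ∈ AB ℤ p, ∀ y ∈ AB ℤ (p + p),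
      ext (t (n * p)) (D p n x R0 * ob (cab p b) * (shA (j * p) v * shA (i * p) y)) =
      ext (t (n * p)) (D p n x R0 * ob (cab p b) * (shA (i * p) y * shA (j' * p) v)) := by
    intro j j' hj v hv y hy
    have hjn : j < n := by omega
    have hij : (perm b).SameCycle i j := by
      rcases hj with ⟨rfl, rfl⟩ | ⟨rfl, rfl⟩
      · exact SameCycle.refl _ _
      · exact hs
    have hjj : (perm b).SameCycle j j' := by
      rcases hj with ⟨rfl, rfl⟩ | ⟨rfl, rfl⟩
      · exact hs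
      · exact hs.symm
    have hun : ∀ l, ((perm b) ^ l) j ∉ R0 := by
      intro l h
      have := hR.un i hi _ (hR0R _ h) (hij.trans (sc j l))
      rw [← this] at h
      exact hi0 h
    obtain ⟨k, hk, hkJ, hkl⟩ := first_hit_other (per_perm hb) (show j ≠ j' by omega) hjj
    have := ht.around hb hd (hblk y hy) hjn hv hk (fun l hl hlk => ⟨D_comm hx (hun l) hv, ?_⟩)
      (D_comm hx (hun k) hv)
    · rw [hkJ] at this; exact this
    · have h1 := hkl l hl hlk
      refine hcomm y hy v hv _ ?_ ?_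
      · rcases hj with ⟨rfl, rfl⟩ | ⟨rfl, rfl⟩
        · exact h1.1
        · exact h1.2
      · rcases hj with ⟨rfl, rfl⟩ | ⟨rfl, rfl⟩
        · exact h1.2
        · exact h1.1
  have hlink := HF.linking Φ (skein_Phi hg _ _ _)
    (by
      intro u hu y hy
      simp only [hΦ, Phi_apply, map_mul, shA_shA]
      rw [show p + i * p = (i + 1) * p by ring]
      exact rot i (i + 1) (Or.inl ⟨rfl, rfl⟩) u hu y hy)
    (by
      intro u hu y hy
      simp only [hΦ, Phi_apply, map_mul, shA_shA]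
      rw [show p + i * p = (i + 1) * p by ring]
      exact rot (i + 1) i (Or.inr ⟨rfl, rfl⟩) u hu y hy)
  have hX : ob (X p p) ∈ AB ℤ (p + p) := ob_mem (X_mem p p)
  have hXi : ob (X p p)⁻¹ ∈ AB ℤ (p + p) := ob_mem (Subgroup.inv_mem _ (X_mem p p))
  -- conversion of the decorated cables
  have conv : ∀ Y ∈ AB ℤ (p + p), Commute (x * shA p x) Y →
      ext (t (n * p)) (D p n x (insert (i + 1) R) *
      (ob (cab p b) * shA (i * p) Y)) = Φ (x * shA p x * Y) := by
    intro Y hY hYc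
    have e3 : D p n x R0 * shA (i * p) x * shA ((i + 1) * p) x =
        (shA (i * p) x * shA ((i + 1) * p) x) * D p n x R0 := by
      rw [mul_assoc]
      exact ((D_comm hx hi0 hx).mul_right (D_comm hx hi1 hx)).eq
    rw [hYc.eq, e2, e3, mul_assoc (shA (i * p) x * shA ((i + 1) * p) x),
      ht.ext_comm (AB_mul hxi hxi2) (AB_mul hd (AB_mul hc (hblk Y hY)))]
    rw [hΦ, Phi_apply, map_mul (shA (i * p)), map_mul (shA (i * p)), shA_shA,
      show p + i * p = (i + 1) * p by ring]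
    simp only [mul_assoc]
  have c1 := conv _ hX (X_commute hx)
  have c2 := conv _ hXi (X_commute_inv hx)
  rw [shA_ob, ← map_mul ob, ← cab_sg, ← map_mul] at c1
  rw [shA_ob, map_inv, ← map_mul ob, ← cab_sg, ← map_inv, ← map_mul] at c2
  rw [c1, c2, hlink]

/-- Positive stabilisation. -/
theorem Markov.stab_cab (hg : GSkein z t) {p n : ℕ} {κ : S} (hp : 0 < p)
    (HF : HeckeFacts p z κ) {b : Br}
    (hb : b ∈ BB (n + 1)) {R : Finset ℕ} (hR : Tr (n + 1) (perm b) R) (hn : n ∈ R) :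
    ext (t ((n + 2) * p)) (D p (n + 2) (xp ℤ p) R * ob (cab p (b * sg n))) =
      κ * a ^ p * ext (t ((n + 1) * p)) (D p (n + 1) (xp ℤ p) R * ob (cab p b)) := by
  have hx := xp_mem (k := ℤ) hp
  set x := xp ℤ p with hxdef
  have hn1 : n + 1 ∉ R := fun h => by
    have := hR.lt _ h
    omega
  set R0 := R.erase n with hR0
  have hn0 : n ∉ R0 := Finset.notMem_erase _ _
  have hR0R : ∀ j ∈ R0, j ∈ R := fun j hj => Finset.mem_of_mem_erase hj
  have e1 : D p (n + 1) x R = D p (n + 1) x R0 * shA (n * p) x := by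
    rw [← D_insert hx hn0 (by omega), hR0, Finset.insert_erase hn]
  have hd : D p (n + 1) x R0 ∈ AB ℤ ((n + 1) * p) := D_mem hx _
  have hc : ob (cab p b) ∈ AB ℤ ((n + 1) * p) := ob_mem (cab_mem hb)
  have hD : D p (n + 1) x R ∈ AB ℤ ((n + 1) * p) := D_mem hx _
  have hxn : shA (n * p) x ∈ AB ℤ ((n + 1) * p) := shA_block_mem (by omega) hx
  have hnp : (n + 1) * p = n * p + p := by ring
  set Φ := Phi t ((n + 1) * p) (D p (n + 1) x R0 * ob (cab p b)) (n * p) with hΦ
  have hblk : ∀ y ∈ AB ℤ p, shA (n * p) y ∈ AB ℤ ((n + 1) * p) := fun y hy =>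
    shA_block_mem (by omega) hy
  have rot : ∀ v ∈ AB ℤ p, ∀ y ∈ AB ℤ p,
      ext (t ((n + 1) * p)) (D p (n + 1) x R0 * ob (cab p b) * (shA (n * p) v * shA (n * p) y)) =
      ext (t ((n + 1) * p)) (D p (n + 1) x R0 * ob (cab p b) * (shA (n * p) y * shA (n * p) v)) := by
    intro v hv y hy
    have hun : ∀ l, ((perm b) ^ l) n ∉ R0 := by
      intro l h
      have := hR.un n hn _ (hR0R _ h) ⟨(l : ℤ), by rw [zpow_natCast]⟩
      rw [← this] at h
      exact hn0 h
    obtain ⟨k, hk, hkJ, hkl⟩ := first_hit (per_perm hb) {n} (Finset.mem_singleton_self n)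
    rw [Finset.mem_singleton] at hkJ
    have := ht.around hb hd (hblk y hy) (by omega) hv hk
      (fun l hl hlk => ⟨D_comm hx (hun l) hv, ?_⟩) (D_comm hx (hun k) hv)
    · rw [hkJ] at this; exact this
    · have h1 := hkl l hl hlk
      rw [Finset.mem_singleton] at h1
      exact comm_blocks (Ne.symm h1) hy hv
  have htw := HF.twist Φ (skein_Phi hg _ _ _)
    (by
      intro u hu v hv
      simp only [hΦ, Phi_apply, map_mul]
      exact rot u hu v hv)
  have hcm : c (p - 1) ∈ BB p := by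
    have := c_mem (p - 1)
    rwa [Nat.sub_add_cancel hp] at this
  have hFT : ob (c (p - 1) ^ p) ∈ AB ℤ p := ob_mem (Subgroup.pow_mem _ hcm _)
  have h1 := ht.close_X hp (m := n * p) (y := D p (n + 1) x R * ob (cab p b))
    (by rw [← hnp]; exact AB_mul hD hc) p 1 (Subgroup.one_mem _)
  rw [map_one, one_mul, mul_one] at h1
  rw [← hnp] at h1
  have h2 : ext (t ((n + 1) * p)) (D p (n + 1) x R * ob (cab p b) *
      ob (sh (n * p) (c (p - 1) ^ p))) = Φ (x * ob (c (p - 1) ^ p)) := by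
    rw [← shA_ob, e1, (D_comm hx hn0 hx).eq, mul_assoc, mul_assoc, ht.ext_comm hxn
      (AB_mul hd (AB_mul hc (hblk _ hFT))), hΦ, Phi_apply, map_mul (shA (n * p)),
      rot x hx _ hFT]
    simp only [mul_assoc]
  have h3 : Φ x = ext (t ((n + 1) * p)) (D p (n + 1) x R * ob (cab p b)) := by
    rw [hΦ, Phi_apply, e1, (D_comm hx hn0 hx).eq, mul_assoc (shA (n * p) x),
      ht.ext_comm hxn (AB_mul hd hc)]
  rw [D_succ hn1, (cab p).map_mul, cab_sg, ob.map_mul, ← mul_assoc,
    show (n + 2) * p = (n + 1) * p + p by ring, h1, h2, htw, ← hxdef, h3]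
  ring

end

end Pool.Agent.Lib.Pe17fed
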