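import Mathlib
import Pool.Agent.Lib.Pe17fed.Moves2

/-! The comparison of two families of invariants of closed braids by the induction principle. -/

namespace Pool.Agent.Lib.Pe17fed

open Equiv Equiv.Perm

theorem perm_mul_sg (b : Br) (i : ℕ) : perm (b * sg i) = perm b * swap i (i + 1) := by
  rw [map_mul, perm_sg]

theorem perm_mul_sg_inv (b : Br) (i : ℕ) : perm (b * (sg i)⁻¹) = perm b * swap i (i + 1) := by
  rw [map_mul, map_inv, perm_sg, swap_inv]

theorem Tr.conj {n : ℕ} {g : Br} (hg : g ∈ BB n) {π : Perm ℕ} {R : Finset ℕ}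
    (hR : Tr n (perm g * π * (perm g)⁻¹) R) : Tr n π (R.image ⇑(perm g)⁻¹) := by
  have hg' : ∀ x, x < n → (perm g)⁻¹ x < n := fun x hx => by
    rw [← map_inv]; exact perm_lt (Subgroup.inv_mem _ hg) hx
  refine ⟨?_, ?_, ?_⟩
  · intro x hx
    obtain ⟨r, hr, rfl⟩ := Finset.mem_image.1 hx
    exact hg' r (hR.lt r hr)
  · intro j hj
    obtain ⟨r, hr, h⟩ := hR.ex (perm g j) (perm_lt hg hj)
    rw [sameCycle_conj] at h
    refine ⟨_, Finset.mem_image_of_mem _ hr, ?_⟩
    have e : (perm g)⁻¹ (perm g j) = j := by rw [← mul_apply, inv_mul_cancel, one_apply]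
    rwa [e] at h
  · intro x hx y hy hxy
    obtain ⟨r, hr, rfl⟩ := Finset.mem_image.1 hx
    obtain ⟨s, hs, rfl⟩ := Finset.mem_image.1 hy
    rw [hR.un r hr s hs (by rw [sameCycle_conj]; exact hxy)]

theorem Tr.erase_fixed {n : ℕ} {π : Perm ℕ} {R : Finset ℕ} (hR : Tr (n + 1) π R) (hn : π n = n) :
    n ∈ R ∧ Tr n π (R.erase n) := by
  have fix : ∀ r, π.SameCycle n r → r = n := fun r h => (SameCycle.eq_of_left h hn).symm
  have h1 : n ∈ R := by
    obtain ⟨r, hr, h⟩ := hR.ex n (by omega)
    rw [fix r h] at hr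
    exact hr
  refine ⟨h1, ?_, ?_, ?_⟩
  · intro r hr
    have h2 := hR.lt r (Finset.mem_of_mem_erase hr)
    have h3 := Finset.ne_of_mem_erase hr
    omega
  · intro j hj
    obtain ⟨r, hr, h⟩ := hR.ex j (by omega)
    refine ⟨r, Finset.mem_erase.2 ⟨?_, hr⟩, h⟩
    rintro rfl
    have := fix j h.symm
    omega
  · intro r hr s hs h
    exact hR.un r (Finset.mem_of_mem_erase hr) s (Finset.mem_of_mem_erase hs) h

/-- The properties of a family of invariants of closed braids with a chosen strand on each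
component. -/
structure IsInv {S : Type*} [CommRing S] (z κ T P M : S) (E : ℕ → Finset ℕ → Br → S) : Prop where
  base : E 0 ∅ 1 = 1
  conj : ∀ n, ∀ g ∈ BB n, ∀ b ∈ BB n, ∀ R, Tr n (perm b) R →
    E n (R.image (perm g)) (g * b * g⁻¹) = E n R b
  exch : ∀ n, ∀ b ∈ BB n, ∀ R, Tr n (perm b) R → ∀ r ∈ R, ∀ i, i < n →
    (perm b).SameCycle r i → E n (insert i (R.erase r)) b = E n R b
  self : ∀ n, ∀ b ∈ BB n, ∀ i, i + 1 < n → ∀ R, Tr n (perm b) R → i ∈ R → i + 1 ∈ R →
    E n (R.erase (i + 1)) (b * sg i) - E n (R.erase (i + 1)) (b * (sg i)⁻¹) = κ * z * E n R b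
  link : ∀ n, ∀ b ∈ BB n, ∀ i, i + 1 < n → ∀ R, Tr n (perm b) R → i ∈ R →
    (perm b).SameCycle i (i + 1) →
    z * (E n (insert (i + 1) R) (b * sg i) - E n (insert (i + 1) R) (b * (sg i)⁻¹)) = T * E n R b
  stab : ∀ n, ∀ b ∈ BB n, ∀ R, Tr n (perm b) R → z * E (n + 1) (insert n R) b = (P - M) * E n R b
  stabp : ∀ n, ∀ b ∈ BB (n + 1), ∀ R, Tr (n + 1) (perm b) R → n ∈ R →
    E (n + 2) R (b * sg n) = κ * P * E (n + 1) R b

/-- **Comparison theorem.** -/
theorem IsInv.main {K S Λ : Type*} [CommRing K] [CommRing S] [CommRing Λ]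
    {zK aK aiK δK : K} {tK : ℕ → Br → K} (hK : Markov zK aK aiK δK tK)
    (hδ : zK * δK = aK - aiK) {z κ T P M : S} {E : ℕ → Finset ℕ → Br → S}
    (hE : IsInv z κ T P M E) (χ : Br →* S) (hχ : ∀ i, χ (sg i) = κ) (hκ : κ * κ = 1)
    (hκT : κ * T = T)
    {ιK : Λ →+* K} {ψ : Λ →+* S} {τ α αi : Λ}
    (k1 : ιK τ = zK ^ 2) (k2 : ιK α = aK) (k3 : ιK αi = aiK)
    (s1 : ψ τ = T) (s2 : ψ α = P) (s3 : ψ αi = M) :
    ∀ n, ∀ b ∈ BB n, ∀ R, Tr n (perm b) R →
      ∃ g : Λ, ιK g = zK ^ R.card * tK n b ∧ z ^ R.card * E n R b = χ b * ψ g := by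
  have hχ' : ∀ i, χ (sg i)⁻¹ = κ := by
    intro i
    have h1 : χ (sg i)⁻¹ * χ (sg i) = 1 := by rw [← map_mul]; simp
    rw [hχ] at h1
    calc χ (sg i)⁻¹ = χ (sg i)⁻¹ * (κ * κ) := by rw [hκ, mul_one]
      _ = κ := by rw [← mul_assoc, h1, one_mul]
  refine braid_induction (P := fun n b => ∀ R, Tr n (perm b) R →
      ∃ g : Λ, ιK g = zK ^ R.card * tK n b ∧ z ^ R.card * E n R b = χ b * ψ g) ?_ ?_ ?_ ?_ ?_
  · -- base
    intro R hR
    have : R = ∅ := by
      rw [Finset.eq_empty_iff_forall_notMem]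
      intro r hr
      have := hR.lt r hr
      omega
    subst this
    exact ⟨1, by simp [hK.empty], by simp [hE.base]⟩
  · -- conjugation
    intro n g hg b hb hP R hR
    rw [map_mul, map_mul, map_inv] at hR
    have hR' := hR.conj hg
    obtain ⟨w, hw1, hw2⟩ := hP _ hR'
    have hcard : (R.image ⇑(perm g)⁻¹).card = R.card :=
      Finset.card_image_of_injective _ (Equiv.injective _)
    rw [hcard] at hw1 hw2
    refine ⟨w, ?_, ?_⟩
    · rw [hw1, hK.comm n (g * b) (Subgroup.mul_mem _ hg hb) g⁻¹ (Subgroup.inv_mem _ hg)]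
      simp
    · have h1 := hE.conj n g hg b hb _ hR'
      rw [Finset.image_image] at h1
      have e : (R.image (⇑(perm g) ∘ ⇑(perm g)⁻¹)) = R := by
        have : (⇑(perm g) ∘ ⇑(perm g)⁻¹) = id := by
          funext x
          show perm g ((perm g)⁻¹ x) = x
          rw [← mul_apply, mul_inv_cancel, one_apply]
        rw [this, Finset.image_id]
      rw [e] at h1
      rw [h1, hw2]
      congr 1
      rw [map_mul, map_mul, mul_comm (χ g), mul_assoc, ← map_mul, mul_inv_cancel, map_one, mul_one]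
  · -- skein
    intro n i hi b hb hP
    have hsg := sg_mem hi
    have hb1 : b * sg i ∈ BB n := Subgroup.mul_mem _ hb hsg
    have hb2 : b * (sg i)⁻¹ ∈ BB n := Subgroup.mul_mem _ hb (Subgroup.inv_mem _ hsg)
    have hπ := per_perm hb
    have hπ' := hπ.mul_swap i (i + 1)
    have hne : i ≠ i + 1 := by omega
    have key : ∀ R, Tr n (perm b * swap i (i + 1)) R → ∃ G : Λ,
        ιK G = zK ^ R.card * (tK n (b * sg i) - tK n (b * (sg i)⁻¹)) ∧
        z ^ R.card * (E n R (b * sg i) - E n R (b * (sg i)⁻¹)) = χ (b * sg i) * ψ G := by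
      intro R hR
      obtain ⟨r, hr, hir⟩ := hR.ex i (by omega)
      have hR1 := hR.exchange hr (show i < n by omega) hir.symm
      set R1 := insert i (R.erase r) with hR1def
      have hiR1 : i ∈ R1 := Finset.mem_insert_self _ _
      have c1 := hR.card_eq hR1
      have x1 : E n R1 (b * sg i) = E n R (b * sg i) :=
        hE.exch n _ hb1 R (by rw [perm_mul_sg]; exact hR) r hr i (by omega)
          (by rw [perm_mul_sg]; exact hir.symm)
      have x2 : E n R1 (b * (sg i)⁻¹) = E n R (b * (sg i)⁻¹) :=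
        hE.exch n _ hb2 R (by rw [perm_mul_sg_inv]; exact hR) r hr i (by omega)
          (by rw [perm_mul_sg_inv]; exact hir.symm)
      by_cases hs : (perm b).SameCycle i (i + 1)
      · -- crossing between two components
        have hns := not_sameCycle_of hπ hne hs
        obtain ⟨s, hsR, his⟩ := hR1.ex (i + 1) hi
        have hsi : i ≠ s := by
          rintro rfl
          exact hns his.symm
        have hR2 := hR1.exchange hsR hi his.symm
        set R2 := insert (i + 1) (R1.erase s) with hR2def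
        have hiR2 : i ∈ R2 := Finset.mem_insert_of_mem (Finset.mem_erase.2 ⟨hsi, hiR1⟩)
        have hi1R2 : i + 1 ∈ R2 := Finset.mem_insert_self _ _
        have c2 := hR1.card_eq hR2
        have y1 : E n R2 (b * sg i) = E n R1 (b * sg i) :=
          hE.exch n _ hb1 R1 (by rw [perm_mul_sg]; exact hR1) s hsR (i + 1) hi
            (by rw [perm_mul_sg]; exact his.symm)
        have y2 : E n R2 (b * (sg i)⁻¹) = E n R1 (b * (sg i)⁻¹) :=
          hE.exch n _ hb2 R1 (by rw [perm_mul_sg_inv]; exact hR1) s hsR (i + 1) hi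
            (by rw [perm_mul_sg_inv]; exact his.symm)
        have hR3 := hR2.merge hπ' hne hiR2 hi1R2
        rw [mul_assoc, swap_mul_self, mul_one] at hR3
        obtain ⟨w, hw1, hw2⟩ := hP _ hR3
        have c3 : R.card = (R2.erase (i + 1)).card + 1 := by
          rw [Finset.card_erase_add_one hi1R2, c1, c2]
        have hl := hE.link n b hb i hi _ hR3 (Finset.mem_erase.2 ⟨hne, hiR2⟩) hs
        rw [Finset.insert_erase hi1R2] at hl
        refine ⟨τ * w, ?_, ?_⟩
        · rw [map_mul, k1, hw1, hK.skein n i hi b hb, c3]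
          ring
        · rw [← x1, ← x2, ← y1, ← y2, map_mul ψ, s1, c3, pow_succ]
          have hb3 : z ^ (R2.erase (i + 1)).card * z * (E n R2 (b * sg i) -
              E n R2 (b * (sg i)⁻¹)) = T * (z ^ (R2.erase (i + 1)).card *
                E n (R2.erase (i + 1)) b) := by
            linear_combination (z ^ (R2.erase (i + 1)).card) * hl
          rw [hb3, hw2, map_mul χ, hχ]
          linear_combination (-(χ b * ψ w)) * hκT
      · -- crossing of a component with itself
        have hs' := sameCycle_of_not hπ hs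
        have hi1R1 : i + 1 ∉ R1 := fun h => by
          have := hR1.un i hiR1 (i + 1) h hs'
          omega
        have hR2 := hR1.split hπ' hne hiR1 hi hs'
        rw [mul_assoc, swap_mul_self, mul_one] at hR2
        obtain ⟨w, hw1, hw2⟩ := hP _ hR2
        have c3 : (insert (i + 1) R1).card = R.card + 1 := by
          rw [Finset.card_insert_of_notMem hi1R1, c1]
        have hl := hE.self n b hb i hi _ hR2 (Finset.mem_insert_of_mem hiR1)
          (Finset.mem_insert_self _ _)
        rw [Finset.erase_insert hi1R1] at hl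
        rw [c3] at hw1 hw2
        refine ⟨w, ?_, ?_⟩
        · rw [hw1, hK.skein n i hi b hb]
          ring
        · rw [← x1, ← x2, hl, map_mul χ, hχ]
          linear_combination κ * hw2
    have hχ2 : χ (b * (sg i)⁻¹) = χ (b * sg i) := by
      rw [map_mul, map_mul, hχ, hχ']
    constructor
    · intro h R hR
      rw [perm_mul_sg_inv] at hR
      obtain ⟨G, hG1, hG2⟩ := key R hR
      obtain ⟨w, hw1, hw2⟩ := h R (by rw [perm_mul_sg]; exact hR)
      refine ⟨w - G, ?_, ?_⟩
      · rw [map_sub, hw1, hG1]; ring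
      · rw [map_sub, hχ2]; linear_combination hw2 - hG2
    · intro h R hR
      rw [perm_mul_sg] at hR
      obtain ⟨G, hG1, hG2⟩ := key R hR
      obtain ⟨w, hw1, hw2⟩ := h R (by rw [perm_mul_sg_inv]; exact hR)
      refine ⟨w + G, ?_, ?_⟩
      · rw [map_add, hw1, hG1]; ring
      · rw [map_add]; rw [hχ2] at hw2; linear_combination hw2 + hG2
  · -- adding a strand
    intro n b hb hP R hR
    obtain ⟨hnR, hR0⟩ := hR.erase_fixed (perm_fix hb le_rfl)
    obtain ⟨w, hw1, hw2⟩ := hP _ hR0
    have hl := hE.stab n b hb _ hR0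
    rw [Finset.insert_erase hnR] at hl
    have c3 : R.card = (R.erase n).card + 1 := (Finset.card_erase_add_one hnR).symm
    refine ⟨(α - αi) * w, ?_, ?_⟩
    · rw [map_mul, map_sub, k2, k3, hw1, hK.stab n b hb, c3, ← hδ]; ring
    · rw [map_mul, map_sub, s2, s3, c3, pow_succ, mul_assoc, hl]
      linear_combination (P - M) * hw2
  · -- stabilisation
    intro n b hb hP R hR
    rw [perm_mul_sg] at hR
    have hπ := per_perm hb
    have hπ' := hπ.mul_swap n (n + 1)
    have hne : n ≠ n + 1 := by omega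
    have hfix : perm b (n + 1) = n + 1 := perm_fix hb le_rfl
    have hs : ¬ (perm b).SameCycle n (n + 1) := fun h => by
      have := SameCycle.eq_of_left h.symm hfix
      omega
    have hb1 : b * sg n ∈ BB (n + 2) :=
      Subgroup.mul_mem _ (BB_mono (by omega) hb) (sg_mem (by omega))
    obtain ⟨r, hr, hir⟩ := hR.ex n (by omega)
    have hR1 := hR.exchange hr (show n < n + 2 by omega) hir.symm
    set R1 := insert n (R.erase r) with hR1def
    have hiR1 : n ∈ R1 := Finset.mem_insert_self _ _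
    have c1 := hR.card_eq hR1
    have x1 : E (n + 2) R1 (b * sg n) = E (n + 2) R (b * sg n) :=
      hE.exch (n + 2) _ hb1 R (by rw [perm_mul_sg]; exact hR) r hr n (by omega)
        (by rw [perm_mul_sg]; exact hir.symm)
    have hs' := sameCycle_of_not hπ hs
    have hi1R1 : n + 1 ∉ R1 := fun h => by
      have := hR1.un n hiR1 (n + 1) h hs'
      omega
    have hR2 := hR1.split hπ' hne hiR1 (by omega) hs'
    rw [mul_assoc, swap_mul_self, mul_one] at hR2
    have hR3 := (hR2.erase_fixed hfix).2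
    rw [Finset.erase_insert hi1R1] at hR3
    obtain ⟨w, hw1, hw2⟩ := hP _ hR3
    refine ⟨α * w, ?_, ?_⟩
    · rw [map_mul, k2, hw1, hK.stabp n b hb, c1]; ring
    · rw [map_mul ψ, s2, c1, ← x1, hE.stabp n b hb _ hR3 hiR1, map_mul χ, hχ]
      linear_combination (κ * P) * hw2

end Pool.Agent.Lib.Pe17fed
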