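import Mathlib
import Pool.Agent.Lib.Hecke59.Base
import Pool.Agent.Lib.Pe17fed.Moves

/-! The homomorphism from braids to the Hecke algebra, and the lift to the Hecke algebra of
functionals on the group algebra satisfying the skein relation. -/

namespace Pool.Agent.Lib.Pe17fed

open Hecke59 (Hk T Ti HH)

universe u

variable {S : Type u} [CommRing S] {z : S}

/-- The generator `T i` as a unit. -/
def uT (i : ℕ) : (Hk S z)ˣ := ⟨T i, Ti i, Hecke59.T_mul_Ti i, Hecke59.Ti_mul_T i⟩

/-- The homomorphism from braids to the Hecke algebra. -/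
def piB : Br →* (Hk S z)ˣ :=
  lift uT
    (by
      intro i j h
      ext
      exact Hecke59.T_comm h)
    (by
      intro i
      ext
      exact Hecke59.T_braid i)

@[simp] theorem piB_sg (i : ℕ) : (piB (sg i) : (Hk S z)ˣ) = uT i := lift_sg _ _ _ _

theorem piB_sg_val (i : ℕ) : ((piB (sg i) : (Hk S z)ˣ) : Hk S z) = T i := by
  rw [piB_sg]; rfl

theorem piB_sg_inv_val (i : ℕ) : ((piB (sg i)⁻¹ : (Hk S z)ˣ) : Hk S z) = Ti i := by
  rw [map_inv, piB_sg]; rfl

theorem piB_mem {n : ℕ} {b : Br} (hb : b ∈ BB n) :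
    ((piB b : (Hk S z)ˣ) : Hk S z) ∈ HH S z n := by
  have key : ∀ b ∈ BB n, ((piB b : (Hk S z)ˣ) : Hk S z) ∈ HH S z n ∧
      ((piB b⁻¹ : (Hk S z)ˣ) : Hk S z) ∈ HH S z n := by
    intro b hb
    refine BB_induction (P := fun b => ((piB b : (Hk S z)ˣ) : Hk S z) ∈ HH S z n ∧
      ((piB b⁻¹ : (Hk S z)ˣ) : Hk S z) ∈ HH S z n) ?_ ?_ ?_ ?_ hb
    · simp [one_mem]
    · intro i hi
      rw [piB_sg_val, piB_sg_inv_val]
      exact ⟨Hecke59.T_mem hi, Hecke59.Ti_mem hi⟩
    · rintro a b ⟨h1, h2⟩ ⟨h3, h4⟩
      rw [mul_inv_rev, map_mul, map_mul, Units.val_mul, Units.val_mul]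
      exact ⟨mul_mem h1 h3, mul_mem h4 h2⟩
    · rintro a ⟨h1, h2⟩
      rw [inv_inv]
      exact ⟨h2, h1⟩
  exact (key b hb).1

theorem piB_sh (j : ℕ) (b : Br) :
    ((piB (sh j b) : (Hk S z)ˣ) : Hk S z) = Hecke59.sh j ((piB b : (Hk S z)ˣ) : Hk S z) := by
  have : piB.comp (sh j) = (Units.map ((Hecke59.sh j : Hk S z →ₐ[S] Hk S z) : Hk S z →* Hk S z)).comp
      (piB (S := S) (z := z)) := by
    apply PresentedGroup.ext
    intro i
    ext
    show ((piB (sh j (sg i)) : (Hk S z)ˣ) : Hk S z) = Hecke59.sh j ((piB (sg i) : (Hk S z)ˣ) : Hk S z)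
    rw [sh_sg, piB_sg_val, piB_sg_val, Hecke59.sh_T]
  exact congrArg (fun u : (Hk S z)ˣ => (u : Hk S z)) (DFunLike.congr_fun this b)

section

variable {k : Type*} [CommRing k] [Algebra k S]

/-- The homomorphism from the group algebra of the braid group to the Hecke algebra. -/
noncomputable def piA : A k →+* Hk S z :=
  MonoidAlgebra.liftNCRingHom ((algebraMap S (Hk S z)).comp (algebraMap k S))
    ((Units.coeHom (Hk S z)).comp piB)
    (fun r b => Algebra.commutes (algebraMap k S r) ((piB b : (Hk S z)ˣ) : Hk S z))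

theorem piA_single (b : Br) (r : k) :
    (piA (MonoidAlgebra.single b r : A k) : Hk S z) =
      algebraMap S (Hk S z) (algebraMap k S r) * (piB b : (Hk S z)ˣ) := by
  simp only [piA, MonoidAlgebra.liftNCRingHom]
  exact MonoidAlgebra.liftNC_single _ _ _ _

@[simp] theorem piA_ob (b : Br) : (piA (ob b : A k) : Hk S z) = (piB b : (Hk S z)ˣ) := by
  show piA (MonoidAlgebra.single b 1) = _
  rw [piA_single, map_one, map_one, one_mul]

theorem piA_smul (r : k) (x : A k) : (piA (r • x) : Hk S z) = algebraMap k S r • piA x := by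
  rw [Algebra.smul_def, map_mul, Algebra.smul_def]
  congr 1
  have : algebraMap k (A k) r = MonoidAlgebra.single 1 r := rfl
  rw [this, piA_single, map_one, Units.val_one, mul_one]

theorem piA_mem {n : ℕ} {x : A k} (hx : x ∈ AB k n) : (piA x : Hk S z) ∈ HH S z n := by
  refine AB_induction (P := fun x => (piA x : Hk S z) ∈ HH S z n) ?_ ?_ ?_ ?_ hx
  · rw [map_zero]; exact zero_mem _
  · intro b hb; rw [piA_ob]; exact piB_mem hb
  · intro x y hx hy; rw [map_add]; exact add_mem hx hy
  · intro r x hx; rw [piA_smul]; exact Subalgebra.smul_mem _ hx _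

theorem piA_shA (j : ℕ) (x : A k) : (piA (shA j x) : Hk S z) = Hecke59.sh j (piA x) := by
  refine A_induction (P := fun x => (piA (shA j x) : Hk S z) = Hecke59.sh j (piA x)) ?_ ?_ ?_ x
  · intro b; rw [shA_ob, piA_ob, piA_ob, piB_sh]
  · intro x y hx hy; rw [map_add, map_add, hx, hy, map_add, map_add]
  · intro r x hx; rw [map_smul, piA_smul, hx, piA_smul, map_smul]

end

/-! ### The lift of functionals -/

section lift

/-- The functionals on the group algebra satisfying the skein relation. -/
def Wsk (S : Type u) [CommRing S] (z : S) : Submodule S (A S →ₗ[S] S) where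
  carrier := {Ψ | SkeinA z Ψ}
  add_mem' := by
    intro a b ha hb i x y
    have h1 := ha i x y
    have h2 := hb i x y
    simp only [LinearMap.add_apply]
    linear_combination h1 + h2
  zero_mem' := by
    intro i x y
    simp
  smul_mem' := by
    intro r a ha i x y
    have h1 := ha i x y
    simp only [LinearMap.smul_apply, smul_eq_mul]
    linear_combination r * h1

/-- The functionals satisfying the skein relation, as a type. -/
def WT (S : Type u) [CommRing S] (z : S) : Type u := Wsk S z

noncomputable instance : AddCommGroup (WT S z) := inferInstanceAs (AddCommGroup (Wsk S z))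
noncomputable instance : Module S (WT S z) := inferInstanceAs (Module S (Wsk S z))

/-- Translation of functionals. -/
noncomputable def act (c : A S) : Module.End S (WT S z) where
  toFun Ψ := ⟨Ψ.1 ∘ₗ LinearMap.mulRight S c, by
    intro i x y
    have := Ψ.2 i x (y * c)
    simpa only [LinearMap.comp_apply, LinearMap.mulRight_apply, mul_assoc] using this⟩
  map_add' Ψ Ψ' := by
    apply Subtype.ext; rfl
  map_smul' r Ψ := by
    apply Subtype.ext; rfl

theorem act_apply (c : A S) (Ψ : WT S z) (y : A S) : (act c Ψ).1 y = Ψ.1 (y * c) := rfl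

theorem act_mul (c d : A S) : (act (c * d) : Module.End S (WT S z)) = act c * act d := by
  apply LinearMap.ext
  intro Ψ
  apply Subtype.ext
  apply LinearMap.ext
  intro y
  rw [Module.End.mul_apply, act_apply, act_apply, act_apply, mul_assoc]

theorem act_one : (act 1 : Module.End S (WT S z)) = 1 := by
  apply LinearMap.ext
  intro Ψ
  apply Subtype.ext
  apply LinearMap.ext
  intro y
  rw [act_apply, mul_one]
  rfl

/-- The action of the Hecke algebra on the functionals. -/
noncomputable def theta : Hk S z →ₐ[S] Module.End S (WT S z) :=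
  Hecke59.lift (fun i => (act (ob (sg i)) : Module.End S (WT S z)))
    (by
      intro i
      rw [← act_mul]
      apply LinearMap.ext
      intro Ψ
      apply Subtype.ext
      apply LinearMap.ext
      intro y
      have h := Ψ.2 i (y * ob (sg i)) 1
      have e : y * ob (sg i) * ob (sg i)⁻¹ * 1 = y := by
        rw [mul_one, mul_assoc, ← map_mul, mul_inv_cancel, map_one, mul_one]
      rw [e, mul_one, mul_one] at h
      show Ψ.1 (y * (ob (sg i) * ob (sg i))) = z * Ψ.1 (y * ob (sg i)) + Ψ.1 y
      rw [← mul_assoc]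
      linear_combination h)
    (by
      intro i j h
      rw [← act_mul, ← act_mul, ← map_mul, ← map_mul, sg_comm h])
    (by
      intro i
      rw [← act_mul, ← act_mul, ← act_mul, ← act_mul, ← map_mul, ← map_mul, ← map_mul,
        ← map_mul, sg_braid])

theorem theta_T (i : ℕ) : (theta (T i) : Module.End S (WT S z)) = act (ob (sg i)) :=
  Hecke59.lift_T _ _ _ _ _

theorem theta_ob (b : Br) :
    (theta ((piB b : (Hk S z)ˣ) : Hk S z) : Module.End S (WT S z)) = act (ob b) := by
  refine Br_induction (P := fun b =>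
    (theta ((piB b : (Hk S z)ˣ) : Hk S z) : Module.End S (WT S z)) = act (ob b)) ?_ ?_ ?_ ?_ b
  · rw [map_one, map_one, Units.val_one, map_one, act_one]
  · intro i
    rw [piB_sg_val, theta_T]
  · intro a b ha hb
    rw [map_mul, Units.val_mul, map_mul, ha, hb, map_mul, act_mul]
  · intro a ha
    have h1 : (theta ((piB a⁻¹ : (Hk S z)ˣ) : Hk S z) : Module.End S (WT S z)) *
        act (ob a) = 1 := by
      rw [← ha, ← map_mul, ← Units.val_mul, ← map_mul, inv_mul_cancel, map_one, Units.val_one,
        map_one]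
    have h2 : (act (ob a) : Module.End S (WT S z)) * act (ob a⁻¹) = 1 := by
      rw [← act_mul, ← map_mul, mul_inv_cancel, map_one, act_one]
    calc theta ((piB a⁻¹ : (Hk S z)ˣ) : Hk S z)
        = theta ((piB a⁻¹ : (Hk S z)ˣ) : Hk S z) * (act (ob a) * act (ob a⁻¹)) := by
          rw [h2, mul_one]
      _ = _ := by rw [← mul_assoc, h1, one_mul]

variable {k : Type*} [CommRing k] [Algebra k S]

/-- **Lift**: a functional satisfying the skein relation factors through the Hecke algebra. -/
theorem exists_lift {Φ : A k →ₗ[k] S} (hΦ : SkeinA z Φ) :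
    ∃ φ : Hk S z →ₗ[S] S, ∀ x, φ (piA x) = Φ x := by
  have hΨ : SkeinA z (ext (fun b => Φ (ob b)) : A S →ₗ[S] S) := by
    refine GSkein.ext_skein (t := fun _ b => Φ (ob b)) ?_ 0
    intro n i a b
    have := hΦ i (ob a) (ob b)
    simpa only [← map_mul] using this
  obtain ⟨Ψ, hΨ2⟩ : ∃ Ψ : WT S z, Ψ.1 = ext (fun b => Φ (ob b)) := ⟨⟨_, hΨ⟩, rfl⟩
  refine ⟨{ toFun := fun h => (theta h Ψ).1 1,
            map_add' := ?_, map_smul' := ?_ }, ?_⟩
  · intro x y
    rw [map_add]; rfl
  · intro r x
    rw [map_smul]; rfl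
  · intro x
    show (theta (piA x) Ψ).1 1 = Φ x
    refine A_induction (P := fun x => (theta (piA x) Ψ).1 1 = Φ x) ?_ ?_ ?_ x
    · intro b
      rw [piA_ob, theta_ob, act_apply, one_mul, hΨ2, ext_ob]
    · intro x y hx hy
      rw [map_add, map_add, map_add, ← hx, ← hy]; rfl
    · intro r x hx
      rw [piA_smul, map_smul, map_smul, ← hx, Algebra.smul_def (R := k)]; rfl

end lift

end Pool.Agent.Lib.Pe17fed
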