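import Mathlib
import Pool.Agent.Lib.Pe17fed.Assembly

/-! Integrality of the invariants of closed braids and of their decorated cables, and the
comparison of the decorated cable with the Adams operation in a ring where the facts on Hecke
algebras hold. -/

namespace Pool.Agent.Lib.Pe17fed

open Equiv Equiv.Perm

/-- The value on the `p`-cable of the closure of `b`, decorated by `xp p` at the strands in `R`. -/
noncomputable def Ec {S : Type*} [CommRing S] (t : ℕ → Br → S) (p n : ℕ) (R : Finset ℕ) (b : Br) :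
    S :=
  ext (t (n * p)) (D p n (xp ℤ p) R * ob (cab p b))

theorem Markov.isInv_one {S : Type*} [CommRing S] {z a ai δ : S} {t : ℕ → Br → S}
    (ht : Markov z a ai δ t) (hδ : z * δ = a - ai) :
    IsInv z 1 (z ^ 2) a ai (fun n _ b => t n b) where
  base := ht.empty
  conj := by
    intro n g hg b hb R _
    show t n (g * b * g⁻¹) = t n b
    rw [ht.comm n (g * b) (Subgroup.mul_mem _ hg hb) g⁻¹ (Subgroup.inv_mem _ hg)]
    simp
  exch := by
    intro n b _ R _ r _ i _ _
    rfl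
  self := by
    intro n b hb i hi R _ _ _
    show t n (b * sg i) - t n (b * (sg i)⁻¹) = 1 * z * t n b
    rw [ht.skein n i hi b hb, one_mul]
  link := by
    intro n b hb i hi R _ _ _
    show z * (t n (b * sg i) - t n (b * (sg i)⁻¹)) = z ^ 2 * t n b
    rw [ht.skein n i hi b hb]; ring
  stab := by
    intro n b hb R _
    show z * t (n + 1) b = (a - ai) * t n b
    rw [ht.stab n b hb, ← hδ]; ring
  stabp := by
    intro n b hb R _ _
    show t (n + 2) (b * sg n) = 1 * a * t (n + 1) b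
    rw [ht.stabp n b hb, one_mul]

theorem Markov.isInv_cab {S : Type*} [CommRing S] {z a ai δ κ : S} {t : ℕ → Br → S}
    (ht : Markov z a ai δ t) (hg : GSkein z t) (hδ : z * δ = a - ai) {p : ℕ} (hp : 0 < p)
    (HF : HeckeFacts p z κ) :
    IsInv z κ 0 (a ^ p) (ai ^ p) (Ec t p) where
  base := by
    show ext (t (0 * p)) (D p 0 (xp ℤ p) ∅ * ob (cab p 1)) = 1
    rw [D_empty, one_mul, map_one, ext_ob, Nat.zero_mul, ht.empty]
  conj := by
    intro n g hg b hb R hR
    show ext (t (n * p)) (D p n (xp ℤ p) (R.image (perm g)) * ob (cab p (g * b * g⁻¹))) =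
      ext (t (n * p)) (D p n (xp ℤ p) R * ob (cab p b))
    have hx := xp_mem (k := ℤ) hp
    have h1 : D p n (xp ℤ p) (R.image (perm g)) * ob (cab p (g * b * g⁻¹)) =
        ob (cab p g) * (D p n (xp ℤ p) R * ob (cab p b) * ob (cab p g⁻¹)) := by
      have h2 := D_slide hx hg hR.lt
      simp only [map_mul]
      rw [← mul_assoc, ← mul_assoc, ← h2]
      simp only [mul_assoc]
    rw [h1, ht.ext_comm (ob_mem (cab_mem hg)) (AB_mul (AB_mul (D_mem hx R) (ob_mem (cab_mem hb)))
      (ob_mem (cab_mem (Subgroup.inv_mem _ hg)))), mul_assoc (D p n (xp ℤ p) R * ob (cab p b)),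
      ← map_mul ob, ← map_mul, inv_mul_cancel, map_one, map_one, mul_one]
  exch := by
    intro n b hb R hR r hr i hi hri
    exact ht.exchange hb (xp_mem (k := ℤ) hp) hR hr hi hri
  self := by
    intro n b hb i hi R hR h1 h2
    exact ht.self_crossing hg hp HF hb hi hR h1 h2
  link := by
    intro n b hb i hi R hR h1 h2
    show z * (ext _ _ - ext _ _) = _
    rw [ht.linking_crossing hg hp HF hb hi hR h1 h2, sub_self, mul_zero, zero_mul]
  stab := by
    intro n b hb R hR
    have hn : n ∉ R := fun h => by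
      have := hR.lt n h
      omega
    show z * ext (t ((n + 1) * p)) (D p (n + 1) (xp ℤ p) (insert n R) * ob (cab p b)) = _
    rw [D_insert (xp_mem (k := ℤ) hp) hn (by omega), D_succ hn, mul_assoc,
      ← (comm_shA le_rfl (ob_mem (cab_mem (p := p) hb)) (xp ℤ p)).eq, ← mul_assoc,
      show (n + 1) * p = n * p + p by ring,
      ht.close_xp hδ hp (AB_mul (D_mem (xp_mem (k := ℤ) hp) R) (ob_mem (cab_mem hb)))]
    rfl
  stabp := by
    intro n b hb R hR hn
    exact ht.stab_cab hg hp HF hb hR hn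

section

variable {K S Λ : Type*} [CommRing K] [CommRing S] [CommRing Λ]
    {zK aK aiK δK : K} {tK : ℕ → Br → K} (hK : Markov zK aK aiK δK tK)
    (hδ : zK * δK = aK - aiK)
    {zS aS aiS δS : S} {tS : ℕ → Br → S} (hS : Markov zS aS aiS δS tS)
    (hδS : zS * δS = aS - aiS)
    {ιK : Λ →+* K} {ιS : Λ →+* S} {τ α αi : Λ}
    (k1 : ιK τ = zK ^ 2) (k2 : ιK α = aK) (k3 : ιK αi = aiK)
    (s1 : ιS τ = zS ^ 2) (s2 : ιS α = aS) (s3 : ιS αi = aiS)

include hK hδ hS hδS k1 k2 k3 s1 s2 s3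

/-- Integrality of the invariant of a closed braid. -/
theorem integral_one {n : ℕ} {b : Br} (hb : b ∈ BB n) {R : Finset ℕ} (hR : Tr n (perm b) R) :
    ∃ g : Λ, ιK g = zK ^ R.card * tK n b ∧ ιS g = zS ^ R.card * tS n b := by
  obtain ⟨g, h1, h2⟩ := (hS.isInv_one hδS).main hK hδ 1 (fun _ => rfl) (by ring) (by ring)
    k1 k2 k3 s1 s2 s3 n b hb R hR
  refine ⟨g, h1, ?_⟩
  rw [h2]; simp

/-- Integrality of the invariant of a decorated cable. -/
theorem integral_cab {p : ℕ} (hp : 0 < p) {n : ℕ} {b : Br} (hb : b ∈ BB n) {R : Finset ℕ}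
    (hR : Tr n (perm b) R) :
    ∃ g : Λ, ιK g = zK ^ R.card * Ec tK p n R b ∧ ιS g = zS ^ R.card * Ec tS p n R b := by
  have h := D_cab_mem hp hb hR
  unfold Ec
  generalize D p n (xp ℤ p) R * ob (cab p b) = y at h
  induction h using AddSubgroup.closure_induction with
  | mem x hx =>
    obtain ⟨b', hb', R', hR', hc, rfl⟩ := hx
    obtain ⟨g, h1, h2⟩ := integral_one hK hδ hS hδS k1 k2 k3 s1 s2 s3 hb' hR'
    rw [hc] at h1 h2
    exact ⟨g, by rw [ext_ob, h1], by rw [ext_ob, h2]⟩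
  | zero => exact ⟨0, by simp, by simp⟩
  | add x y _ _ hx hy =>
    obtain ⟨g, h1, h2⟩ := hx
    obtain ⟨g', h1', h2'⟩ := hy
    exact ⟨g + g', by rw [map_add, map_add, mul_add, h1, h1'],
      by rw [map_add, map_add, mul_add, h2, h2']⟩
  | neg x _ hx =>
    obtain ⟨g, h1, h2⟩ := hx
    exact ⟨-g, by rw [map_neg, map_neg, mul_neg, h1], by rw [map_neg, map_neg, mul_neg, h2]⟩

/-- **The congruence**, in a ring where the facts on Hecke algebras hold: `G` is the value of the
decorated cable, `g` the value on the closed braid itself. -/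
theorem congruence (hgS : GSkein zS tS) {p : ℕ} (hp : 0 < p) {κ : S}
    (HF : HeckeFacts p zS κ) (χ : Br →* S) (hχ : ∀ i, χ (sg i) = κ) (hκ : κ * κ = 1)
    {ψ : Λ →+* S} (t1 : ψ τ = 0) (t2 : ψ α = aS ^ p) (t3 : ψ αi = aiS ^ p)
    {n : ℕ} {b : Br} (hb : b ∈ BB n) {R : Finset ℕ} (hR : Tr n (perm b) R) :
    ∃ G g : Λ, ιK G = zK ^ R.card * Ec tK p n R b ∧ ιK g = zK ^ R.card * tK n b ∧
      ιS G = χ b * ψ g := by
  obtain ⟨G, h1, h2⟩ := integral_cab hK hδ hS hδS k1 k2 k3 s1 s2 s3 hp hb hR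
  obtain ⟨g, h3, h4⟩ := (hS.isInv_cab hgS hδS hp HF).main hK hδ χ hχ hκ (by ring)
    k1 k2 k3 t1 t2 t3 n b hb R hR
  exact ⟨G, g, h1, h3, by rw [h2, h4]⟩

end

end Pool.Agent.Lib.Pe17fed
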