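import Mathlib
import Pool.Agent.Lib.Pe17fed.Insert

/-! Definitions used in the statement of the congruence: the field `ℚ(q, a)`, the framed
HOMFLY-PT invariants of closed braids, the power sum elements, decorated cables and the total
framing of a closed braid word. -/

namespace Pool.Agent.Lib.Pe17fed

open Equiv Equiv.Perm

/-- The field `ℚ(q, a)`. -/
abbrev K : Type := FractionRing (MvPolynomial (Fin 2) ℚ)

/-- The variable `q`. -/
noncomputable def qv : K := algebraMap (MvPolynomial (Fin 2) ℚ) K (MvPolynomial.X 0)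

/-- The variable `a`. -/
noncomputable def av : K := algebraMap (MvPolynomial (Fin 2) ℚ) K (MvPolynomial.X 1)

/-- `z = q - q⁻¹`. -/
noncomputable def zv : K := qv - qv⁻¹

/-- The Adams operator `f(q, a) ↦ f(q^d, a^d)`, for `d ≥ 1`. -/
noncomputable def Psi (d : ℕ) (hd : 0 < d) : K →+* K :=
  IsFractionRing.map (j := (MvPolynomial.expand d : MvPolynomial (Fin 2) ℚ →ₐ[ℚ] _).toRingHom)
    (MvPolynomial.expand_injective hd)

theorem Psi_qv (d : ℕ) (hd : 0 < d) : Psi d hd qv = qv ^ d := by
  unfold Psi qv IsFractionRing.map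
  rw [IsLocalization.map_eq]
  simp

theorem Psi_av (d : ℕ) (hd : 0 < d) : Psi d hd av = av ^ d := by
  unfold Psi av IsFractionRing.map
  rw [IsLocalization.map_eq]
  simp

/-- The framed HOMFLY-PT invariant of closed braids: `H n b` is the value on the closure of the
braid `b` on `n` strands, with the blackboard framing. -/
structure IsFramedHomfly (H : ℕ → Br → K) : Prop where
  /-- the empty link has value `1` -/
  empty : H 0 1 = 1
  /-- invariance under conjugation of braids -/
  conj : ∀ n, ∀ x ∈ BB n, ∀ y ∈ BB n, H n (x * y) = H n (y * x)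
  /-- the skein relation -/
  skein : ∀ n i, i + 1 < n → ∀ b ∈ BB n, H n (b * sg i) - H n (b * (sg i)⁻¹) = zv * H n b
  /-- a split `0`-framed unknot contributes the factor `(a - a⁻¹) / (q - q⁻¹)` -/
  circle : ∀ n, ∀ b ∈ BB n, H (n + 1) b = (av - av⁻¹) / zv * H n b
  /-- a positive curl contributes the factor `a` -/
  curl : ∀ n, ∀ b ∈ BB (n + 1), H (n + 2) (b * sg n) = av * H (n + 1) b
  /-- a negative curl contributes the factor `a⁻¹` -/
  curl_inv : ∀ n, ∀ b ∈ BB (n + 1), H (n + 2) (b * (sg n)⁻¹) = av⁻¹ * H (n + 1) b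

/-- The braid `σ_{n-1} σ_{n-2} ⋯ σ_{n-k}`. -/
def dn (n : ℕ) : ℕ → Br
  | 0 => 1
  | k + 1 => dn n k * sg (n - 1 - k)

/-- The symmetrizer `∑_{w ∈ S_n} q^{ℓ(w)} σ_w`, as an element of the group algebra of the braid
group. -/
noncomputable def syme : ℕ → A K
  | 0 => 1
  | n + 1 => syme n * ∑ k ∈ Finset.range (n + 1), qv ^ k • ob (dn n k)

/-- `∏_{m=1}^n (1 + q² + ⋯ + q^{2(m-1)})`. -/
noncomputable def symc (n : ℕ) : K :=
  ∏ m ∈ Finset.range n, ∑ j ∈ Finset.range (m + 1), qv ^ (2 * j)

/-- The idempotent `e_{(n)}` of the one-row partition, whose closure is the complete symmetric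
function `h_n`. -/
noncomputable def hsym (n : ℕ) : A K := (symc n)⁻¹ • syme n

/-- The power sum `P_n`, defined by Newton's identities `n h_n = ∑_{k=1}^n P_k h_{n-k}`, products
being juxtapositions. -/
noncomputable def Psum : ℕ → A K
  | 0 => 0
  | n + 1 => ((n + 1 : ℕ) : K) • hsym (n + 1) -
      ∑ k : Fin n, Psum (k + 1) * shA (k + 1) (hsym (n - k))

/-- `({d}^L) H(L ⋆ P_d ⊗ ⋯ ⊗ P_d)` for the closure `L` of the braid `b` on `n` strands; every
strand is replaced by `d` parallel strands and `P_d` is inserted at the strand `r`, for every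
`r ∈ R`. -/
noncomputable def Zc (H : ℕ → Br → K) (d n : ℕ) (R : Finset ℕ) (b : Br) : K :=
  (qv ^ d - qv⁻¹ ^ d) ^ R.card * ext (H (n * d)) (D d n (Psum d) R * ob (cab d b))

/-- The braid of a braid word; `(i, true)` stands for `σ_i` and `(i, false)` for `σ_i⁻¹`. -/
def wd : List (ℕ × Bool) → Br
  | [] => 1
  | l :: w => (if l.2 then sg l.1 else (sg l.1)⁻¹) * wd w

open Classical in
/-- Sum of the signs of the crossings of a braid word `w` whose two strands, followed back through
the permutation `t` of the previous crossings, lie on the same cycle of `π`. -/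
noncomputable def sw (π : Perm ℕ) : Perm ℕ → List (ℕ × Bool) → ℤ
  | _, [] => 0
  | t, l :: w => (if π.SameCycle (t l.1) (t (l.1 + 1)) then (if l.2 then 1 else -1) else 0) +
      sw π (t * swap l.1 (l.1 + 1)) w

/-- The total framing of the closure of a braid word: the sum of the signs of the self-crossings
of the components. -/
noncomputable def fram (w : List (ℕ × Bool)) : ℤ := sw (perm (wd w)) 1 w

end Pool.Agent.Lib.Pe17fed
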