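import Mathlib
import Pool.Agent.Lib.Pe17fed.Defs

/-! The parity of the total framing of a closed braid word: it is the parity of the number of
letters, because crossings between different components occur in even number. -/

namespace Pool.Agent.Lib.Pe17fed

open Equiv Equiv.Perm

/-- The sign of a braid. -/
def eps : Br →* ℤˣ :=
  lift (fun _ => -1) (fun _ _ _ => rfl) (fun _ => rfl)

@[simp] theorem eps_sg (i : ℕ) : eps (sg i) = -1 := lift_sg _ _ _ _

/-- The parity of the number of inversions of the first `n` values of a function. -/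
def invp (n : ℕ) (s : ℕ → ℕ) : ℤˣ :=
  ∏ x ∈ (Finset.range n ×ˢ Finset.range n).filter (fun x => x.1 < x.2),
    if s x.2 < s x.1 then -1 else 1

theorem invp_swap {n i : ℕ} (hi : i + 1 < n) (s : ℕ → ℕ) :
    invp n (fun x => s (swap i (i + 1) x)) =
      (if s i = s (i + 1) then 1 else -1) * invp n s := by
  have hmem : (i, i + 1) ∈ (Finset.range n ×ˢ Finset.range n).filter (fun x => x.1 < x.2) := by
    simp only [Finset.mem_filter, Finset.mem_product, Finset.mem_range]
    omega
  unfold invp
  rw [← Finset.mul_prod_erase _ _ hmem,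
    ← Finset.mul_prod_erase _ (fun x : ℕ × ℕ => if s x.2 < s x.1 then (-1 : ℤˣ) else 1) hmem,
    ← mul_assoc]
  congr 1
  · simp only [swap_apply_left, swap_apply_right]
    rcases lt_trichotomy (s i) (s (i + 1)) with h | h | h
    · rw [if_pos h, if_neg (by omega), if_neg (by omega)]; simp
    · rw [if_neg (by omega), if_pos h, if_neg (by omega)]; simp
    · rw [if_neg (by omega), if_neg (by omega), if_pos h]; simp
  · refine Finset.prod_equiv (Equiv.prodCongr (swap i (i + 1)) (swap i (i + 1))) ?_ ?_
    · rintro ⟨x, y⟩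
      simp only [Finset.mem_erase, Finset.mem_filter, Finset.mem_product, Finset.mem_range,
        Equiv.prodCongr_apply, Prod.map_apply, ne_eq, Prod.mk.injEq, swap_apply_def]
      split_ifs <;> omega
    · rintro ⟨x, y⟩ _
      simp

/-- A colouring of the cycles of a permutation. -/
noncomputable def colr (π : Perm ℕ) (x : ℕ) : ℕ := sInf {y | π.SameCycle x y}

theorem colr_spec (π : Perm ℕ) (x : ℕ) : π.SameCycle x (colr π x) :=
  Nat.sInf_mem (s := {y | π.SameCycle x y}) ⟨x, SameCycle.refl _ _⟩

theorem colr_eq_iff (π : Perm ℕ) (x y : ℕ) : colr π x = colr π y ↔ π.SameCycle x y := by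
  constructor
  · intro h
    exact (colr_spec π x).trans (h ▸ (colr_spec π y).symm)
  · intro h
    have : {w | π.SameCycle x w} = {w | π.SameCycle y w} := by
      ext w
      exact ⟨fun hw => h.symm.trans hw, fun hw => h.trans hw⟩
    unfold colr
    rw [this]

open Classical in
theorem sw_parity (π : Perm ℕ) {n : ℕ} (w : List (ℕ × Bool)) :
    ∀ (t : Perm ℕ), (∀ l ∈ w, l.1 + 1 < n) →
    (-1 : ℤˣ) ^ (sw π t w) * invp n (fun x => colr π (t (perm (wd w) x))) =
      eps (wd w) * invp n (fun x => colr π (t x)) := by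
  induction w with
  | nil => intro t _; simp [sw, wd]
  | cons l w ih =>
    intro t hw
    have hl := hw l (List.mem_cons_self ..)
    have ih' := ih (t * swap l.1 (l.1 + 1)) (fun m hm => hw m (List.mem_cons_of_mem _ hm))
    have hperm : perm (wd (l :: w)) = swap l.1 (l.1 + 1) * perm (wd w) := by
      show perm ((if l.2 then sg l.1 else (sg l.1)⁻¹) * wd w) = _
      rw [map_mul]
      congr 1
      split_ifs
      · exact perm_sg _
      · rw [map_inv, perm_sg, swap_inv]
    have heps : eps (wd (l :: w)) = - eps (wd w) := by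
      show eps ((if l.2 then sg l.1 else (sg l.1)⁻¹) * wd w) = _
      rw [map_mul]
      split_ifs <;> simp
    have h1 := invp_swap hl (fun x => colr π (t x))
    have h2 : (fun x => colr π (t (perm (wd (l :: w)) x))) =
        (fun x => colr π ((t * swap l.1 (l.1 + 1)) (perm (wd w) x))) := by
      funext x
      rw [hperm]; rfl
    rw [h2, heps]
    show (-1 : ℤˣ) ^ ((if π.SameCycle (t l.1) (t (l.1 + 1)) then (if l.2 then 1 else -1) else 0) +
      sw π (t * swap l.1 (l.1 + 1)) w) * _ = _
    rw [zpow_add, mul_assoc, ih']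
    have h3 : (fun x => colr π ((t * swap l.1 (l.1 + 1)) x)) =
        (fun x => colr π (t (swap l.1 (l.1 + 1) x))) := rfl
    rw [h3, h1]
    by_cases hs : π.SameCycle (t l.1) (t (l.1 + 1))
    · rw [if_pos hs, if_pos ((colr_eq_iff _ _ _).2 hs)]
      split_ifs <;> simp
    · rw [if_neg hs, if_neg (fun h => hs ((colr_eq_iff _ _ _).1 h))]
      simp

/-- The parity of the total framing. -/
theorem fram_parity {n : ℕ} {w : List (ℕ × Bool)} (hw : ∀ l ∈ w, l.1 + 1 < n) :
    (-1 : ℤˣ) ^ (fram w) = eps (wd w) := by
  have h := sw_parity (perm (wd w)) w 1 hw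
  have h1 : (fun x => colr (perm (wd w)) ((1 : Perm ℕ) (perm (wd w) x))) =
      (fun x => colr (perm (wd w)) ((1 : Perm ℕ) x)) := by
    funext x
    rw [colr_eq_iff]
    exact ⟨-1, by simp⟩
  rw [h1] at h
  exact mul_right_cancel h

theorem wd_mem {n : ℕ} {w : List (ℕ × Bool)} (hw : ∀ l ∈ w, l.1 + 1 < n) : wd w ∈ BB n := by
  induction w with
  | nil => exact Subgroup.one_mem _
  | cons l w ih =>
    refine Subgroup.mul_mem _ ?_ (ih (fun m hm => hw m (List.mem_cons_of_mem _ hm)))
    have hl := sg_mem (hw l (List.mem_cons_self ..))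
    split_ifs
    · exact hl
    · exact Subgroup.inv_mem _ hl

end Pool.Agent.Lib.Pe17fed
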