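import Mathlib

/-! The commutative rings used in the comparison: the ring `Lam = ℤ[α^±][T]`, quantum integers,
the polynomials `Qp n` with `Qp n (z²) = [n]²`, and the ring `SS p`, a `ℚ`-algebra in which `T`
has a square root of the form `q - q⁻¹` and `[p]² = 0`. -/

namespace Pool.Agent.Lib.Pe17fed

open Polynomial

/-! ### Quantum integers -/

section quantum

variable {S : Type*} [CommRing S]

/-- `qn q k = 1 + q² + ⋯ + q^(2(k-1))`, that is `q^(k-1) [k]`. -/
def qn (q : S) (k : ℕ) : S := ∑ t ∈ Finset.range k, q ^ (2 * t)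

/-- The quantum integer `[k]`. -/
def br (q qi : S) : ℕ → S
  | 0 => 0
  | 1 => 1
  | k + 2 => (q + qi) * br q qi (k + 1) - br q qi k

theorem qn_succ (q : S) (k : ℕ) : qn q (k + 1) = qn q k + q ^ (2 * k) :=
  Finset.sum_range_succ _ _

theorem qn_add (q : S) (m n : ℕ) : qn q (m + n) = qn q m + q ^ (2 * m) * qn q n := by
  induction n with
  | zero => simp [qn]
  | succ n ih =>
    rw [← add_assoc, qn_succ, ih, qn_succ]
    ring

theorem br_mul_z (q qi : S) (h : q * qi = 1) (k : ℕ) :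
    (q - qi) * br q qi k = q ^ k - qi ^ k := by
  induction k using Nat.twoStepInduction with
  | zero => simp [br]
  | one => simp [br]
  | more k h1 h2 =>
    show (q - qi) * ((q + qi) * br q qi (k + 1) - br q qi k) = _
    have e1 : q ^ (k + 1) * qi = q ^ k := by rw [pow_succ, mul_assoc, h, mul_one]
    have e2 : qi ^ (k + 1) * q = qi ^ k := by rw [pow_succ, mul_assoc, mul_comm qi, h, mul_one]
    calc (q - qi) * ((q + qi) * br q qi (k + 1) - br q qi k)
        = (q + qi) * ((q - qi) * br q qi (k + 1)) - (q - qi) * br q qi k := by ring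
      _ = (q + qi) * (q ^ (k + 1) - qi ^ (k + 1)) - (q ^ k - qi ^ k) := by rw [h1, h2]
      _ = q ^ (k + 2) - qi ^ (k + 2) := by
          linear_combination e1 - e2

theorem pow_mul_br (q qi : S) (h : q * qi = 1) (k : ℕ) :
    q ^ k * br q qi (k + 1) = qn q (k + 1) := by
  induction k using Nat.twoStepInduction with
  | zero => simp [br, qn]
  | one =>
    show q ^ 1 * ((q + qi) * 1 - 0) = qn q 2
    simp only [qn, Finset.sum_range_succ, Finset.sum_range_zero]
    linear_combination h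
  | more k h1 h2 =>
    show q ^ (k + 2) * ((q + qi) * br q qi (k + 2) - br q qi (k + 1)) = _
    have e1 : q * qi = 1 := h
    have e3 : qn q (k + 2) = qn q (k + 1) + q ^ (2 * (k + 1)) := qn_succ _ _
    have e4 : qn q (k + 3) = qn q (k + 2) + q ^ (2 * (k + 2)) := qn_succ _ _
    calc q ^ (k + 2) * ((q + qi) * br q qi (k + 2) - br q qi (k + 1))
        = (q ^ 2 + q * qi) * (q ^ (k + 1) * br q qi (k + 2)) -
          q ^ 2 * (q ^ k * br q qi (k + 1)) := by ring
      _ = (q ^ 2 + 1) * qn q (k + 2) - q ^ 2 * qn q (k + 1) := by rw [h1, h2, e1]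
      _ = qn q (k + 3) := by rw [e4, e3]; ring

/-- The Casoratian identity. -/
theorem br_sq (q qi : S) (k : ℕ) :
    br q qi (k + 1) ^ 2 - (q + qi) * br q qi (k + 1) * br q qi k + br q qi k ^ 2 = 1 := by
  induction k with
  | zero => simp [br]
  | succ k ih =>
    show ((q + qi) * br q qi (k + 1) - br q qi k) ^ 2 -
      (q + qi) * ((q + qi) * br q qi (k + 1) - br q qi k) * br q qi (k + 1) +
      br q qi (k + 1) ^ 2 = 1
    linear_combination ih

/-- If `[p]² = 0`, `p` is prime and `q` is a unit, then `[k]` is a unit for `0 < k < p`. -/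
theorem qn_isUnit {q qi : S} (h : q * qi = 1) {p : ℕ} (hp : p.Prime) (h0 : (qn q p) ^ 2 = 0)
    {k : ℕ} (hk : 0 < k) (hkp : k < p) : IsUnit (qn q k) := by
  set I : Ideal S := Ideal.span {qn q k, qn q p} with hI
  have hq : ∀ m, IsUnit (q ^ m) := fun m => (IsUnit.of_mul_eq_one _ h).pow m
  have add : ∀ m n, qn q m ∈ I → qn q n ∈ I → qn q (m + n) ∈ I := by
    intro m n hm hn
    rw [qn_add]
    exact I.add_mem hm (I.mul_mem_left _ hn)
  have sub : ∀ m n, qn q m ∈ I → qn q (m + n) ∈ I → qn q n ∈ I := by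
    intro m n hm hn
    rw [qn_add] at hn
    have h1 : q ^ (2 * m) * qn q n ∈ I := by
      have := I.sub_mem hn hm
      simpa using this
    exact (Ideal.unit_mul_mem_iff_mem I (hq _)).1 h1
  have mul : ∀ m n, qn q m ∈ I → qn q (m * n) ∈ I := by
    intro m n hm
    induction n with
    | zero => simp [qn]
    | succ n ih => rw [Nat.mul_succ]; exact add _ _ ih hm
  have gcd : ∀ m n, qn q m ∈ I → qn q n ∈ I → qn q (Nat.gcd m n) ∈ I := by
    intro m n
    induction m, n using Nat.gcd.induction with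
    | H0 n => intro _ hn; rwa [Nat.gcd_zero_left]
    | H1 m n hm ih =>
      intro h1 h2
      rw [Nat.gcd_rec]
      refine ih ?_ h1
      refine sub (m * (n / m)) _ (mul _ _ h1) ?_
      rwa [Nat.div_add_mod]
  have h1 : qn q 1 ∈ I := by
    have := gcd k p (Ideal.subset_span (by simp)) (Ideal.subset_span (by simp))
    rwa [Nat.Coprime.gcd_eq_one (Nat.coprime_of_lt_prime hk.ne' hkp hp).symm] at this
  have h2 : qn q 1 = 1 := by simp [qn]
  rw [h2] at h1
  obtain ⟨u, v, huv⟩ := Ideal.mem_span_pair.1 h1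
  refine IsUnit.of_mul_eq_one (u * (1 + v * qn q p)) ?_
  have : u * qn q k = 1 - v * qn q p := by linear_combination huv
  calc qn q k * (u * (1 + v * qn q p)) = (u * qn q k) * (1 + v * qn q p) := by ring
    _ = (1 - v * qn q p) * (1 + v * qn q p) := by rw [this]
    _ = 1 - v ^ 2 * (qn q p) ^ 2 := by ring
    _ = 1 := by rw [h0]; ring

/-- If moreover `S` is a `ℚ`-algebra then `q - q⁻¹` is a unit. -/
theorem z_isUnit [Algebra ℚ S] {q qi : S} (h : q * qi = 1) {p : ℕ} (hp : p.Prime)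
    (h0 : (qn q p) ^ 2 = 0) : IsUnit (q - qi) := by
  have hdiv : ∀ k, (q - qi) ∣ qn q k - k := by
    intro k
    induction k with
    | zero => simp [qn]
    | succ k ih =>
      have h1 : (q - qi) ∣ q ^ (2 * k) - 1 := by
        have h2 : q ^ 2 - 1 = (q - qi) * q := by linear_combination h
        have h3 : q ^ 2 - 1 ∣ q ^ (2 * k) - 1 := by
          have := sub_dvd_pow_sub_pow (q ^ 2) 1 k
          rwa [one_pow, ← pow_mul] at this
        exact (Dvd.intro _ h2.symm).trans h3
      rw [qn_succ]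
      have : qn q k + q ^ (2 * k) - ((k + 1 : ℕ) : S) = (qn q k - k) + (q ^ (2 * k) - 1) := by
        push_cast; ring
      rw [this]
      exact dvd_add ih h1
  obtain ⟨w, hw⟩ := hdiv p
  set r : S := algebraMap ℚ S (p : ℚ)⁻¹ with hr
  have hpr : (p : S) * r = 1 := by
    have : (p : S) = algebraMap ℚ S (p : ℚ) := by simp
    rw [this, hr, ← map_mul, mul_inv_cancel₀ (by exact_mod_cast hp.ne_zero), map_one]
  refine IsUnit.of_mul_eq_one (- w * r * (1 + qn q p * r)) ?_
  have h1 : (q - qi) * (-w) = p - qn q p := by linear_combination hw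
  calc (q - qi) * (-w * r * (1 + qn q p * r)) = ((q - qi) * (-w)) * r * (1 + qn q p * r) := by ring
    _ = (p - qn q p) * r * (1 + qn q p * r) := by rw [h1]
    _ = ((p * r) - qn q p * r) * (1 + qn q p * r) := by ring
    _ = 1 - (qn q p) ^ 2 * r ^ 2 := by rw [hpr]; ring
    _ = 1 := by rw [h0]; ring

end quantum

/-! ### The polynomials `Qp n` -/

/-- `Qp n` is the polynomial in `T` with `Qp n (z²) = [n]²`. -/
noncomputable def Qp : ℕ → ℤ[X]
  | 0 => 0
  | 1 => 1
  | n + 2 => (X + 2) * Qp (n + 1) - Qp n + 2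

theorem eval_Qp {S : Type*} [CommRing S] {q qi : S} (h : q * qi = 1) (n : ℕ) :
    (Qp n).eval₂ (Int.castRingHom S) ((q - qi) ^ 2) = br q qi n ^ 2 := by
  induction n using Nat.twoStepInduction with
  | zero => simp [Qp, br]
  | one => simp [Qp, br]
  | more n h1 h2 =>
    have h3 := br_sq q qi n
    simp only [Qp, br, eval₂_add, eval₂_sub, eval₂_mul, eval₂_X, h1, h2, eval₂_ofNat]
    linear_combination (-2 : S) * h3 - (4 * br q qi (n + 1) ^ 2) * h

theorem Qp_monic_degree (n : ℕ) : (Qp (n + 1)).Monic ∧ (Qp (n + 1)).natDegree = n ∧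
    (Qp n).natDegree ≤ n := by
  induction n with
  | zero => simp [Qp]
  | succ n ih =>
    obtain ⟨h1, h2, h3⟩ := ih
    have hm : (X + 2 : ℤ[X]).Monic := by
      have := monic_X_add_C (2 : ℤ)
      rwa [C_ofNat] at this
    have hd : (X + 2 : ℤ[X]).natDegree = 1 := by
      have := natDegree_X_add_C (2 : ℤ)
      rwa [C_ofNat] at this
    have hmm : ((X + 2) * Qp (n + 1) : ℤ[X]).Monic := hm.mul h1
    have hdd : ((X + 2) * Qp (n + 1) : ℤ[X]).natDegree = n + 1 := by
      rw [hm.natDegree_mul h1, hd, h2]; ring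
    have hlt : (2 - Qp n : ℤ[X]).degree < ((X + 2) * Qp (n + 1) : ℤ[X]).degree := by
      rw [degree_eq_natDegree hmm.ne_zero, hdd]
      have hn : (Qp n).natDegree ≤ n := h3
      have h5 : (2 - Qp n : ℤ[X]).natDegree ≤ n := by
        refine (natDegree_sub_le _ _).trans ?_
        rw [show (2 : ℤ[X]) = C 2 from (C_ofNat 2).symm, natDegree_C]
        omega
      refine lt_of_le_of_lt (degree_le_natDegree) ?_
      exact_mod_cast Nat.lt_succ_of_le h5
    have e : Qp (n + 2) = (X + 2) * Qp (n + 1) + (2 - Qp n) := by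
      show (X + 2) * Qp (n + 1) - Qp n + 2 = _
      ring
    refine ⟨?_, ?_, ?_⟩
    · rw [e]; exact hmm.add_of_left hlt
    · rw [e, natDegree_add_eq_left_of_degree_lt hlt, hdd]
    · rw [h2]; omega

theorem Qp_monic {n : ℕ} (hn : 0 < n) : (Qp n).Monic := by
  obtain ⟨m, rfl⟩ : ∃ m, n = m + 1 := ⟨n - 1, by omega⟩
  exact (Qp_monic_degree m).1

/-! ### The ring `ℤ[α^±][T]` -/

/-- `ℤ[α^±]`. -/
abbrev L0 : Type := LaurentPolynomial ℤ

/-- `ℤ[α^±][T]`. -/
abbrev Lam : Type := Polynomial L0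

/-- The unit `α`. -/
noncomputable def alpha : L0ˣ where
  val := LaurentPolynomial.T 1
  inv := LaurentPolynomial.T (-1)
  val_inv := by rw [← LaurentPolynomial.T_add]; simp
  inv_val := by rw [← LaurentPolynomial.T_add]; simp

/-- The evaluation `T ↦ t`, `α ↦ a`. -/
noncomputable def evL {R : Type*} [CommRing R] (t : R) (a : Rˣ) : Lam →+* R :=
  Polynomial.eval₂RingHom (LaurentPolynomial.eval₂ (Int.castRingHom R) a) t

section

variable {R R' : Type*} [CommRing R] [CommRing R']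

@[simp] theorem evL_X (t : R) (a : Rˣ) : evL t a X = t := by simp [evL]

@[simp] theorem evL_alpha (t : R) (a : Rˣ) : evL t a (C (alpha : L0)) = a := by
  simp [evL, alpha]

@[simp] theorem evL_alpha_inv (t : R) (a : Rˣ) :
    evL t a (C ((alpha⁻¹ : L0ˣ) : L0)) = ((a⁻¹ : Rˣ) : R) := by
  have : ((alpha⁻¹ : L0ˣ) : L0) = LaurentPolynomial.T (-1) := rfl
  simp [evL, this]

theorem Lam_hom_ext {f g : Lam →+* R} (h1 : f X = g X)
    (h2 : f (C (alpha : L0)) = g (C (alpha : L0))) : f = g := by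
  ext n
  · simp
  · exact h2
  · exact h1

theorem evL_comp (f : R →+* R') (t : R) (a : Rˣ) :
    f.comp (evL t a) = evL (f t) (Units.map (f : R →* R') a) := by
  apply Lam_hom_ext
  · simp
  · simp

theorem evL_unique (f : Lam →+* R) :
    f = evL (f X) (Units.map ((f.comp C : L0 →+* R) : L0 →* R) alpha) := by
  apply Lam_hom_ext
  · simp
  · simp

end

/-! ### The ring `SS p` -/

/-- `ℚ[α^±]`. -/
abbrev L1 : Type := LaurentPolynomial ℚ

/-- The inclusion of `ℤ[α^±]` in `ℚ[α^±]`. -/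
noncomputable def jj : L0 →+* L1 := AddMonoidAlgebra.mapRingHom ℤ (Int.castRingHom ℚ)

theorem jj_injective : Function.Injective jj :=
  AddMonoidAlgebra.map_injective (f := (Int.castRingHom ℚ : ℤ →+ ℚ)) Int.cast_injective

/-- `Qp p` with coefficients in `ℤ[α^±]`. -/
noncomputable def QL (p : ℕ) : Lam := (Qp p).map (Int.castRingHom L0)

theorem evL_QL {R : Type*} [CommRing R] (t : R) (a : Rˣ) (p : ℕ) :
    evL t a (QL p) = (Qp p).eval₂ (Int.castRingHom R) t := by
  unfold QL evL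
  simp only [coe_eval₂RingHom, eval₂_map]
  congr 1
  ext; simp

/-- `ℚ[α^±][T] / Qp p`. -/
abbrev S0 (p : ℕ) : Type := AdjoinRoot ((QL p).map jj)

/-- `Y⁴ - (T + 2) Y² + 1`. -/
noncomputable def FF (p : ℕ) : Polynomial (S0 p) :=
  X ^ 4 - C (AdjoinRoot.root _ + 2) * X ^ 2 + 1

/-- `ℚ[α^±][T][q] / (Qp p, q⁴ - (T + 2) q² + 1)`. -/
abbrev SS (p : ℕ) : Type := AdjoinRoot (FF p)

theorem FF_monic (p : ℕ) : (FF p).Monic := by
  unfold FF
  monicity!

/-- The inclusion `S0 p → SS p`. -/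
theorem of_injective (p : ℕ) : Function.Injective (AdjoinRoot.of (FF p)) := by
  rw [injective_iff_map_eq_zero]
  intro x hx
  by_contra hne
  have : Nontrivial (S0 p) := ⟨x, 0, hne⟩
  rw [← AdjoinRoot.mk_C, AdjoinRoot.mk_eq_zero] at hx
  have hd : (FF p).natDegree = 4 := by
    unfold FF
    compute_degree!
  have h1 : (C x : Polynomial (S0 p)) = 0 := by
    by_contra h
    have := (FF_monic p).not_dvd_of_natDegree_lt h (by rw [natDegree_C, hd]; norm_num)
    exact this hx
  exact hne (C_eq_zero.1 h1)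

/-- The kernel of `Lam → S0 p`. -/
theorem mk_map_eq_zero {p : ℕ} (hp : 0 < p) {x : Lam}
    (hx : AdjoinRoot.mk ((QL p).map jj) (x.map jj) = 0) : ∃ h, x = QL p * h := by
  have hm : (QL p).Monic := (Qp_monic hp).map _
  rw [AdjoinRoot.mk_eq_zero] at hx
  exact (map_dvd_map jj jj_injective hm).1 hx

section SS

variable (p : ℕ)

/-- The element `T` of `SS p`. -/
noncomputable def TS : SS p := AdjoinRoot.of (FF p) (AdjoinRoot.root _)

/-- The element `q` of `SS p`. -/
noncomputable def qS : SS p := AdjoinRoot.root (FF p)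

/-- The element `q⁻¹` of `SS p`. -/
noncomputable def qiS : SS p := (TS p + 2) * qS p - qS p ^ 3

/-- The element `α` of `SS p`. -/
noncomputable def aS : (SS p)ˣ :=
  Units.map (((AdjoinRoot.of (FF p)).comp ((AdjoinRoot.of ((QL p).map jj)).comp jj) :
    L0 →+* SS p) : L0 →* SS p) alpha

/-- The homomorphism `Lam → SS p`. -/
noncomputable def ioS : Lam →+* SS p := evL (TS p) (aS p)

theorem ioS_eq : ioS p = (AdjoinRoot.of (FF p)).comp ((AdjoinRoot.mk ((QL p).map jj)).comp
    (Polynomial.mapRingHom jj)) := by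
  apply Lam_hom_ext
  · simp [ioS, TS]
  · simp only [ioS, evL_alpha, RingHom.comp_apply, coe_mapRingHom, map_C]
    rfl

theorem qS_rel : qS p ^ 4 - (TS p + 2) * qS p ^ 2 + 1 = 0 := by
  have h : eval₂ (AdjoinRoot.of (FF p)) (AdjoinRoot.root (FF p))
      (X ^ 4 - C (AdjoinRoot.root ((QL p).map jj) + 2) * X ^ 2 + 1) = 0 :=
    AdjoinRoot.eval₂_root (FF p)
  simp only [eval₂_add, eval₂_sub, eval₂_mul, eval₂_pow, eval₂_X, eval₂_C, eval₂_one,
    map_add, map_ofNat, eval₂_ofNat] at h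
  exact h

theorem qS_mul : qS p * qiS p = 1 := by
  unfold qiS
  linear_combination -(qS_rel p)

theorem TS_eq : TS p = (qS p - qiS p) ^ 2 := by
  have h1 := qS_mul p
  have h2 := qS_rel p
  have h3 : (qS p) ^ 2 + (qiS p) ^ 2 = TS p + 2 := by
    have h4 : (qS p) ^ 2 * (qiS p) ^ 2 = 1 := by rw [← mul_pow, h1, one_pow]
    calc (qS p) ^ 2 + (qiS p) ^ 2 = (qS p) ^ 2 * ((qS p) ^ 2 * (qiS p) ^ 2) + (qiS p) ^ 2 := by
          rw [h4, mul_one]
      _ = (qS p ^ 4 + 1) * (qiS p) ^ 2 := by ring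
      _ = ((TS p + 2) * qS p ^ 2) * (qiS p) ^ 2 := by
          congr 1
          linear_combination h2
      _ = (TS p + 2) * ((qS p) ^ 2 * (qiS p) ^ 2) := by ring
      _ = _ := by rw [h4, mul_one]
  linear_combination -h3 + 2 * h1

theorem QS_zero : (Qp p).eval₂ (Int.castRingHom (SS p)) (TS p) = 0 := by
  have h : AdjoinRoot.mk ((QL p).map jj) ((QL p).map jj) = 0 := AdjoinRoot.mk_self
  have h1 := congrArg (AdjoinRoot.of (FF p)) h
  rw [map_zero] at h1
  have h2 : ioS p (QL p) = 0 := by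
    rw [ioS_eq]; exact h1
  have h3 : ioS p (QL p) = (Qp p).eval₂ (Int.castRingHom (SS p)) (TS p) := evL_QL _ _ _
  rw [← h3, h2]

theorem br_sq_zero : br (qS p) (qiS p) p ^ 2 = 0 := by
  have h := eval_Qp (qS_mul p) p
  rw [← TS_eq, QS_zero] at h
  exact h.symm

theorem qn_sq_zero {p : ℕ} (hp : 0 < p) : qn (qS p) p ^ 2 = 0 := by
  obtain ⟨m, hm⟩ : ∃ m, p = m + 1 := ⟨p - 1, by omega⟩
  have h := pow_mul_br (qS p) (qiS p) (qS_mul p) m
  rw [← hm] at h
  rw [← h, mul_pow, br_sq_zero, mul_zero]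

/-- The kernel of `Lam → SS p`. -/
theorem ioS_ker {p : ℕ} (hp : 0 < p) {x : Lam} (hx : ioS p x = 0) : ∃ h, x = QL p * h := by
  apply mk_map_eq_zero hp
  apply of_injective p
  rw [map_zero, ← hx, ioS_eq]
  rfl

/-- The lift to `Lam` of the Adams operation. -/
noncomputable def psiL (p : ℕ) : Lam →+* Lam :=
  evL (X * QL p) (Units.map ((C : L0 →+* Lam) : L0 →* Lam) (alpha ^ p))

/-- The homomorphism `Lam → SS p` obtained from the Adams operation. -/
noncomputable def psiS (p : ℕ) : Lam →+* SS p := (ioS p).comp (psiL p)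

theorem psiS_X (p : ℕ) : psiS p X = 0 := by
  unfold psiS
  rw [RingHom.comp_apply, psiL, evL_X, map_mul]
  have : ioS p (QL p) = 0 := by
    unfold ioS
    rw [evL_QL, QS_zero]
  rw [this, mul_zero]

theorem psiS_alpha (p : ℕ) : psiS p (C (alpha : L0)) = (aS p : SS p) ^ p := by
  unfold psiS
  rw [RingHom.comp_apply, psiL, evL_alpha]
  simp [ioS]

theorem psiS_alpha_inv (p : ℕ) :
    psiS p (C ((alpha⁻¹ : L0ˣ) : L0)) = (((aS p)⁻¹ : (SS p)ˣ) : SS p) ^ p := by
  unfold psiS
  rw [RingHom.comp_apply, psiL, evL_alpha_inv]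
  simp [ioS]

end SS

end Pool.Agent.Lib.Pe17fed
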