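import Mathlib
import Pool.Agent.Lib.Pe17fed.Bridge
import Pool.Agent.Lib.Pe17fed.Ring

/-! Newton's identities in the cocenters of Hecke algebras: the power sum defined from the
symmetrizers is, up to the factor `[n]`, the sum of the `n` braids `V j (n - 1)`. -/

namespace Pool.Agent.Lib.Hecke59.Nw

open Pool.Agent.Lib.Pe17fed (Br BB sg X piB qn br X_mul X_mul_sh sg_mem sh_sg piB_sg_val piB_mem
  X_mem qn_succ pow_mul_br)

universe u

variable {R : Type u} [CommRing R] {q qi : R}

/-- The Hecke algebra with parameter `z = q - q⁻¹`. -/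
abbrev HQ (R : Type u) [CommRing R] (q qi : R) : Type u := Hk R (q - qi)

/-- Traces on the first `n` strands. -/
def IsTr (n : ℕ) (f : HQ R q qi →ₗ[R] R) : Prop :=
  ∀ x ∈ HH R (q - qi) n, ∀ y ∈ HH R (q - qi) n, f (x * y) = f (y * x)

theorem IsTr.mono {m n : ℕ} (h : m ≤ n) {f : HQ R q qi →ₗ[R] R} (hf : IsTr n f) : IsTr m f :=
  fun x hx y hy => hf x (HH_mono h hx) y (HH_mono h hy)

theorem IsTr.left {m n : ℕ} {f : HQ R q qi →ₗ[R] R} (hf : IsTr (m + n) f) {v : HQ R q qi}
    (hv : v ∈ HH R (q - qi) n) : IsTr m (f ∘ₗ LinearMap.mulRight R (sh m v)) := by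
  intro x hx y hy
  simp only [LinearMap.comp_apply, LinearMap.mulRight_apply]
  have hv' : sh m v ∈ HH R (q - qi) (m + n) := by
    have := sh_mem (k := m) hv
    rwa [add_comm] at this
  rw [mul_assoc, hf x (HH_mono (by omega) hx) _ (mul_mem (HH_mono (by omega) hy) hv'),
    mul_assoc, ← comm_sh le_rfl hx, ← mul_assoc]

theorem IsTr.right {m n : ℕ} {f : HQ R q qi →ₗ[R] R} (hf : IsTr (m + n) f) {u : HQ R q qi}
    (hu : u ∈ HH R (q - qi) m) :
    IsTr n ((f ∘ₗ LinearMap.mulLeft R u) ∘ₗ (sh m : HQ R q qi →ₐ[R] _).toLinearMap) := by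
  intro x hx y hy
  simp only [LinearMap.comp_apply, LinearMap.mulLeft_apply, AlgHom.toLinearMap_apply, map_mul]
  have hx' : sh m x ∈ HH R (q - qi) (m + n) := by
    have := sh_mem (k := m) hx
    rwa [add_comm] at this
  have hy' : sh m y ∈ HH R (q - qi) (m + n) := by
    have := sh_mem (k := m) hy
    rwa [add_comm] at this
  rw [← mul_assoc, comm_sh le_rfl hu, mul_assoc,
    hf _ hx' _ (mul_mem (HH_mono (by omega) hu) hy'), mul_assoc]

theorem X_mul_Hk {m n : ℕ} {u : HQ R q qi} (hu : u ∈ HH R (q - qi) m) :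
    ((piB (X m n) : (HQ R q qi)ˣ) : HQ R q qi) * u = sh n u * (piB (X m n) : (HQ R q qi)ˣ) := by
  refine HH_induction (P := fun u : HQ R q qi => ((piB (X m n) : (HQ R q qi)ˣ) : HQ R q qi) * u =
    sh n u * ((piB (X m n) : (HQ R q qi)ˣ) : HQ R q qi)) ?_ ?_ ?_ ?_ hu
  · intro r
    rw [AlgHom.commutes]; exact (Algebra.commutes _ _).symm
  · intro i hi
    have h := X_mul (n := n) (sg_mem hi)
    have h1 := congrArg (fun b => ((piB b : (HQ R q qi)ˣ) : HQ R q qi)) h
    simp only [map_mul, Units.val_mul, sh_sg] at h1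
    rw [piB_sg_val, piB_sg_val] at h1
    rw [sh_T]; exact h1
  · intro x y hx hy
    rw [mul_add, hx, hy, map_add, add_mul]
  · intro x y hx hy
    rw [← mul_assoc, hx, mul_assoc, hy, map_mul, mul_assoc]

theorem X_mul_sh_Hk {m n : ℕ} {v : HQ R q qi} (hv : v ∈ HH R (q - qi) n) :
    ((piB (X m n) : (HQ R q qi)ˣ) : HQ R q qi) * sh m v = v * (piB (X m n) : (HQ R q qi)ˣ) := by
  refine HH_induction (P := fun v : HQ R q qi => ((piB (X m n) : (HQ R q qi)ˣ) : HQ R q qi) *
    sh m v = v * ((piB (X m n) : (HQ R q qi)ˣ) : HQ R q qi)) ?_ ?_ ?_ ?_ hv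
  · intro r
    rw [AlgHom.commutes]; exact (Algebra.commutes _ _).symm
  · intro i hi
    have h := X_mul_sh (m := m) (sg_mem hi)
    have h1 := congrArg (fun b => ((piB b : (HQ R q qi)ˣ) : HQ R q qi)) h
    simp only [map_mul, Units.val_mul, sh_sg] at h1
    rw [piB_sg_val, piB_sg_val] at h1
    rw [sh_T]; exact h1
  · intro x y hx hy
    rw [map_add, mul_add, hx, hy, add_mul]
  · intro x y hx hy
    rw [map_mul, ← mul_assoc, hx, mul_assoc, hy, mul_assoc]

/-- Commutativity of juxtaposition under traces. -/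
theorem IsTr.comm {m n : ℕ} {f : HQ R q qi →ₗ[R] R} (hf : IsTr (m + n) f) {u v : HQ R q qi}
    (hu : u ∈ HH R (q - qi) m) (hv : v ∈ HH R (q - qi) n) :
    f (u * sh m v) = f (v * sh n u) := by
  set X0 : (HQ R q qi)ˣ := piB (X m n) with hX0
  have hX : (X0 : HQ R q qi) ∈ HH R (q - qi) (m + n) := piB_mem (X_mem m n)
  have hXi : ((X0⁻¹ : (HQ R q qi)ˣ) : HQ R q qi) ∈ HH R (q - qi) (m + n) := by
    rw [hX0, ← map_inv]; exact piB_mem (Subgroup.inv_mem _ (X_mem m n))
  have hu' : u ∈ HH R (q - qi) (m + n) := HH_mono (by omega) hu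
  have hv' : sh m v ∈ HH R (q - qi) (m + n) := by
    have := sh_mem (k := m) hv
    rwa [add_comm] at this
  have h1 : (X0 : HQ R q qi) * (u * sh m v) = sh n u * v * X0 := by
    rw [← mul_assoc, X_mul_Hk hu, mul_assoc, X_mul_sh_Hk hv, mul_assoc]
  have h2 : u * sh m v = ((X0⁻¹ : (HQ R q qi)ˣ) : HQ R q qi) * (sh n u * v * X0) := by
    rw [← h1, ← mul_assoc, Units.inv_mul, one_mul]
  have h3 : sh n u * v * X0 ∈ HH R (q - qi) (m + n) := by
    rw [← h1]; exact mul_mem hX (mul_mem hu' hv')
  rw [h2, hf _ hXi _ h3, mul_assoc, Units.mul_inv, mul_one, ← comm_sh le_rfl hv]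

/-! ### Relations between the descending products `E` and the generators -/

theorem E_succ' (i k : ℕ) : (E i (k + 1) : HQ R q qi) = E (i + 1) k * T i := by
  induction k with
  | zero => simp [E]
  | succ k ih =>
    show T (i + (k + 1)) * E i (k + 1) = T (i + 1 + k) * E (i + 1) k * T i
    rw [ih, mul_assoc, show i + (k + 1) = i + 1 + k by omega]

theorem E_mem (i k : ℕ) : (E i k : HQ R q qi) ∈ HH R (q - qi) (i + k + 1) := by
  induction k with
  | zero => exact one_mem _
  | succ k ih => exact mul_mem (T_mem (by omega)) (HH_mono (by omega) ih)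

theorem D_mem (i k : ℕ) : (D i k : HQ R q qi) ∈ HH R (q - qi) (i + k + 1) := by
  induction k with
  | zero => exact one_mem _
  | succ k ih => exact mul_mem (HH_mono (by omega) ih) (T_mem (by omega))

theorem sh_D (m i k : ℕ) : sh m (D i k : HQ R q qi) = D (i + m) k := by
  induction k with
  | zero => exact map_one _
  | succ k ih =>
    show sh m (D i k * T (i + k)) = D (i + m) k * T (i + m + k)
    rw [map_mul, ih, sh_T, show i + k + m = i + m + k by omega]

theorem sh_E (m i k : ℕ) : sh m (E i k : HQ R q qi) = E (i + m) k := by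
  induction k with
  | zero => exact map_one _
  | succ k ih =>
    show sh m (T (i + k) * E i k) = T (i + m + k) * E (i + m) k
    rw [map_mul, ih, sh_T, show i + k + m = i + m + k by omega]

theorem D_succ' (i k : ℕ) : (D i (k + 1) : HQ R q qi) = T i * D (i + 1) k := by
  induction k with
  | zero => simp [D]
  | succ k ih =>
    show D i (k + 1) * T (i + (k + 1)) = T i * (D (i + 1) k * T (i + 1 + k))
    rw [ih, mul_assoc, show i + (k + 1) = i + 1 + k by omega]

/-- `j > i + 1`. -/
theorem E_T_far {i j k : ℕ} (h : i + 1 < j) : (E j k : HQ R q qi) * T i = T i * E j k := by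
  have e : (E j k : HQ R q qi) = sh j (E 0 k) := by rw [sh_E, zero_add]
  rw [e, comm_sh (m := i + 2) (by omega) (T_mem (by omega))]

/-- `j = i`. -/
theorem E_T_self (i k : ℕ) :
    (E i (k + 1) : HQ R q qi) * T i = (q - qi) • E i (k + 1) + E (i + 1) k := by
  rw [E_succ', mul_assoc, T_sq, mul_add, mul_one, mul_smul_comm]

/-- `j < i`. -/
theorem E_T_lt {i j k : ℕ} (h : j < i) (h2 : i < j + k) :
    (E j k : HQ R q qi) * T i = T (i - 1) * E j k := by
  induction k with
  | zero => omega
  | succ k ih =>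
    show T (j + k) * E j k * T i = T (i - 1) * (T (j + k) * E j k)
    rcases Nat.lt_or_ge i (j + k) with h3 | h3
    · rw [mul_assoc, ih h3, ← mul_assoc, ← mul_assoc, ← T_comm (show i - 1 + 2 ≤ j + k by omega)]
    · have : i = j + k := by omega
      subst this
      obtain ⟨k, rfl⟩ : ∃ l, k = l + 1 := ⟨k - 1, by omega⟩
      show T (j + (k + 1)) * (T (j + k) * E j k) * T (j + (k + 1)) =
        T (j + (k + 1) - 1) * (T (j + (k + 1)) * (T (j + k) * E j k))
      have h4 : (E j k : HQ R q qi) * T (j + (k + 1)) = T (j + (k + 1)) * E j k :=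
        comm_T (by omega) (E_mem j k)
      have h5 := T_braid (R := R) (z := q - qi) (j + k)
      rw [show j + (k + 1) = j + k + 1 by omega, show j + k + 1 - 1 = j + k by omega] at *
      calc T (j + k + 1) * (T (j + k) * E j k) * T (j + k + 1)
          = T (j + k + 1) * T (j + k) * (E j k * T (j + k + 1)) := by simp only [mul_assoc]
        _ = (T (j + k + 1) * T (j + k) * T (j + k + 1)) * E j k := by
            rw [h4]; simp only [mul_assoc]
        _ = _ := by rw [← h5]; simp only [mul_assoc]

/-! ### The symmetrizer -/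

variable (q qi) in
/-- The symmetrizer. -/
noncomputable def sy : ℕ → HQ R q qi
  | 0 => 1
  | n + 1 => sy n * ∑ k ∈ Finset.range (n + 1), q ^ k • E (n - k) k

theorem sy_mem (n : ℕ) : (sy q qi n : HQ R q qi) ∈ HH R (q - qi) n := by
  induction n with
  | zero => exact one_mem _
  | succ n ih =>
    refine mul_mem (HH_mono (by omega) ih) (sum_mem (fun k hk => ?_))
    have := Finset.mem_range.1 hk
    exact Subalgebra.smul_mem _ (HH_mono (by omega) (E_mem (n - k) k)) _

/-- The character `T i ↦ q`. -/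
noncomputable def chi (h : q * qi = 1) : HQ R q qi →ₐ[R] R :=
  lift (fun _ => q) (fun _ => by rw [smul_eq_mul]; linear_combination h)
    (fun _ _ _ => rfl) (fun _ => rfl)

@[simp] theorem chi_T (h : q * qi = 1) (i : ℕ) : chi h (T i : HQ R q qi) = q := lift_T _ _ _ _ _

theorem chi_E (h : q * qi = 1) (i k : ℕ) : chi h (E i k : HQ R q qi) = q ^ k := by
  induction k with
  | zero => show chi h 1 = q ^ 0; rw [map_one, pow_zero]
  | succ k ih =>
    show chi h (T (i + k) * E i k) = _
    rw [map_mul, chi_T, ih, pow_succ']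

theorem chi_sy (h : q * qi = 1) (n : ℕ) :
    chi h (sy q qi n) = ∏ m ∈ Finset.range n, qn q (m + 1) := by
  induction n with
  | zero => simp [sy]
  | succ n ih =>
    rw [Finset.prod_range_succ, ← ih]
    show chi h (sy q qi n * ∑ k ∈ Finset.range (n + 1), q ^ k • E (n - k) k) = _
    rw [map_mul, map_sum]
    congr 1
    unfold qn
    refine Finset.sum_congr rfl (fun k _ => ?_)
    rw [map_smul, chi_E, smul_eq_mul, ← pow_add, two_mul]

theorem chi_rev (h : q * qi = 1) (x : HQ R q qi) : chi h (rev x) = chi h x := by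
  refine Hk_induction (P := fun x => chi h (rev x) = chi h x) ?_ ?_ ?_ ?_ x
  · intro r; simp
  · intro i; simp
  · intro x y hx hy; simp only [map_add, hx, hy]
  · intro x y hx hy; rw [rev_mul, map_mul, hx, hy, map_mul, mul_comm]

theorem sy_mul_T (h : q * qi = 1) (n : ℕ) : ∀ i, i + 1 < n →
    (sy q qi n : HQ R q qi) * T i = q • sy q qi n := by
  induction n with
  | zero => intro i hi; omega
  | succ n ih =>
    intro i hi
    show (sy q qi n * ∑ k ∈ Finset.range (n + 1), q ^ k • E (n - k) k) * T i =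
      q • (sy q qi n * ∑ k ∈ Finset.range (n + 1), q ^ k • E (n - k) k)
    rw [mul_assoc, Finset.sum_mul, Finset.mul_sum, Finset.mul_sum, Finset.smul_sum]
    -- the two exceptional indices are `n - i - 1` and `n - i`
    have hmem1 : n - i - 1 ∈ Finset.range (n + 1) := Finset.mem_range.2 (by omega)
    have hmem2 : n - i ∈ (Finset.range (n + 1)).erase (n - i - 1) :=
      Finset.mem_erase.2 ⟨by omega, Finset.mem_range.2 (by omega)⟩
    rw [← Finset.add_sum_erase _ _ hmem1, ← Finset.add_sum_erase _ _ hmem2,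
      ← Finset.add_sum_erase _ (fun k => q • (sy q qi n * q ^ k • E (n - k) k)) hmem1,
      ← Finset.add_sum_erase _ (fun k => q • (sy q qi n * q ^ k • E (n - k) k)) hmem2,
      ← add_assoc, ← add_assoc]
    congr 1
    · obtain ⟨d, hd⟩ : ∃ d, n = i + 1 + d := ⟨n - i - 1, by omega⟩
      have e1 : n - i - 1 = d := by omega
      have e2 : n - i = d + 1 := by omega
      have e3 : n - d = i + 1 := by omega
      have e4 : n - (d + 1) = i := by omega
      rw [e1, e2, e3, e4]
      rw [smul_mul_assoc, smul_mul_assoc, ← E_succ', E_T_self]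
      simp only [mul_smul_comm, smul_add, mul_add, smul_smul]
      have e5 : (q ^ d + q ^ (d + 1) * (q - qi)) = q * q ^ (d + 1) := by
        rw [pow_succ]; linear_combination (-(q ^ d)) * h
      have e6 : q ^ (d + 1) = q * q ^ d := pow_succ' _ _
      calc q ^ d • (sy q qi n * E i (d + 1)) + ((q ^ (d + 1) * (q - qi)) •
            (sy q qi n * E i (d + 1)) + q ^ (d + 1) • (sy q qi n * E (i + 1) d))
          = (q ^ d + q ^ (d + 1) * (q - qi)) • (sy q qi n * E i (d + 1)) +
            q ^ (d + 1) • (sy q qi n * E (i + 1) d) := by rw [add_smul]; abel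
        _ = _ := by rw [e5, e6]; abel
    · refine Finset.sum_congr rfl (fun k hk => ?_)
      simp only [Finset.mem_erase, Finset.mem_range] at hk
      rw [smul_mul_assoc]
      rcases Nat.lt_or_ge (i + 1) (n - k) with h1 | h1
      · rw [E_T_far h1, mul_smul_comm, ← mul_assoc, ih i (by omega), mul_smul_comm,
          smul_mul_assoc, smul_comm]
      · rw [E_T_lt (show n - k < i by omega) (by omega), mul_smul_comm, ← mul_assoc,
          ih (i - 1) (by omega), mul_smul_comm, smul_mul_assoc, smul_comm]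

theorem sy_mul (h : q * qi = 1) (n : ℕ) {g : HQ R q qi} (hg : g ∈ HH R (q - qi) n) :
    sy q qi n * g = chi h g • sy q qi n := by
  refine HH_induction (P := fun g : HQ R q qi => sy q qi n * g = chi h g • sy q qi n)
    ?_ ?_ ?_ ?_ hg
  · intro r
    rw [AlgHom.commutes, ← Algebra.commutes, ← Algebra.smul_def]; rfl
  · intro i hi
    rw [sy_mul_T h n i hi, chi_T]
  · intro x y hx hy
    rw [mul_add, hx, hy, map_add, add_smul]
  · intro x y hx hy
    rw [← mul_assoc, hx, smul_mul_assoc, hy, map_mul, smul_smul]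

theorem rev_sy (h : q * qi = 1) (n : ℕ)
    (hu : IsUnit (∏ m ∈ Finset.range n, qn q (m + 1))) :
    rev (sy q qi n : HQ R q qi) = sy q qi n := by
  have h1 : (sy q qi n : HQ R q qi) * rev (sy q qi n) = chi h (sy q qi n) • sy q qi n := by
    rw [sy_mul h n (rev_mem (sy_mem n)), chi_rev]
  have h2 : (sy q qi n : HQ R q qi) * rev (sy q qi n) = chi h (sy q qi n) • rev (sy q qi n) := by
    have := congrArg rev (sy_mul h n (rev_mem (sy_mem (q := q) (qi := qi) n)))
    rw [rev_mul, rev_rev, chi_rev, map_smul] at this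
    exact this
  rw [h1, chi_sy] at h2
  exact (hu.smul_left_cancel.1 h2).symm

theorem mul_sy (h : q * qi = 1) (n : ℕ)
    (hu : IsUnit (∏ m ∈ Finset.range n, qn q (m + 1))) {g : HQ R q qi}
    (hg : g ∈ HH R (q - qi) n) : g * sy q qi n = chi h g • sy q qi n := by
  have := congrArg rev (sy_mul h n (rev_mem hg))
  rw [rev_mul, rev_rev, chi_rev, map_smul, rev_sy h n hu] at this
  exact this

/-! ### The sum of the `V j` and the Coxeter elements -/

theorem AA_mem (k : ℕ) : (AA k : HQ R q qi) ∈ HH R (q - qi) k := by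
  induction k using Nat.twoStepInduction with
  | zero => exact zero_mem _
  | one => exact one_mem _
  | more k _ h2 =>
    exact add_mem (mul_mem (HH_mono (by omega) h2) (Ti_mem (by omega)))
      (HH_mono (by omega) (D_mem 0 (k + 1)))

theorem coxeter_eq (k : ℕ) : ((k + 1 : ℕ) : R) • (D 0 k : HQ R q qi) = AA (k + 1) +
    (q - qi) • ∑ j ∈ Finset.range k, AA (j + 1) * D (j + 1) (k - 1 - j) := by
  induction k with
  | zero => simp [D, AA]
  | succ k ih =>
    have h1 : (AA (k + 1) : HQ R q qi) * T k = AA (k + 1) * Ti k + (q - qi) • AA (k + 1) := by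
      have : (T k : HQ R q qi) = Ti k + algebraMap R _ (q - qi) := by unfold Ti; abel
      rw [this, mul_add, ← Algebra.commutes, ← Algebra.smul_def]
    have h2 : ∑ j ∈ Finset.range (k + 1), (AA (j + 1) : HQ R q qi) * D (j + 1) (k + 1 - 1 - j) =
        (∑ j ∈ Finset.range k, AA (j + 1) * D (j + 1) (k - 1 - j)) * T k + AA (k + 1) := by
      rw [Finset.sum_range_succ, Finset.sum_mul]
      congr 1
      · refine Finset.sum_congr rfl (fun j hj => ?_)
        have hj' := Finset.mem_range.1 hj
        rw [show k + 1 - 1 - j = (k - 1 - j) + 1 by omega]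
        show AA (j + 1) * (D (j + 1) (k - 1 - j) * T (j + 1 + (k - 1 - j))) = _
        rw [show j + 1 + (k - 1 - j) = k by omega, mul_assoc]
      · rw [show k + 1 - 1 - k = 0 by omega]
        exact mul_one _
    have h3 : ((k + 1 + 1 : ℕ) : R) • (D 0 (k + 1) : HQ R q qi) =
        (((k + 1 : ℕ) : R) • D 0 k) * T k + D 0 (k + 1) := by
      have h4 : (D 0 (k + 1) : HQ R q qi) = D 0 k * T k := by
        show D 0 k * T (0 + k) = _
        rw [zero_add]
      rw [smul_mul_assoc, ← h4]
      push_cast
      rw [add_smul, one_smul]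
    rw [h3, ih, add_mul, smul_mul_assoc, h1, h2]
    show _ = AA (k + 1) * Ti k + D 0 (k + 1) + _
    rw [smul_add]
    abel

/-! ### Quantum integers -/

theorem br_add {F : Type*} [Field F] {q qi : F} (h : q * qi = 1) (hz : q - qi ≠ 0) (a b : ℕ) :
    br q qi (a + b) = q ^ b * br q qi a + qi ^ a * br q qi b := by
  apply mul_left_cancel₀ hz
  have h1 := Pe17fed.br_mul_z q qi h (a + b)
  have h2 := Pe17fed.br_mul_z q qi h a
  have h3 := Pe17fed.br_mul_z q qi h b
  rw [h1, mul_add, mul_left_comm, h2, mul_left_comm, h3, pow_add, pow_add]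
  ring

/-! ### Newton's identities -/

theorem sum_reindex {M : Type*} [AddCommMonoid M] (n : ℕ) (g : ℕ → ℕ → M) :
    ∑ k ∈ Finset.range n, ∑ j ∈ Finset.range k, g j k =
      ∑ j ∈ Finset.range n, ∑ k ∈ Finset.range (n - 1 - j), g j (j + 1 + k) := by
  rw [Finset.sum_sigma', Finset.sum_sigma']
  refine Finset.sum_bij' (fun x _ => ⟨x.2, x.1 - 1 - x.2⟩) (fun x _ => ⟨x.1 + 1 + x.2, x.1⟩)
    ?_ ?_ ?_ ?_ ?_
  · rintro ⟨k, j⟩ h
    simp only [Finset.mem_sigma, Finset.mem_range] at h ⊢
    omega
  · rintro ⟨j, k⟩ h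
    simp only [Finset.mem_sigma, Finset.mem_range] at h ⊢
    omega
  · rintro ⟨k, j⟩ h
    simp only [Finset.mem_sigma, Finset.mem_range] at h
    simp only [Sigma.mk.injEq, heq_eq_eq, and_true]
    omega
  · rintro ⟨j, k⟩ h
    simp only [Sigma.mk.injEq, heq_eq_eq, true_and]
    omega
  · rintro ⟨k, j⟩ h
    simp only [Finset.mem_sigma, Finset.mem_range] at h
    show g j k = g j (j + 1 + (k - 1 - j))
    congr 1
    omega

theorem sum_swap {M : Type*} [AddCommMonoid M] (n : ℕ) (g : ℕ → ℕ → M) :
    ∑ k ∈ Finset.range n, ∑ j ∈ Finset.range (n - 1 - k), g j k =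
      ∑ j ∈ Finset.range n, ∑ k ∈ Finset.range (n - 1 - j), g j k := by
  apply Finset.sum_comm'
  intro x y
  simp only [Finset.mem_range]
  omega

section field

variable {F : Type u} [Field F] {q qi : F}

variable (q qi) in
/-- The closure of `hh n` is the complete symmetric function. -/
noncomputable def hh (n : ℕ) : HQ F q qi := (∏ m ∈ Finset.range n, qn q (m + 1))⁻¹ • sy q qi n

theorem hh_mem (n : ℕ) : hh q qi n ∈ HH F (q - qi) n := Subalgebra.smul_mem _ (sy_mem n) _

theorem hh_zero : hh q qi 0 = 1 := by simp [hh, sy]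

variable (q qi) in
/-- The power sums. -/
noncomputable def Pp : ℕ → HQ F q qi
  | 0 => 0
  | n + 1 => ((n + 1 : ℕ) : F) • hh q qi (n + 1) -
      ∑ k : Fin n, Pp (k + 1) * sh (k + 1) (hh q qi (n - k))

theorem newton (n : ℕ) : ((n + 1 : ℕ) : F) • hh q qi (n + 1) =
    ∑ k ∈ Finset.range (n + 1), Pp q qi (k + 1) * sh (k + 1) (hh q qi (n - k)) := by
  rw [Finset.sum_range_succ, Nat.sub_self, hh_zero, map_one, mul_one, Pp,
    Fin.sum_univ_eq_sum_range (fun k => Pp q qi (k + 1) * sh (k + 1) (hh q qi (n - k)))]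
  abel

theorem Pp_mem (n : ℕ) : Pp q qi n ∈ HH F (q - qi) n := by
  induction n using Nat.strong_induction_on with
  | _ n ih =>
    cases n with
    | zero => rw [Pp]; exact zero_mem _
    | succ n =>
      rw [Pp]
      refine sub_mem (Subalgebra.smul_mem _ (hh_mem _) _) (sum_mem (fun k _ => ?_))
      refine mul_mem (HH_mono (by omega) (ih (k + 1) (by omega))) ?_
      exact HH_mono (by omega) (sh_mem (k := k + 1) (hh_mem (n - k)))

variable (h : q * qi = 1) (hq : ∀ k, qn q (k + 1) ≠ 0)

include hq in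
theorem prod_isUnit (n : ℕ) : IsUnit (∏ m ∈ Finset.range n, qn q (m + 1)) :=
  (Finset.prod_ne_zero_iff.2 (fun m _ => hq m)).isUnit

include h hq

theorem sy_step {N : ℕ} {f : HQ F q qi →ₗ[F] F} (hf : IsTr N f) {m j : ℕ}
    (hN : m + 2 + j ≤ N) :
    f (sy q qi (m + 2) * D (m + 1) j) = f (sy q qi (m + 1) * D (m + 1) j) +
      q * qn q (m + 1) * f (sy q qi (m + 1) * D m (j + 1)) := by
  have e1 : (sy q qi (m + 2) : HQ F q qi) = sy q qi (m + 1) *
      ∑ k ∈ Finset.range (m + 2), q ^ k • E (m + 1 - k) k := rfl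
  rw [e1, mul_assoc, Finset.sum_mul, Finset.sum_range_succ', mul_add, map_add, add_comm]
  congr 1
  · simp [E]
  · rw [Finset.mul_sum, map_sum]
    have e2 : q * qn q (m + 1) = ∑ k ∈ Finset.range (m + 1), q ^ (k + 1) * q ^ k := by
      unfold qn
      rw [Finset.mul_sum]
      refine Finset.sum_congr rfl (fun k _ => ?_)
      ring
    rw [e2, Finset.sum_mul]
    refine Finset.sum_congr rfl (fun k hk => ?_)
    have hk' := Finset.mem_range.1 hk
    have e3 : m + 1 - (k + 1) = m - k := by omega
    rw [e3]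
    have e4 : (E (m - k) (k + 1) : HQ F q qi) = T m * E (m - k) k := by
      show T (m - k + k) * _ = _
      rw [Nat.sub_add_cancel (by omega)]
    have hE : (E (m - k) k : HQ F q qi) ∈ HH F (q - qi) (m + 1) :=
      HH_mono (by omega) (E_mem (m - k) k)
    have e5 : (E (m - k) k : HQ F q qi) * D (m + 1) j = D (m + 1) j * E (m - k) k := by
      have := comm_sh (k := m + 1) le_rfl hE (D 0 j)
      rwa [sh_D, zero_add] at this
    have hD : (D m (j + 1) : HQ F q qi) ∈ HH F (q - qi) N := HH_mono (by omega) (D_mem m (j + 1))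
    rw [smul_mul_assoc, mul_smul_comm, map_smul, smul_eq_mul, e4, mul_assoc (T m), e5,
      ← mul_assoc (T m), ← D_succ', ← mul_assoc,
      hf _ (mul_mem (HH_mono (by omega) (sy_mem (m + 1))) hD) _ (HH_mono (by omega) hE),
      ← mul_assoc, mul_sy h (m + 1) (prod_isUnit hq _) hE, chi_E, smul_mul_assoc, map_smul,
      smul_eq_mul, mul_assoc]

theorem hh_step {N : ℕ} {f : HQ F q qi →ₗ[F] F} (hf : IsTr N f) (m : ℕ) :
    ∀ j, m + 1 + j ≤ N → qn q (m + 1) * f (hh q qi (m + 1) * D m j) =
      ∑ k ∈ Finset.range (m + 1), q ^ k * f (hh q qi (m - k) * D (m - k) (j + k)) := by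
  induction m with
  | zero =>
    intro j _
    have e1 : hh q qi 1 = 1 := by simp [hh, sy, E, qn]
    rw [e1, Finset.sum_range_one, hh_zero]
    simp [qn]
  | succ m ih =>
    intro j hN
    have hs := sy_step h hq hf (m := m) (j := j) (by omega)
    have h1 := hq (m + 1)
    have h2 := (prod_isUnit hq (m + 1)).ne_zero
    have e1 : qn q (m + 2) * f (hh q qi (m + 2) * D (m + 1) j) =
        (∏ m ∈ Finset.range (m + 1), qn q (m + 1))⁻¹ * f (sy q qi (m + 2) * D (m + 1) j) := by
      unfold hh
      rw [smul_mul_assoc, map_smul, smul_eq_mul, Finset.prod_range_succ _ (m + 1), mul_inv]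
      field_simp
    have e2 : ∀ x, f (hh q qi (m + 1) * x) =
        (∏ m ∈ Finset.range (m + 1), qn q (m + 1))⁻¹ * f (sy q qi (m + 1) * x) := by
      intro x
      unfold hh
      rw [smul_mul_assoc, map_smul, smul_eq_mul]
    show qn q (m + 2) * f (hh q qi (m + 2) * D (m + 1) j) = _
    rw [e1, hs, mul_add, ← e2, Finset.sum_range_succ', add_comm]
    congr 1
    · have h3 := ih (j + 1) (by omega)
      rw [e2] at h3
      calc (∏ m ∈ Finset.range (m + 1), qn q (m + 1))⁻¹ *
            (q * qn q (m + 1) * f (sy q qi (m + 1) * D m (j + 1)))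
          = q * (qn q (m + 1) * ((∏ m ∈ Finset.range (m + 1), qn q (m + 1))⁻¹ *
            f (sy q qi (m + 1) * D m (j + 1)))) := by ring
        _ = _ := by
          rw [h3, Finset.mul_sum]
          refine Finset.sum_congr rfl (fun k _ => ?_)
          rw [show m + 1 - (k + 1) = m - k by omega, show j + 1 + k = j + (k + 1) by omega]
          ring
    · simp

theorem lemA {n : ℕ} {f : HQ F q qi →ₗ[F] F} (hf : IsTr n f) :
    br q qi n * f (hh q qi n) =
      ∑ k ∈ Finset.range n, qi ^ (n - 1 - k) *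
        f (hh q qi (n - 1 - k) * sh (n - 1 - k) (D 0 k)) := by
  cases n with
  | zero => simp [br]
  | succ n =>
    have h1 := hh_step h hq hf n 0 (by omega)
    rw [show (D n 0 : HQ F q qi) = 1 from rfl, mul_one, ← pow_mul_br q qi h] at h1
    have h2 : qi ^ n * q ^ n = 1 := by rw [← mul_pow, mul_comm, h, one_pow]
    calc br q qi (n + 1) * f (hh q qi (n + 1))
        = qi ^ n * (q ^ n * br q qi (n + 1) * f (hh q qi (n + 1))) := by
          rw [← mul_assoc, ← mul_assoc, h2, one_mul]
      _ = _ := by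
        rw [h1, Finset.mul_sum]
        refine Finset.sum_congr rfl (fun k hk => ?_)
        have hk' := Finset.mem_range.1 hk
        rw [show n + 1 - 1 - k = n - k by omega, sh_D, zero_add, zero_add, ← mul_assoc]
        congr 1
        obtain ⟨d, rfl⟩ : ∃ d, n = k + d := ⟨n - k, by omega⟩
        rw [show k + d - k = d by omega, pow_add, mul_right_comm, ← mul_pow, mul_comm qi, h,
          one_pow, one_mul]

/-- **The sum of the `V j` represents `[n]` times the power sum.** -/
theorem AA_eq_Pp (hz : q - qi ≠ 0) (n : ℕ) :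
    ∀ f : HQ F q qi →ₗ[F] F, IsTr (n + 1) f →
      f (AA (n + 1)) = br q qi (n + 1) * f (Pp q qi (n + 1)) := by
  induction n using Nat.strong_induction_on with
  | _ n ih =>
    intro f hf
    -- abbreviations
    set Xj : ℕ → F := fun j => f (AA (j + 1) * sh (j + 1) (hh q qi (n - j))) with hXj
    set Pj : ℕ → F := fun j => f (Pp q qi (j + 1) * sh (j + 1) (hh q qi (n - j))) with hPj
    have hA := lemA h hq hf
    -- multiply by `n + 1`
    have hsh : ∀ (m k : ℕ) (x : HQ F q qi), x ∈ HH F (q - qi) k →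
        sh m x ∈ HH F (q - qi) (m + k) := by
      intro m k x hx
      have := sh_mem (k := m) hx
      rwa [add_comm] at this
    have t1 : ∀ k ∈ Finset.range (n + 1), ((k + 1 : ℕ) : F) *
        f (hh q qi (n - k) * sh (n - k) (D 0 k)) = Xj k + (q - qi) *
          ∑ j ∈ Finset.range k, f (AA (j + 1) * sh (j + 1)
            (hh q qi (n - k) * sh (n - k) (D 0 (k - 1 - j)))) := by
      intro k hk
      have hk' := Finset.mem_range.1 hk
      have e1 : ((k + 1 : ℕ) : F) * f (hh q qi (n - k) * sh (n - k) (D 0 k)) =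
          f (hh q qi (n - k) * sh (n - k) (((k + 1 : ℕ) : F) • D 0 k)) := by
        rw [map_smul, mul_smul_comm, map_smul, smul_eq_mul]
      rw [e1, coxeter_eq, map_add, mul_add, map_add]
      congr 1
      · have hf' : IsTr (n - k + (k + 1)) f := by
          rwa [show n - k + (k + 1) = n + 1 by omega]
        exact hf'.comm (hh_mem _) (AA_mem _)
      · rw [map_smul, mul_smul_comm, map_smul, smul_eq_mul, map_sum, Finset.mul_sum, map_sum]
        congr 1
        refine Finset.sum_congr rfl (fun j hj => ?_)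
        have hj' := Finset.mem_range.1 hj
        have hDm : (D 0 (k - 1 - j) : HQ F q qi) ∈ HH F (q - qi) (k - j) :=
          HH_mono (by omega) (D_mem 0 (k - 1 - j))
        have e2 : (D (j + 1) (k - 1 - j) : HQ F q qi) = sh (j + 1) (D 0 (k - 1 - j)) := by
          rw [sh_D, zero_add]
        have e3 : (sh (n - k + (j + 1)) (D 0 (k - 1 - j)) : HQ F q qi) =
            sh (n - k) (D (j + 1) (k - 1 - j)) := by
          rw [e2, sh_sh, add_comm]
        have hf' : IsTr ((n - k + (j + 1)) + (k - j)) f := by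
          rwa [show (n - k + (j + 1)) + (k - j) = n + 1 by omega]
        have e4 := (hf'.left hDm).comm (hh_mem (n - k)) (AA_mem (j + 1))
        simp only [LinearMap.comp_apply, LinearMap.mulRight_apply] at e4
        rw [map_mul (sh (n - k)), ← mul_assoc, ← e3, e4, map_mul (sh (j + 1)), sh_sh, mul_assoc]
    have t2 : ∀ k ∈ Finset.range (n + 1), ((n - k : ℕ) : F) *
        f (hh q qi (n - k) * sh (n - k) (D 0 k)) =
          ∑ j ∈ Finset.range (n - k), f (Pp q qi (j + 1) * sh (j + 1)
            (hh q qi (n - 1 - k - j) * sh (n - 1 - k - j) (D 0 k))) := by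
      intro k hk
      have hk' := Finset.mem_range.1 hk
      rcases Nat.eq_zero_or_pos (n - k) with h0 | h0
      · rw [h0]; simp
      · obtain ⟨m, hm⟩ : ∃ m, n - k = m + 1 := ⟨n - k - 1, by omega⟩
        rw [hm]
        have e1 : ((m + 1 : ℕ) : F) * f (hh q qi (m + 1) * sh (m + 1) (D 0 k)) =
            f ((((m + 1 : ℕ) : F) • hh q qi (m + 1)) * sh (m + 1) (D 0 k)) := by
          rw [smul_mul_assoc, map_smul, smul_eq_mul]
        rw [e1, newton, Finset.sum_mul, map_sum]
        refine Finset.sum_congr rfl (fun j hj => ?_)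
        have hj' := Finset.mem_range.1 hj
        rw [map_mul (sh (j + 1)), sh_sh, mul_assoc, show n - 1 - k - j = m - j by omega,
          show m - j + (j + 1) = m + 1 by omega]
    have key : ∑ j ∈ Finset.range (n + 1), q ^ (n - j) * Xj j =
        ∑ j ∈ Finset.range (n + 1), q ^ (n - j) * (br q qi (j + 1) * Pj j) := by
      have hL : ((n + 1 : ℕ) : F) * (br q qi (n + 1) * f (hh q qi (n + 1))) =
          br q qi (n + 1) * ∑ j ∈ Finset.range (n + 1), Pj j := by
        have e1 : ((n + 1 : ℕ) : F) * f (hh q qi (n + 1)) = ∑ j ∈ Finset.range (n + 1), Pj j := by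
          have : ((n + 1 : ℕ) : F) * f (hh q qi (n + 1)) =
              f (((n + 1 : ℕ) : F) • hh q qi (n + 1)) := by rw [map_smul, smul_eq_mul]
          rw [this, newton, map_sum]
        rw [← e1]; ring
      rw [hA] at hL
      have hsplit : ((n + 1 : ℕ) : F) * ∑ k ∈ Finset.range (n + 1), qi ^ (n + 1 - 1 - k) *
          f (hh q qi (n + 1 - 1 - k) * sh (n + 1 - 1 - k) (D 0 k)) =
          ∑ k ∈ Finset.range (n + 1), qi ^ (n - k) * (((k + 1 : ℕ) : F) *
            f (hh q qi (n - k) * sh (n - k) (D 0 k))) +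
          ∑ k ∈ Finset.range (n + 1), qi ^ (n - k) * (((n - k : ℕ) : F) *
            f (hh q qi (n - k) * sh (n - k) (D 0 k))) := by
        rw [Finset.mul_sum, ← Finset.sum_add_distrib]
        refine Finset.sum_congr rfl (fun k hk => ?_)
        have hk' := Finset.mem_range.1 hk
        have : ((n + 1 : ℕ) : F) = ((k + 1 : ℕ) : F) + ((n - k : ℕ) : F) := by
          rw [← Nat.cast_add]; congr 1; omega
        rw [this, show n + 1 - 1 - k = n - k by omega]
        ring
      rw [hsplit, Finset.sum_congr rfl (fun k hk => congrArg _ (t1 k hk)),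
        Finset.sum_congr rfl (fun k hk => congrArg _ (t2 k hk))] at hL
      -- first sum
      have s1 : ∑ k ∈ Finset.range (n + 1), qi ^ (n - k) * (Xj k + (q - qi) *
          ∑ j ∈ Finset.range k, f (AA (j + 1) * sh (j + 1)
            (hh q qi (n - k) * sh (n - k) (D 0 (k - 1 - j))))) =
          ∑ j ∈ Finset.range (n + 1), q ^ (n - j) * Xj j := by
        have e1 : ∑ k ∈ Finset.range (n + 1), qi ^ (n - k) * ((q - qi) *
            ∑ j ∈ Finset.range k, f (AA (j + 1) * sh (j + 1)
              (hh q qi (n - k) * sh (n - k) (D 0 (k - 1 - j))))) =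
            ∑ j ∈ Finset.range (n + 1), (q - qi) * (br q qi (n - j) * Xj j) := by
          have e2 : ∀ k ∈ Finset.range (n + 1), qi ^ (n - k) * ((q - qi) *
            ∑ j ∈ Finset.range k, f (AA (j + 1) * sh (j + 1)
              (hh q qi (n - k) * sh (n - k) (D 0 (k - 1 - j))))) =
              ∑ j ∈ Finset.range k, (q - qi) * (qi ^ (n - k) * f (AA (j + 1) * sh (j + 1)
              (hh q qi (n - k) * sh (n - k) (D 0 (k - 1 - j))))) := by
            intro k _
            rw [Finset.mul_sum, Finset.mul_sum]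
            refine Finset.sum_congr rfl (fun j _ => ?_)
            ring
          rw [Finset.sum_congr rfl e2, sum_reindex]
          refine Finset.sum_congr rfl (fun j hj => ?_)
          have hj' := Finset.mem_range.1 hj
          have hf' : IsTr ((j + 1) + (n - j)) f := by
            rwa [show (j + 1) + (n - j) = n + 1 by omega]
          have e3 := lemA h hq (hf'.right (AA_mem (j + 1)))
          simp only [LinearMap.comp_apply, LinearMap.mulLeft_apply,
            AlgHom.toLinearMap_apply] at e3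
          show _ = (q - qi) * (br q qi (n - j) * f (AA (j + 1) * sh (j + 1) (hh q qi (n - j))))
          rw [e3, ← Finset.mul_sum, show n + 1 - 1 - j = n - j by omega]
          congr 1
          refine Finset.sum_congr rfl (fun k hk => ?_)
          have hk' := Finset.mem_range.1 hk
          rw [show n - (j + 1 + k) = n - j - 1 - k by omega,
            show j + 1 + k - 1 - j = k by omega]
        have e4 : ∀ k ∈ Finset.range (n + 1), qi ^ (n - k) * (Xj k + (q - qi) *
          ∑ j ∈ Finset.range k, f (AA (j + 1) * sh (j + 1)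
            (hh q qi (n - k) * sh (n - k) (D 0 (k - 1 - j))))) =
            qi ^ (n - k) * Xj k + qi ^ (n - k) * ((q - qi) *
          ∑ j ∈ Finset.range k, f (AA (j + 1) * sh (j + 1)
            (hh q qi (n - k) * sh (n - k) (D 0 (k - 1 - j))))) := fun k _ => mul_add _ _ _
        rw [Finset.sum_congr rfl e4, Finset.sum_add_distrib, e1, ← Finset.sum_add_distrib]
        refine Finset.sum_congr rfl (fun j _ => ?_)
        have e5 := Pe17fed.br_mul_z q qi h (n - j)
        linear_combination (Xj j) * e5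
      -- second sum
      have s2 : ∑ k ∈ Finset.range (n + 1), qi ^ (n - k) *
          ∑ j ∈ Finset.range (n - k), f (Pp q qi (j + 1) * sh (j + 1)
            (hh q qi (n - 1 - k - j) * sh (n - 1 - k - j) (D 0 k))) =
          ∑ j ∈ Finset.range (n + 1), qi ^ (j + 1) * (br q qi (n - j) * Pj j) := by
        have e2 : ∀ k ∈ Finset.range (n + 1), qi ^ (n - k) *
          ∑ j ∈ Finset.range (n - k), f (Pp q qi (j + 1) * sh (j + 1)
            (hh q qi (n - 1 - k - j) * sh (n - 1 - k - j) (D 0 k))) =
            ∑ j ∈ Finset.range (n + 1 - 1 - k), qi ^ (n - k) * f (Pp q qi (j + 1) * sh (j + 1)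
            (hh q qi (n - 1 - k - j) * sh (n - 1 - k - j) (D 0 k))) := by
          intro k _
          rw [Finset.mul_sum, show n + 1 - 1 - k = n - k by omega]
        rw [Finset.sum_congr rfl e2, sum_swap]
        refine Finset.sum_congr rfl (fun j hj => ?_)
        have hj' := Finset.mem_range.1 hj
        have hf' : IsTr ((j + 1) + (n - j)) f := by
          rwa [show (j + 1) + (n - j) = n + 1 by omega]
        have e3 := lemA h hq (hf'.right (Pp_mem (j + 1)))
        simp only [LinearMap.comp_apply, LinearMap.mulLeft_apply,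
          AlgHom.toLinearMap_apply] at e3
        show _ = qi ^ (j + 1) * (br q qi (n - j) *
          f (Pp q qi (j + 1) * sh (j + 1) (hh q qi (n - j))))
        rw [e3, Finset.mul_sum, show n + 1 - 1 - j = n - j by omega]
        refine Finset.sum_congr rfl (fun k hk => ?_)
        have hk' := Finset.mem_range.1 hk
        rw [show n - k = (j + 1) + (n - j - 1 - k) by omega, pow_add,
          show n - 1 - k - j = n - j - 1 - k by omega, mul_assoc]
      rw [s1, s2] at hL
      have e6 : ∑ j ∈ Finset.range (n + 1), q ^ (n - j) * Xj j =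
          br q qi (n + 1) * ∑ j ∈ Finset.range (n + 1), Pj j -
            ∑ j ∈ Finset.range (n + 1), qi ^ (j + 1) * (br q qi (n - j) * Pj j) := by
        rw [← hL]; ring
      rw [e6, Finset.mul_sum, ← Finset.sum_sub_distrib]
      refine Finset.sum_congr rfl (fun j hj => ?_)
      have hj' := Finset.mem_range.1 hj
      have e7 := br_add h hz (j + 1) (n - j)
      rw [show j + 1 + (n - j) = n + 1 by omega] at e7
      rw [e7]; ring
    rw [Finset.sum_range_succ, Finset.sum_range_succ] at key
    have hsum : ∑ j ∈ Finset.range n, q ^ (n - j) * Xj j =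
        ∑ j ∈ Finset.range n, q ^ (n - j) * (br q qi (j + 1) * Pj j) := by
      refine Finset.sum_congr rfl (fun j hj => ?_)
      have hj' := Finset.mem_range.1 hj
      congr 1
      have hf' : IsTr ((j + 1) + (n - j)) f := by
        rwa [show (j + 1) + (n - j) = n + 1 by omega]
      have := ih j hj' _ (hf'.left (hh_mem (q := q) (qi := qi) (n - j)))
      simpa only [LinearMap.comp_apply, LinearMap.mulRight_apply] using this
    rw [hsum] at key
    have := add_left_cancel key
    simpa [hXj, hPj, hh_zero] using this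

end field

end Pool.Agent.Lib.Hecke59.Nw
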