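import Mathlib
import Pool.Agent.Lib.Pe17fed.Newton
import Pool.Agent.Lib.Pe17fed.Defs
import Pool.Agent.Lib.Pe17fed.Compare

/-! Replacement of the power sums by the elements `xp`, in decorated cables over `ℚ(q, a)`. -/

namespace Pool.Agent.Lib.Pe17fed

open Equiv Equiv.Perm

/-! ### Elements of `ℚ(q, a)` -/

theorem algK_inj : Function.Injective (algebraMap (MvPolynomial (Fin 2) ℚ) K) :=
  IsFractionRing.injective _ _

theorem qv_ne : qv ≠ 0 := by
  unfold qv
  rw [Ne, map_eq_zero_iff _ algK_inj]
  exact MvPolynomial.X_ne_zero 0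

theorem av_ne : av ≠ 0 := by
  unfold av
  rw [Ne, map_eq_zero_iff _ algK_inj]
  exact MvPolynomial.X_ne_zero 1

theorem qv_mul : qv * qv⁻¹ = 1 := mul_inv_cancel₀ qv_ne

theorem zv_ne : zv ≠ 0 := by
  intro h
  have h1 : qv ^ 2 - 1 = 0 := by
    have : qv ^ 2 - 1 = zv * qv := by
      unfold zv
      rw [sub_mul, inv_mul_cancel₀ qv_ne]; ring
    rw [this, h, zero_mul]
  unfold qv at h1
  rw [← map_pow, ← map_one (algebraMap (MvPolynomial (Fin 2) ℚ) K), ← map_sub,
    map_eq_zero_iff _ algK_inj] at h1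
  have h2 := congrArg (MvPolynomial.eval (fun _ => (2 : ℚ))) h1
  norm_num at h2

theorem qn_qv_ne (k : ℕ) : qn qv (k + 1) ≠ 0 := by
  unfold qn qv
  have e : ∑ t ∈ Finset.range (k + 1), (algebraMap (MvPolynomial (Fin 2) ℚ) K)
      (MvPolynomial.X 0) ^ (2 * t) = algebraMap (MvPolynomial (Fin 2) ℚ) K
        (∑ t ∈ Finset.range (k + 1), (MvPolynomial.X 0) ^ (2 * t)) := by
    simp
  rw [e, Ne, map_eq_zero_iff _ algK_inj]
  intro h1
  have h2 := congrArg (MvPolynomial.eval (fun _ => (1 : ℚ))) h1
  simp at h2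
  exact absurd h2 (by positivity)

/-! ### Images in the Hecke algebra -/

open Hecke59 (Hk HH)

/-- The homomorphism to the Hecke algebra over `ℚ(q, a)`. -/
noncomputable abbrev pK : A K →+* Hecke59.Nw.HQ K qv qv⁻¹ := piA

theorem pK_dn (n k : ℕ) (hk : k ≤ n) : pK (ob (dn n k)) = Hecke59.E (n - k) k := by
  induction k with
  | zero =>
    show pK (ob 1) = 1
    rw [map_one, map_one]
  | succ k ih =>
    show pK (ob (dn n k * sg (n - 1 - k))) = _
    rw [map_mul, map_mul, ih (by omega), Hecke59.Nw.E_succ', show n - (k + 1) + 1 = n - k by omega]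
    congr 1
    rw [pK, piA_ob, piB_sg_val, show n - 1 - k = n - (k + 1) by omega]

theorem pK_syme (n : ℕ) : pK (syme n) = Hecke59.Nw.sy qv qv⁻¹ n := by
  induction n with
  | zero => exact map_one _
  | succ n ih =>
    show pK (syme n * ∑ k ∈ Finset.range (n + 1), qv ^ k • ob (dn n k)) =
      Hecke59.Nw.sy qv qv⁻¹ n * ∑ k ∈ Finset.range (n + 1), qv ^ k • Hecke59.E (n - k) k
    rw [map_mul, ih, map_sum]
    congr 1
    refine Finset.sum_congr rfl (fun k hk => ?_)
    have hk' := Finset.mem_range.1 hk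
    rw [pK, piA_smul, pK_dn n k (by omega)]
    rfl

theorem pK_hsym (n : ℕ) : pK (hsym n) = Hecke59.Nw.hh qv qv⁻¹ n := by
  unfold hsym
  rw [pK, piA_smul]
  show (symc n)⁻¹ • pK (syme n) = _
  rw [pK_syme]
  rfl

theorem pK_Psum (n : ℕ) : pK (Psum n) = Hecke59.Nw.Pp qv qv⁻¹ n := by
  induction n using Nat.strong_induction_on with
  | _ n ih =>
    cases n with
    | zero => rw [Psum, Hecke59.Nw.Pp, map_zero]
    | succ n =>
      rw [Psum, Hecke59.Nw.Pp, map_sub, map_sum]
      congr 1
      · rw [pK, piA_smul]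
        show _ • pK _ = _
        rw [pK_hsym]; rfl
      · refine Finset.sum_congr rfl (fun k _ => ?_)
        rw [map_mul, ih (k + 1) (by omega), pK, piA_shA]
        show _ * Hecke59.sh _ (pK _) = _
        rw [pK_hsym]

theorem pK_V (j m : ℕ) (hj : m ≤ j) : pK (ob (V j m)) = Hecke59.D 0 m := by
  induction m with
  | zero => exact (congrArg pK (map_one ob)).trans (map_one _)
  | succ m ih =>
    show pK (ob (V j m * (if m < j then sg m else (sg m)⁻¹))) = Hecke59.D 0 m * Hecke59.T (0 + m)
    rw [if_pos (by omega), map_mul, map_mul, ih (by omega), zero_add]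
    congr 1
    rw [pK, piA_ob, piB_sg_val]

theorem pK_xp (p : ℕ) : pK (xp K p) = Hecke59.AA p := by
  have key : ∀ m, pK (xp K (m + 1)) = Hecke59.AA (m + 1) := by
    intro m
    induction m with
    | zero =>
      show pK (∑ j ∈ Finset.range 1, ob (V j 0)) = 1
      rw [Finset.sum_range_one]
      exact (congrArg pK (map_one ob)).trans (map_one _)
    | succ m ih =>
      show pK (∑ j ∈ Finset.range (m + 2), ob (V j (m + 1))) =
        Hecke59.AA (m + 1) * Hecke59.Ti m + Hecke59.D 0 (m + 1)
      rw [Finset.sum_range_succ, map_add, pK_V _ _ le_rfl, ← ih]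
      congr 1
      show _ = pK (∑ j ∈ Finset.range (m + 1), ob (V j m)) * _
      rw [map_sum, map_sum, Finset.sum_mul]
      refine Finset.sum_congr rfl (fun j hj => ?_)
      have hj' := Finset.mem_range.1 hj
      show pK (ob (V j m * (if m < j then sg m else (sg m)⁻¹))) = _
      rw [if_neg (by omega), map_mul, map_mul]
      congr 1
      rw [pK, piA_ob, piB_sg_inv_val]
  cases p with
  | zero =>
    show pK (∑ j ∈ Finset.range 0, ob (V j (0 - 1))) = 0
    rw [Finset.sum_range_zero, map_zero]
  | succ m => exact key m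

theorem exists_AB {n : ℕ} {x : Hecke59.Nw.HQ K qv qv⁻¹} (hx : x ∈ HH K (qv - qv⁻¹) n) :
    ∃ y ∈ AB K n, pK y = x := by
  refine Hecke59.HH_induction (P := fun x => ∃ y ∈ AB K n, pK y = x) ?_ ?_ ?_ ?_ hx
  · intro r
    refine ⟨r • 1, Submodule.smul_mem _ _ (AB_one n), ?_⟩
    rw [pK, piA_smul, map_one]
    exact (Algebra.algebraMap_eq_smul_one (A := Hecke59.Nw.HQ K qv qv⁻¹) r).symm
  · intro i hi
    exact ⟨ob (sg i), ob_mem (sg_mem hi), by rw [pK, piA_ob, piB_sg_val]⟩
  · rintro _ _ ⟨y, hy, rfl⟩ ⟨y', hy', rfl⟩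
    exact ⟨y + y', Submodule.add_mem _ hy hy', map_add _ _ _⟩
  · rintro _ _ ⟨y, hy, rfl⟩ ⟨y', hy', rfl⟩
    exact ⟨y * y', AB_mul hy hy', map_mul _ _ _⟩

/-- Newton's identities, for functionals on the group algebra of the braid group. -/
theorem xp_eq_Psum {p : ℕ} (hp : 0 < p) {Φ : A K →ₗ[K] K} (hΦ : SkeinA (qv - qv⁻¹) Φ)
    (ht : ∀ u ∈ AB K p, ∀ v ∈ AB K p, Φ (u * v) = Φ (v * u)) :
    Φ (xp K p) = br qv qv⁻¹ p * Φ (Psum p) := by
  obtain ⟨φ, hφ⟩ := exists_lift hΦ
  obtain ⟨m, rfl⟩ : ∃ m, p = m + 1 := ⟨p - 1, by omega⟩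
  have hz : qv - qv⁻¹ ≠ 0 := zv_ne
  have h := Hecke59.Nw.AA_eq_Pp qv_mul qn_qv_ne hz m φ (by
    intro x hx y hy
    obtain ⟨u, hu, rfl⟩ := exists_AB hx
    obtain ⟨v, hv, rfl⟩ := exists_AB hy
    rw [← map_mul, ← map_mul]
    exact (hφ _).trans ((ht u hu v hv).trans (hφ _).symm))
  rw [← pK_xp, ← pK_Psum] at h
  exact (hφ _).symm.trans (h.trans (congrArg _ (hφ _)))

theorem hsym_mem (n : ℕ) : hsym n ∈ AB K n := by
  refine Submodule.smul_mem _ _ ?_
  induction n with
  | zero => exact AB_one 0
  | succ n ih =>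
    refine AB_mul (AB_mono (by omega) ih) (Submodule.sum_mem _ (fun k hk => ?_))
    have hk' := Finset.mem_range.1 hk
    refine Submodule.smul_mem _ _ (ob_mem ?_)
    have key : ∀ k, k ≤ n → dn n k ∈ BB (n + 1) := by
      intro k
      induction k with
      | zero => intro _; exact Subgroup.one_mem _
      | succ k ih =>
        intro hk
        exact Subgroup.mul_mem _ (ih (by omega)) (sg_mem (by omega))
    exact key k (by omega)

theorem Psum_mem (n : ℕ) : Psum n ∈ AB K n := by
  induction n using Nat.strong_induction_on with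
  | _ n ih =>
    cases n with
    | zero => rw [Psum]; exact Submodule.zero_mem _
    | succ n =>
      rw [Psum]
      refine Submodule.sub_mem _ (Submodule.smul_mem _ _ (hsym_mem _))
        (Submodule.sum_mem _ (fun k _ => ?_))
      have := k.2
      refine AB_mul (AB_mono (by omega) (ih (k + 1) (by omega))) ?_
      exact AB_mono (by omega) (shA_mem (j := k + 1) (hsym_mem (n - k)))

/-! ### Replacement in a decorated cable -/

section repl

variable {a ai δ : K} {t : ℕ → Br → K} (ht : Markov (qv - qv⁻¹) a ai δ t)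
  (hg : GSkein (qv - qv⁻¹) t)

include ht hg

theorem replace_one {p n : ℕ} (hp : 0 < p) {b : Br} (hb : b ∈ BB n) {R : Finset ℕ}
    (hR : Tr n (perm b) R) {r : ℕ} (hr : r ∈ R) {w : ℕ → A K} (hw : ∀ r, w r ∈ AB K p)
    (hw1 : ∀ r, r ∉ R → w r = 1) (hwr : w r = 1) :
    ext (t (n * p)) (DG p (Function.update w r (xp K p)) n * ob (cab p b)) =
      br qv qv⁻¹ p * ext (t (n * p)) (DG p (Function.update w r (Psum p)) n * ob (cab p b)) := by
  have hrn := hR.lt r hr
  rw [DG_update hw hrn hwr (xp_mem hp), DG_update hw hrn hwr (Psum_mem p)]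
  set d := DG p w n with hd0
  have hd : d ∈ AB K (n * p) := DG_mem hw n
  have hc : (ob (cab p b) : A K) ∈ AB K (n * p) := ob_mem (cab_mem hb)
  set Φ : A K →ₗ[K] K := ((ext (t (n * p)) ∘ₗ LinearMap.mulRight K (ob (cab p b))) ∘ₗ
    LinearMap.mulLeft K d) ∘ₗ (shA (r * p)).toLinearMap with hΦ
  have happ : ∀ y, Φ y = ext (t (n * p)) (d * shA (r * p) y * ob (cab p b)) := fun y => rfl
  rw [← happ, ← happ]
  refine xp_eq_Psum hp ?_ ?_
  · intro i x y
    simp only [happ, map_mul, map_inv, shA_ob, sh_sg]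
    have := hg.ext_skein (k := K) (n * p) (i + r * p) (d * shA (r * p) x)
      (shA (r * p) y * ob (cab p b))
    simpa only [mul_assoc] using this
  · intro u hu v hv
    have hcomm : ∀ l, ∀ y ∈ AB K p, Commute d (shA (((perm b) ^ l) r * p) y) := by
      intro l y hy
      refine DG_comm hw ?_ hy
      by_cases hl : ((perm b) ^ l) r ∈ R
      · have := hR.un r hr _ hl ⟨(l : ℤ), by rw [zpow_natCast]⟩
        rw [← this]; exact hwr
      · exact hw1 _ hl
    have hcomm0 : ∀ y ∈ AB K p, Commute d (shA (r * p) y) := fun y hy => by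
      have := hcomm 0 y hy
      simpa using this
    obtain ⟨k, hk, hkJ, hkl⟩ := first_hit (per_perm hb) {r} (Finset.mem_singleton_self r)
    rw [Finset.mem_singleton] at hkJ
    have hu' := shA_block_mem hrn hu
    have hv' := shA_block_mem hrn hv
    have h1 := ht.around hb hd hu' hrn hv hk (fun l hl hlk => ⟨hcomm l v hv, by
      have h2 := hkl l hl hlk
      rw [Finset.mem_singleton] at h2
      exact comm_blocks (Ne.symm h2) hu hv⟩) (hcomm k v hv)
    rw [hkJ] at h1
    have conv : ∀ y ∈ AB K p, ext (t (n * p)) (d * shA (r * p) y * ob (cab p b)) =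
        ext (t (n * p)) (d * ob (cab p b) * shA (r * p) y) := by
      intro y hy
      rw [(hcomm0 y hy).eq, mul_assoc, ht.ext_comm (shA_block_mem hrn hy) (AB_mul hd hc)]
    rw [happ, happ, conv _ (AB_mul hu hv), conv _ (AB_mul hv hu), map_mul (shA (r * p)),
      map_mul (shA (r * p)), h1]

theorem replace_all {p n : ℕ} (hp : 0 < p) {b : Br} (hb : b ∈ BB n) {R : Finset ℕ}
    (hR : Tr n (perm b) R) :
    ext (t (n * p)) (D p n (xp K p) R * ob (cab p b)) =
      br qv qv⁻¹ p ^ R.card * ext (t (n * p)) (D p n (Psum p) R * ob (cab p b)) := by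
  have key : ∀ B : Finset ℕ, B ⊆ R →
      ext (t (n * p)) (DG p (fun r => if r ∈ B then xp K p else if r ∈ R then Psum p else 1) n *
        ob (cab p b)) =
      br qv qv⁻¹ p ^ B.card * ext (t (n * p)) (D p n (Psum p) R * ob (cab p b)) := by
    intro B
    induction B using Finset.induction_on with
    | empty => intro _; simp [D]
    | insert r B hr ih =>
      intro hB
      have hrR : r ∈ R := hB (Finset.mem_insert_self _ _)
      have ih' := ih (fun x hx => hB (Finset.mem_insert_of_mem hx))
      set w : ℕ → A K := fun s => if s ∈ insert r B then (if s = r then 1 else xp K p)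
        else if s ∈ R then Psum p else 1 with hw
      have h1 := replace_one ht hg hp hb hR hrR (w := w) (by
        intro s
        simp only [hw]
        split_ifs
        · exact AB_one _
        · exact xp_mem hp
        · exact Psum_mem _
        · exact AB_one _) (by
        intro s hs
        simp only [hw]
        rw [if_neg (fun h => hs (hB h)), if_neg hs]) (by
        simp [hw])
      have e1 : Function.update w r (xp K p) =
          fun s => if s ∈ insert r B then xp K p else if s ∈ R then Psum p else 1 := by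
        funext s
        by_cases hs : s = r
        · subst hs; simp
        · rw [Function.update_of_ne hs]
          simp only [hw, if_neg hs]
      have e2 : Function.update w r (Psum p) =
          fun s => if s ∈ B then xp K p else if s ∈ R then Psum p else 1 := by
        funext s
        by_cases hs : s = r
        · subst hs; simp [hr, hrR]
        · rw [Function.update_of_ne hs]
          simp only [hw, Finset.mem_insert, hs, false_or, if_false]
      rw [e1, e2] at h1
      rw [h1, ih', Finset.card_insert_of_notMem hr, pow_succ]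
      ring
  have h := key R (Finset.Subset.refl R)
  rw [← h]
  congr 3
  unfold D
  congr 1
  funext r
  split_ifs <;> rfl

end repl

end Pool.Agent.Lib.Pe17fed
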