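import Mathlib
import Pool.Agent.Lib.Pe17fed.Repl
import Pool.Agent.Lib.Pe17fed.Parity

/-! Assembly of the congruence over `ℚ(q, a)`, granted the facts on Hecke algebras over the
ring `SS p` and the existence of Markov functionals. -/

namespace Pool.Agent.Lib.Pe17fed

open Equiv Equiv.Perm

/-! ### Markov functions -/

theorem Markov.unique {S : Type*} [CommRing S] {z a ai δ : S} {t t' : ℕ → Br → S}
    (ht : Markov z a ai δ t) (ht' : Markov z a ai δ t') :
    ∀ n, ∀ b ∈ BB n, t n b = t' n b := by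
  have key : ∀ n, ∀ b ∈ BB n, (b ∈ BB n ∧ t n b = t' n b) := by
    refine braid_induction (P := fun n b => b ∈ BB n ∧ t n b = t' n b) ?_ ?_ ?_ ?_ ?_
    · exact ⟨Subgroup.one_mem _, by rw [ht.empty, ht'.empty]⟩
    · rintro n g hg b hb ⟨_, h⟩
      refine ⟨Subgroup.mul_mem _ (Subgroup.mul_mem _ hg hb) (Subgroup.inv_mem _ hg), ?_⟩
      rw [ht.comm n (g * b) (Subgroup.mul_mem _ hg hb) g⁻¹ (Subgroup.inv_mem _ hg),
        ht'.comm n (g * b) (Subgroup.mul_mem _ hg hb) g⁻¹ (Subgroup.inv_mem _ hg)]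
      simpa using h
    · rintro n i hi b hb ⟨_, h⟩
      have h1 := ht.skein n i hi b hb
      have h2 := ht'.skein n i hi b hb
      have hs := sg_mem hi
      have m1 : b * sg i ∈ BB n := Subgroup.mul_mem _ hb hs
      have m2 : b * (sg i)⁻¹ ∈ BB n := Subgroup.mul_mem _ hb (Subgroup.inv_mem _ hs)
      rw [h] at h1
      constructor
      · rintro ⟨_, h3⟩
        exact ⟨m2, by linear_combination h3 - h1 + h2⟩
      · rintro ⟨_, h3⟩
        exact ⟨m1, by linear_combination h3 + h1 - h2⟩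
    · rintro n b hb ⟨_, h⟩
      exact ⟨BB_mono (by omega) hb, by rw [ht.stab n b hb, ht'.stab n b hb, h]⟩
    · rintro n b hb ⟨_, h⟩
      exact ⟨Subgroup.mul_mem _ (BB_mono (by omega) hb) (sg_mem (by omega)),
        by rw [ht.stabp n b hb, ht'.stabp n b hb, h]⟩
  exact fun n b hb => (key n b hb).2

theorem ext_congr {k S : Type*} [CommRing k] [CommRing S] [Algebra k S] {t t' : Br → S} {m : ℕ}
    (h : ∀ b ∈ BB m, t b = t' b) {x : A k} (hx : x ∈ AB k m) : ext t x = ext t' x := by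
  refine AB_induction (P := fun x => ext t x = ext t' x) ?_ ?_ ?_ ?_ hx
  · simp
  · intro b hb; rw [ext_ob, ext_ob, h b hb]
  · intro x y hx hy; rw [map_add, map_add, hx, hy]
  · intro r x hx; rw [map_smul, map_smul, hx]

section

open Hecke59 (Hk HH T Ti)

universe u

variable {S : Type u} [CommRing S] {z δ κ : S}

/-- Markov functionals on the Hecke algebra give Markov functions on braids. -/
theorem markov_of {m : ℕ → (Hk S z →ₗ[S] S)} (h1 : m 0 1 = 1)
    (h2 : ∀ n, ∀ x ∈ HH S z n, ∀ y ∈ HH S z n, m n (x * y) = m n (y * x))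
    (h3 : ∀ n, ∀ x ∈ HH S z n, m (n + 1) x = δ * m n x)
    (h4 : ∀ n, ∀ x ∈ HH S z (n + 1), m (n + 2) (x * T n) = κ * m (n + 1) x) :
    Markov z κ (κ - z * δ) δ (fun n b => m n ((piB b : (Hk S z)ˣ) : Hk S z)) where
  empty := by rw [map_one, Units.val_one, h1]
  comm := by
    intro n g hg b hb
    rw [map_mul, map_mul, Units.val_mul, Units.val_mul, h2 n _ (piB_mem hg) _ (piB_mem hb)]
  skein := by
    intro n i _ b _
    rw [map_mul, map_mul, Units.val_mul, Units.val_mul, piB_sg_val, piB_sg_inv_val, ← map_sub,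
      ← mul_sub, Hecke59.T_sub_Ti, ← Algebra.commutes, ← Algebra.smul_def, map_smul, smul_eq_mul]
  stab := by
    intro n b hb
    exact h3 n _ (piB_mem hb)
  stabp := by
    intro n b hb
    rw [map_mul, Units.val_mul, piB_sg_val]
    exact h4 n _ (piB_mem hb)
  stabm := by
    intro n b hb
    have hb' := piB_mem (S := S) (z := z) hb
    rw [map_mul, Units.val_mul, piB_sg_inv_val]
    have e : (Ti n : Hk S z) = T n - algebraMap S _ z := rfl
    rw [e, mul_sub, map_sub, h4 n _ hb', ← Algebra.commutes, ← Algebra.smul_def, map_smul,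
      h3 (n + 1) _ hb', smul_eq_mul]
    ring

theorem gskein_of (m : ℕ → (Hk S z →ₗ[S] S)) :
    GSkein z (fun n b => m n ((piB b : (Hk S z)ˣ) : Hk S z)) := by
  intro n i a b
  simp only [map_mul, Units.val_mul, piB_sg_val, piB_sg_inv_val]
  rw [← map_sub, ← sub_mul, ← mul_sub, Hecke59.T_sub_Ti, ← Algebra.commutes, ← Algebra.smul_def,
    smul_mul_assoc, map_smul, smul_eq_mul]

end

/-! ### Change of the coefficients of the group algebra -/

section

variable {k S : Type*} [CommRing k] [CommRing S] [Algebra k S]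

/-- The homomorphism from the integral group algebra. -/
noncomputable def mapA (k : Type*) [CommRing k] : A ℤ →+* A k :=
  MonoidAlgebra.mapRingHom Br (Int.castRingHom k)

theorem mapA_ob (b : Br) : mapA k (ob b) = ob b := by
  show MonoidAlgebra.mapRingHom Br (Int.castRingHom k) (MonoidAlgebra.single b 1) =
    MonoidAlgebra.single b 1
  rw [MonoidAlgebra.mapRingHom_single, map_one]

theorem ext_mapA (t : Br → S) (x : A ℤ) : ext t (mapA k x) = ext t x := by
  refine A_induction (P := fun x => ext t (mapA k x) = ext t x) ?_ ?_ ?_ x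
  · intro b; rw [mapA_ob, ext_ob, ext_ob]
  · intro x y hx hy; rw [map_add, map_add, map_add, hx, hy]
  · intro r x hx
    rw [map_zsmul, map_zsmul, map_zsmul, hx]

theorem mapA_shA (j : ℕ) (x : A ℤ) : mapA k (shA j x) = shA j (mapA k x) := by
  refine A_induction (P := fun x => mapA k (shA j x) = shA j (mapA k x)) ?_ ?_ ?_ x
  · intro b; rw [shA_ob, mapA_ob, mapA_ob, shA_ob]
  · intro x y hx hy; rw [map_add, map_add, map_add, map_add, hx, hy]
  · intro r x hx
    rw [map_zsmul, map_zsmul, map_zsmul, map_zsmul, hx]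

theorem mapA_xp (p : ℕ) : mapA k (xp ℤ p) = xp k p := by
  unfold xp
  rw [map_sum]
  exact Finset.sum_congr rfl (fun j _ => mapA_ob _)

theorem mapA_D (p n : ℕ) (R : Finset ℕ) : mapA k (D p n (xp ℤ p) R) = D p n (xp k p) R := by
  unfold D
  induction n with
  | zero => exact map_one _
  | succ n ih =>
    show mapA k (DG p _ n * shA (n * p) _) = DG p _ n * shA (n * p) _
    rw [map_mul, ih, mapA_shA]
    congr 2
    dsimp only
    split_ifs
    · exact mapA_xp p
    · exact map_one _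

theorem Ec_eq (t : ℕ → Br → S) (p n : ℕ) (R : Finset ℕ) (b : Br) :
    Ec t p n R b = ext (t (n * p)) (D p n (xp k p) R * ob (cab p b)) := by
  unfold Ec
  rw [← ext_mapA (k := k), map_mul, mapA_D, mapA_ob]

end

/-! ### One-strand cables -/

theorem cab_one (b : Br) : cab 1 b = b := by
  refine Br_induction (P := fun b => cab 1 b = b) ?_ ?_ ?_ ?_ b
  · exact map_one _
  · intro i
    rw [cab_sg]
    show sh (i * 1) (sh 0 (1 * sg 0) * 1) = sg i
    rw [one_mul, mul_one, mul_one, sh_zero, sh_sg, zero_add]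
  · intro a b ha hb; rw [map_mul, ha, hb]
  · intro a ha; rw [map_inv, ha]

theorem Psum_one : Psum 1 = 1 := by
  have h1 : syme 1 = 1 := by
    show (1 : A K) * ∑ k ∈ Finset.range 1, qv ^ k • ob (dn 0 k) = 1
    rw [Finset.sum_range_one, pow_zero, one_smul, one_mul]
    exact map_one _
  have h2 : symc 1 = 1 := by
    unfold symc
    simp
  rw [Psum]
  unfold hsym
  rw [h1, h2]
  simp

theorem D_one (p n : ℕ) (R : Finset ℕ) : D p n (1 : A K) R = 1 := by
  unfold D
  induction n with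
  | zero => rfl
  | succ n ih =>
    show DG p _ n * shA (n * p) _ = 1
    rw [ih, one_mul]
    dsimp only
    split_ifs <;> exact map_one _

theorem Zc_one (H : ℕ → Br → K) (n : ℕ) (R : Finset ℕ) (b : Br) :
    Zc H 1 n R b = zv ^ R.card * H n b := by
  unfold Zc
  rw [Psum_one, D_one, one_mul, cab_one, ext_ob, pow_one, pow_one, mul_one]
  rfl

/-! ### The homomorphism `Lam → ℚ(q, a)` -/

/-- The unit `a`. -/
noncomputable def avU : Kˣ := Units.mk0 av av_ne

/-- The homomorphism `Lam → ℚ(q, a)`. -/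
noncomputable def ioK : Lam →+* K := evL (zv ^ 2) avU

theorem ioK_mem (x : Lam) : ioK x ∈ Algebra.adjoin ℤ ({zv ^ 2, av, av⁻¹} : Set K) := by
  set B := Algebra.adjoin ℤ ({zv ^ 2, av, av⁻¹} : Set K) with hB
  have m1 : zv ^ 2 ∈ B := Algebra.subset_adjoin (by simp)
  have m2 : av ∈ B := Algebra.subset_adjoin (by simp)
  have m3 : av⁻¹ ∈ B := Algebra.subset_adjoin (by simp)
  let u : Bˣ := ⟨⟨av, m2⟩, ⟨av⁻¹, m3⟩, by ext; exact mul_inv_cancel₀ av_ne,
    by ext; exact inv_mul_cancel₀ av_ne⟩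
  have h : (B.val : B →+* K).comp (evL (⟨zv ^ 2, m1⟩ : B) u) = ioK := by
    rw [evL_comp]
    unfold ioK
    congr 1
  rw [← h]
  exact (evL (⟨zv ^ 2, m1⟩ : B) u x).2

theorem qv_pow_sub (p : ℕ) : qv ^ p - qv⁻¹ ^ p = zv * br qv qv⁻¹ p :=
  (br_mul_z qv qv⁻¹ qv_mul p).symm

theorem ioK_QL (p : ℕ) : ioK (QL p) = br qv qv⁻¹ p ^ 2 := by
  unfold ioK
  rw [evL_QL]
  exact eval_Qp qv_mul p

theorem ioK_psiL {p : ℕ} (hp : 0 < p) : ioK.comp (psiL p) = (Psi p hp).comp ioK := by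
  apply Lam_hom_ext
  · rw [RingHom.comp_apply, RingHom.comp_apply, psiL, evL_X, map_mul, ioK_QL]
    have : Psi p hp zv = zv * br qv qv⁻¹ p := by
      unfold zv
      rw [map_sub, map_inv₀, Psi_qv, ← inv_pow]
      exact qv_pow_sub p
    show ioK Polynomial.X * _ = Psi p hp (ioK Polynomial.X)
    unfold ioK
    rw [evL_X, map_pow, this]
    ring
  · rw [RingHom.comp_apply, RingHom.comp_apply, psiL, evL_alpha]
    have e1 : ioK (Polynomial.C (alpha : L0)) = av := by
      unfold ioK; rw [evL_alpha]; rfl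
    rw [e1, Psi_av]
    simp only [map_pow, Units.val_pow_eq_pow_val, Units.coe_map, MonoidHom.coe_coe]
    rw [e1]

/-! ### The congruence -/

theorem IsFramedHomfly.markov {H : ℕ → Br → K} (hH : IsFramedHomfly H) :
    Markov (qv - qv⁻¹) av av⁻¹ ((av - av⁻¹) / zv) H where
  empty := hH.empty
  comm := hH.conj
  skein := hH.skein
  stab := hH.circle
  stabp := hH.curl
  stabm := hH.curl_inv

theorem isFramedHomfly_of {H : ℕ → Br → K}
    (hH : Markov (qv - qv⁻¹) av av⁻¹ ((av - av⁻¹) / zv) H) : IsFramedHomfly H where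
  empty := hH.empty
  conj := hH.comm
  skein := hH.skein
  circle := hH.stab
  curl := hH.stabp
  curl_inv := hH.stabm

theorem Zc_eq {H t : ℕ → Br → K} (hH : IsFramedHomfly H)
    (ht : Markov (qv - qv⁻¹) av av⁻¹ ((av - av⁻¹) / zv) t) (hg : GSkein (qv - qv⁻¹) t)
    {p : ℕ} (hp : 0 < p) {n : ℕ} {b : Br} (hb : b ∈ BB n) {R : Finset ℕ}
    (hR : Tr n (perm b) R) : Zc H p n R b = zv ^ R.card * Ec H p n R b := by
  have hu := hH.markov.unique ht
  have hmem : ∀ x ∈ AB K p, D p n x R * ob (cab p b) ∈ AB K (n * p) := fun x hx =>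
    AB_mul (D_mem hx R) (ob_mem (cab_mem hb))
  unfold Zc
  rw [Ec_eq (k := K), ext_congr (hu (n * p)) (hmem _ (Psum_mem p)),
    ext_congr (hu (n * p)) (hmem _ (xp_mem hp)), replace_all ht hg hp hb hR, qv_pow_sub, mul_pow]
  ring

/-- **The congruence.** -/
theorem final_congruence {H t : ℕ → Br → K} (hH : IsFramedHomfly H)
    (ht : Markov (qv - qv⁻¹) av av⁻¹ ((av - av⁻¹) / zv) t) (hg : GSkein (qv - qv⁻¹) t)
    {p : ℕ} (hp : 0 < p) {δS : SS p} {tS : ℕ → Br → SS p}
    (HF : HeckeFacts p (qS p - qiS p) ((-1) ^ (p - 1)))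
    (hδS : (qS p - qiS p) * δS = (aS p : SS p) - ((aS p)⁻¹ : (SS p)ˣ))
    (hS : Markov (qS p - qiS p) (aS p : SS p) ((aS p)⁻¹ : (SS p)ˣ) δS tS)
    (hgS : GSkein (qS p - qiS p) tS) {n : ℕ} {w : List (ℕ × Bool)}
    (hw : ∀ l ∈ w, l.1 + 1 < n) {R : Finset ℕ} (hR : Tr n (perm (wd w)) R) :
    ∃ g ∈ Algebra.adjoin ℤ ({zv ^ 2, av, av⁻¹} : Set K),
      Zc H p n R (wd w) - (-1) ^ (((p : ℤ) - 1) * fram w) * Psi p hp (Zc H 1 n R (wd w)) =
        ((qv ^ p - qv⁻¹ ^ p) / (qv - qv⁻¹)) ^ 2 * g := by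
  have hb := wd_mem hw
  have hz : qv - qv⁻¹ ≠ 0 := zv_ne
  -- the sign character
  let χ : Br →* SS p := (((Int.castRingHom (SS p) : ℤ →+* SS p) : ℤ →* SS p).comp
    (Units.coeHom ℤ)).comp ((powMonoidHom (p - 1)).comp eps)
  have hχ' : ∀ b, χ b = (((eps b ^ (p - 1) : ℤˣ) : ℤ) : SS p) := fun b => rfl
  have hχ : ∀ i, χ (sg i) = (-1) ^ (p - 1) := by
    intro i
    rw [hχ', eps_sg]
    push_cast
    rfl
  have hκ : ((-1) ^ (p - 1) * (-1) ^ (p - 1) : SS p) = 1 := by
    rw [← mul_pow]; simp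
  have hδ : (qv - qv⁻¹) * ((av - av⁻¹) / zv) = av - av⁻¹ := by
    show zv * ((av - av⁻¹) / zv) = _
    field_simp [zv_ne]
  obtain ⟨G, g, h1, h2, h3⟩ := congruence (ιK := ioK) (ιS := ioS p) (τ := Polynomial.X)
    (α := Polynomial.C (alpha : L0)) (αi := Polynomial.C ((alpha⁻¹ : L0ˣ) : L0))
    (hK := hH.markov) (hδ := hδ) (hS := hS) (hδS := hδS)
    (by unfold ioK; rw [evL_X]; rfl)
    (by unfold ioK; rw [evL_alpha]; rfl)
    (by
      unfold ioK
      rw [evL_alpha_inv]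
      simp [avU])
    (by unfold ioS; rw [evL_X, TS_eq])
    (by unfold ioS; rw [evL_alpha])
    (by unfold ioS; rw [evL_alpha_inv])
    hgS hp HF χ hχ hκ (ψ := psiS p) (psiS_X p) (psiS_alpha p) (psiS_alpha_inv p) hb hR
  set s : ℤ := ((eps (wd w) ^ (p - 1) : ℤˣ) : ℤ) with hs
  have h4 : ioS p (G - (s : Lam) * psiL p g) = 0 := by
    rw [map_sub, map_mul, h3, hχ', map_intCast]
    show _ - _ * psiS p g = 0
    rw [sub_self]
  obtain ⟨h, hh⟩ := ioS_ker hp h4
  refine ⟨ioK h, ioK_mem h, ?_⟩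
  have h5 := congrArg ioK hh
  have h6 : ioK (psiL p g) = Psi p hp (ioK g) := DFunLike.congr_fun (ioK_psiL hp) g
  rw [map_sub, map_mul, map_intCast, map_mul, ioK_QL, h1, h6, h2] at h5
  have h7 : ((-1 : K)) ^ (((p : ℤ) - 1) * fram w) = (s : K) := by
    have e1 : ((-1 : ℤˣ) ^ (((p : ℤ) - 1) * fram w)) = eps (wd w) ^ (p - 1) := by
      rw [mul_comm, zpow_mul, fram_parity hw]
      have : ((p : ℤ) - 1) = ((p - 1 : ℕ) : ℤ) := by omega
      rw [this, zpow_natCast]
    rw [hs, ← e1]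
    have e2 : ∀ m : ℤ, (((((-1 : ℤˣ) ^ m : ℤˣ) : ℤ)) : K) = (-1 : K) ^ m := by
      intro m
      rcases Int.even_or_odd m with hm | hm
      · rw [hm.neg_one_zpow, hm.neg_one_zpow]; simp
      · rw [hm.neg_one_zpow, hm.neg_one_zpow]; simp
    rw [e2]
  have h8 : (qv ^ p - qv⁻¹ ^ p) / (qv - qv⁻¹) = br qv qv⁻¹ p := by
    rw [qv_pow_sub]
    show (qv - qv⁻¹) * _ / _ = _
    exact mul_div_cancel_left₀ _ hz
  rw [Zc_eq hH ht hg hp hb hR, Zc_one, h7, h8]
  exact h5

end Pool.Agent.Lib.Pe17fed
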