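import Pool.Agent.Lib.Hecke59.Facts
import Pool.Agent.Lib.Pe17fed.Bridge

/-! The facts on Hecke algebras for functionals on the group algebra of the braid group. -/

namespace Pool.Agent.Lib.Pe17fed

open Hecke59 (Hk T Ti HH)

universe u

variable {S : Type u} [CommRing S] {z : S}

theorem piB_c (m : ℕ) : ((piB (c m) : (Hk S z)ˣ) : Hk S z) = Hecke59.D 0 m := by
  induction m with
  | zero => rw [Hecke59.D_zero]; show ((piB (1 : Br) : (Hk S z)ˣ) : Hk S z) = 1; rw [map_one]; rfl
  | succ m ih =>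
    show ((piB (c m * sg m) : (Hk S z)ˣ) : Hk S z) = _
    rw [map_mul, Units.val_mul, ih, piB_sg_val, Hecke59.D_succ, Nat.zero_add]

theorem piB_X (m n : ℕ) : ((piB (X m n) : (Hk S z)ˣ) : Hk S z) = Hecke59.Xp m n := by
  induction n with
  | zero => rw [Hecke59.Xp_zero]; show ((piB (1 : Br) : (Hk S z)ˣ) : Hk S z) = 1; rw [map_one]; rfl
  | succ n ih =>
    show ((piB (sh n (c m) * X m n) : (Hk S z)ˣ) : Hk S z) = _
    rw [map_mul, Units.val_mul, ih, piB_sh, piB_c, Hecke59.Xp_succ, Hecke59.sh_D, Nat.zero_add]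

theorem piB_X_inv (m n : ℕ) : ((piB (X m n)⁻¹ : (Hk S z)ˣ) : Hk S z) = Hecke59.Xm n m := by
  have h1 : ((piB (X m n)⁻¹ : (Hk S z)ˣ) : Hk S z) * Hecke59.Xp m n = 1 := by
    rw [← piB_X, ← Units.val_mul, ← map_mul, inv_mul_cancel, map_one, Units.val_one]
  calc ((piB (X m n)⁻¹ : (Hk S z)ˣ) : Hk S z)
      = ((piB (X m n)⁻¹ : (Hk S z)ˣ) : Hk S z) * (Hecke59.Xp m n * Hecke59.Xm n m) := by
        rw [Hecke59.Xp_mul_Xm, mul_one]
    _ = _ := by rw [← mul_assoc, h1, one_mul]

theorem V_of_le {j m : ℕ} (h : m ≤ j) : V j m = c m := by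
  induction m with
  | zero => rfl
  | succ m ih =>
    show V j m * (if m < j then sg m else (sg m)⁻¹) = c m * sg m
    rw [if_pos (by omega), ih (by omega)]

section

variable {k : Type*} [CommRing k] [Algebra k S]

theorem piA_mul (x y : A k) : (piA (x * y) : Hk S z) = piA x * piA y := map_mul _ _ _

theorem shA_zero (x : A k) : shA 0 x = x := by
  refine A_induction (P := fun x => shA 0 x = x) ?_ ?_ ?_ x
  · intro b; rw [shA_ob, sh_zero]
  · intro x y hx hy; rw [map_add, hx, hy]
  · intro r x hx; rw [map_smul, hx]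

theorem piA_xp (p : ℕ) : (piA (xp k p) : Hk S z) = Hecke59.AA p := by
  unfold xp
  rw [map_sum]
  simp only [piA_ob]
  induction p with
  | zero => rfl
  | succ p ih =>
    cases p with
    | zero =>
      rw [Finset.sum_range_one]
      show ((piB (1 : Br) : (Hk S z)ˣ) : Hk S z) = 1
      rw [map_one]; rfl
    | succ p =>
      rw [Finset.sum_range_succ, Hecke59.AA_succ, ← ih, Finset.sum_mul]
      congr 1
      · refine Finset.sum_congr rfl fun j hj => ?_
        rw [Finset.mem_range] at hj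
        show ((piB (V j p * (if p < j then sg p else (sg p)⁻¹)) : (Hk S z)ˣ) : Hk S z) = _
        rw [if_neg (by omega), map_mul, Units.val_mul, piB_sg_inv_val]
        rfl
      · rw [V_of_le (by omega), piB_c]
        rfl

end

/-- Elements of the Hecke algebra are combinations of braids. -/
theorem HH_br_induction {n : ℕ} {P : Hk S z → Prop}
    (hb : ∀ b ∈ BB n, P ((piB b : (Hk S z)ˣ) : Hk S z))
    (hs : ∀ (r : S) x, P x → P (r • x)) (ha : ∀ x y, P x → P y → P (x + y)) {x : Hk S z}
    (hx : x ∈ HH S z n) : P x := by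
  have key : x ∈ Submodule.span S {w : Hk S z | ∃ b ∈ BB n, w = (piB b : (Hk S z)ˣ)} := by
    refine Hecke59.HH_induction_left
      (P := fun x => x ∈ Submodule.span S {w : Hk S z | ∃ b ∈ BB n, w = (piB b : (Hk S z)ˣ)})
      ?_ ?_ ?_ ?_ hx
    · refine Submodule.subset_span ⟨1, Subgroup.one_mem _, ?_⟩
      rw [map_one]; rfl
    · intro r x hx; exact Submodule.smul_mem _ r hx
    · intro x y hx hy; exact Submodule.add_mem _ hx hy
    · intro i hi x _ hx
      refine Submodule.span_induction (p := fun x _ => T i * x ∈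
        Submodule.span S {w : Hk S z | ∃ b ∈ BB n, w = (piB b : (Hk S z)ˣ)}) ?_ ?_ ?_ ?_ hx
      · rintro w ⟨b, hb, rfl⟩
        refine Submodule.subset_span ⟨sg i * b, Subgroup.mul_mem _ (sg_mem hi) hb, ?_⟩
        rw [map_mul, Units.val_mul, piB_sg_val]
      · rw [mul_zero]; exact Submodule.zero_mem _
      · intro a b _ _ ha hb; rw [mul_add]; exact Submodule.add_mem _ ha hb
      · intro r a _ ha; rw [mul_smul_comm]; exact Submodule.smul_mem _ r ha
  refine Submodule.span_induction (p := fun x _ => P x) ?_ ?_ ?_ ?_ key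
  · rintro w ⟨b, hb', rfl⟩; exact hb b hb'
  · have := hs 0 _ (hb 1 (Subgroup.one_mem _))
    rwa [zero_smul] at this
  · intro x y _ _ hx hy; exact ha x y hx hy
  · intro r x _ hx; exact hs r x hx

/-- Transfer of a commutation rule from braids to the Hecke algebra. -/
theorem transfer {k : Type*} [CommRing k] [Algebra k S] {Φ : A k →ₗ[k] S} {φ : Hk S z →ₗ[S] S}
    (hφ : ∀ x, φ (piA x) = Φ x) {n m i j : ℕ}
    (h : ∀ u ∈ AB k n, ∀ y ∈ AB k m, Φ (shA i u * y) = Φ (y * shA j u)) :
    ∀ u ∈ HH S z n, ∀ y ∈ HH S z m, φ (Hecke59.sh i u * y) = φ (y * Hecke59.sh j u) := by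
  intro u hu
  refine HH_br_induction (P := fun u => ∀ y ∈ HH S z m,
    φ (Hecke59.sh i u * y) = φ (y * Hecke59.sh j u)) ?_ ?_ ?_ hu
  · intro b hb y hy
    refine HH_br_induction (P := fun y => φ (Hecke59.sh i ((piB b : (Hk S z)ˣ) : Hk S z) * y) =
      φ (y * Hecke59.sh j ((piB b : (Hk S z)ˣ) : Hk S z))) ?_ ?_ ?_ hy
    · intro c hc
      have := h (ob b) (ob_mem hb) (ob c) (ob_mem hc)
      rw [← hφ, ← hφ, piA_mul, piA_mul, piA_shA, piA_shA, piA_ob, piA_ob] at this
      exact this
    · intro r x hx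
      rw [mul_smul_comm, smul_mul_assoc, map_smul, map_smul, hx]
    · intro x y hx hy
      rw [mul_add, add_mul, map_add, map_add, hx, hy]
  · intro r x hx y hy
    rw [map_smul, map_smul, mul_smul_comm, smul_mul_assoc, map_smul, map_smul, hx y hy]
  · intro x w hx hw y hy
    rw [map_add, map_add, mul_add, add_mul, map_add, map_add, hx y hy, hw y hy]

/-- The facts on Hecke algebras when `[p]^2 = 0`. -/
theorem hecke_facts {S : Type u} [CommRing S] [Algebra ℚ S] {q qi : S} {p : ℕ} (hp : 0 < p)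
    (G : Hecke59.Good p q qi) : HeckeFacts p (q - qi) ((-1) ^ (p - 1)) where
  self := by
    intro Φ hΦ h1 h2
    obtain ⟨φ, hφ⟩ := exists_lift hΦ
    have h1' := transfer (i := 0) (j := 0) hφ (n := p) (m := p + p)
      (fun u hu y hy => by simpa only [shA_zero] using h1 u hu y hy)
    have h2' := transfer (i := p) (j := p) hφ (n := p) (m := p + p) h2
    have := Hecke59.fact_self hp G φ
      (fun u hu y hy => by simpa only [Hecke59.sh_zero] using h1' u hu y hy) h2'
    rw [← hφ, ← hφ, ← hφ, piA_mul, piA_mul, piA_mul, piA_shA, piA_xp, piA_ob, piA_ob, piB_X,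
      piB_X_inv, this, smul_eq_mul]
  linking := by
    intro Φ hΦ h1 h2
    obtain ⟨φ, hφ⟩ := exists_lift hΦ
    have h1' := transfer (i := 0) (j := p) hφ (n := p) (m := p + p)
      (fun u hu y hy => by simpa only [shA_zero] using h1 u hu y hy)
    have h2' := transfer (i := p) (j := 0) hφ (n := p) (m := p + p)
      (fun u hu y hy => by simpa only [shA_zero] using h2 u hu y hy)
    have := Hecke59.fact_linking hp G φ
      (fun u hu y hy => by simpa only [Hecke59.sh_zero] using h1' u hu y hy)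
      (fun u hu y hy => by simpa only [Hecke59.sh_zero] using h2' u hu y hy)
    rw [← hφ, ← hφ, piA_mul, piA_mul, piA_mul (xp ℤ p * shA p (xp ℤ p)), piA_mul, piA_shA,
      piA_xp, piA_ob, piA_ob, piB_X, piB_X_inv, this]
  twist := by
    intro Φ hΦ h
    obtain ⟨φ, hφ⟩ := exists_lift hΦ
    have h' := transfer (i := 0) (j := 0) hφ (n := p) (m := p)
      (fun u hu y hy => by simpa only [shA_zero] using h u hu y hy)
    have := Hecke59.fact_twist hp G φ
      (fun u hu y hy => by simpa only [Hecke59.sh_zero] using h' u hu y hy)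
    rw [← hφ, ← hφ, piA_mul, piA_xp, piA_ob, map_pow, Units.val_pow_eq_pow_val, piB_c, this]

end Pool.Agent.Lib.Pe17fed
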