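import Mathlib
import Pool.Agent.Lib.Pe17fed.HFacts
import Pool.Agent.Lib.Pe17fed.Final

/-! Existence of the framed HOMFLY-PT invariant and the congruence. -/

namespace Pool.Agent.Lib.Pe17fed

open Equiv Equiv.Perm

open Hecke59 (Hk mark)

section

universe u

variable {S : Type u} [CommRing S]

/-- The Markov function with values in `S`. -/
noncomputable def tM (z δ κ : S) (n : ℕ) (b : Br) : S :=
  (mark δ κ n : Hk S z →ₗ[S] S) ((piB b : (Hk S z)ˣ) : Hk S z)

theorem tM_markov (z δ κ : S) : Markov z κ (κ - z * δ) δ (tM z δ κ) :=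
  markov_of (z := z) (δ := δ) (κ := κ) (Hecke59.mark_zero_one δ κ)
    (fun n _ hx _ hy => Hecke59.mark_comm δ κ n hx hy)
    (fun n _ hx => Hecke59.mark_succ δ κ n hx)
    (fun n x hx => by
      have := Hecke59.mark_T δ κ n hx (Subalgebra.one_mem (Hecke59.HH S z (n + 1)))
      rwa [mul_one, mul_one] at this)

theorem tM_gskein (z δ κ : S) : GSkein z (tM z δ κ) :=
  gskein_of (fun n => (mark δ κ n : Hk S z →ₗ[S] S))

end

/-- The ring `SS p` satisfies the hypotheses for the facts on Hecke algebras. -/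
theorem good_SS {p : ℕ} (hp : p.Prime) : Hecke59.Good p (qS p) (qiS p) where
  hq := qS_mul p
  hz := z_isUnit (qS_mul p) hp (qn_sq_zero hp.pos)
  hu := fun _ hk hkp => qn_isUnit (qS_mul p) hp (qn_sq_zero hp.pos) hk hkp
  h0 := qn_sq_zero hp.pos

/-- The Markov function over `ℚ(q, a)`. -/
noncomputable def HK : ℕ → Br → K := tM (qv - qv⁻¹) ((av - av⁻¹) / zv) av

theorem HK_markov : Markov (qv - qv⁻¹) av av⁻¹ ((av - av⁻¹) / zv) HK := by
  have h := tM_markov (qv - qv⁻¹) ((av - av⁻¹) / zv) av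
  have e : av - (qv - qv⁻¹) * ((av - av⁻¹) / zv) = av⁻¹ := by
    show av - zv * ((av - av⁻¹) / zv) = _
    rw [mul_div_cancel₀ _ zv_ne]
    ring
  rwa [e] at h

/-- Existence of the framed HOMFLY-PT invariant. -/
theorem exists_framedHomfly : ∃ H : ℕ → Br → K, IsFramedHomfly H :=
  ⟨HK, isFramedHomfly_of HK_markov⟩

/-- Uniqueness of the framed HOMFLY-PT invariant. -/
theorem framedHomfly_unique {H H' : ℕ → Br → K} (h : IsFramedHomfly H) (h' : IsFramedHomfly H') :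
    ∀ n, ∀ b ∈ BB n, H n b = H' n b :=
  h.markov.unique h'.markov

/-- **The congruence** for the closures of all braid words. -/
theorem main_congruence {H : ℕ → Br → K} (hH : IsFramedHomfly H) {p : ℕ} (hp : p.Prime)
    {n : ℕ} {w : List (ℕ × Bool)} (hw : ∀ l ∈ w, l.1 + 1 < n) {R : Finset ℕ}
    (hR : Tr n (perm (wd w)) R) :
    ∃ g ∈ Algebra.adjoin ℤ ({zv ^ 2, av, av⁻¹} : Set K),
      Zc H p n R (wd w) - (-1) ^ (((p : ℤ) - 1) * fram w) * Psi p hp.pos (Zc H 1 n R (wd w)) =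
        ((qv ^ p - qv⁻¹ ^ p) / (qv - qv⁻¹)) ^ 2 * g := by
  obtain ⟨u, hu⟩ := (good_SS hp).hz
  set δS : SS p := ((u⁻¹ : (SS p)ˣ) : SS p) * ((aS p : SS p) - ((aS p)⁻¹ : (SS p)ˣ)) with hδ
  have hδS : (qS p - qiS p) * δS = (aS p : SS p) - ((aS p)⁻¹ : (SS p)ˣ) := by
    rw [hδ, ← hu, ← mul_assoc, Units.mul_inv, one_mul]
  have hS : Markov (qS p - qiS p) (aS p : SS p) ((aS p)⁻¹ : (SS p)ˣ) δS
      (tM (qS p - qiS p) δS (aS p : SS p)) := by
    have h := tM_markov (qS p - qiS p) δS (aS p : SS p)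
    have e : (aS p : SS p) - (qS p - qiS p) * δS = ((aS p)⁻¹ : (SS p)ˣ) := by
      rw [hδS]; ring
    rwa [e] at h
  exact final_congruence hH HK_markov (tM_gskein _ _ _) hp.pos (hecke_facts hp.pos (good_SS hp))
    hδS hS (tM_gskein _ _ _) hw hR

end Pool.Agent.Lib.Pe17fed
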